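import Pool.Agent.Helper18.Sd.Defs

/-!
SD-A. Basic properties of the expectation `ex`. All by induction on the list (`T` generalised).

* `ex_card`: for each `i` exactly one `r < p` has `p ∣ r + i`, so `∑_(r < p) #(sv p r T) = #T (p - 1)`.
* `ex_exp_ge`: tangent line: with `μ = #T · pr l`, `exp(-a s) ≥ exp(-a μ) (1 - a (s - μ))` (`Real.add_one_le_exp`), `ex_mono`, `ex_lin`,
  `ex_const`, `ex_card`.
* `ex_le_of_forall`: for `p :: l` and each `r₀ < p` apply the induction hypothesis to `sv p r₀ T` and extend `r` by `r₀` at `p`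
  (`p ∉ l`), `(sv p r₀ T).filter (l) = T.filter (p :: l)`.
-/

set_option autoImplicit false

namespace Pool.Agent.Helper18.Sd

open Finset

theorem sv_subset (p r : ℕ) (T : Finset ℕ) : sv p r T ⊆ T := filter_subset _ _

theorem ex_append (l₁ l₂ : List ℕ) (F : Finset ℕ → ℝ) (T : Finset ℕ) :
    ex (l₁ ++ l₂) F T = ex l₁ (ex l₂ F) T := by
  induction l₁ generalizing T with
  | nil => simp [ex]
  | cons p l ih => simp only [List.cons_append, ex, ih]

theorem ex_mono (l : List ℕ) (F G : Finset ℕ → ℝ) (T : Finset ℕ)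
    (h : ∀ T' ⊆ T, F T' ≤ G T') : ex l F T ≤ ex l G T := by
  induction l generalizing T with
  | nil => exact h T (Finset.Subset.refl T)
  | cons p l ih =>
    simp only [ex]
    apply div_le_div_of_nonneg_right _ (Nat.cast_nonneg p)
    apply Finset.sum_le_sum
    intro r _
    exact ih (sv p r T) (fun T' h' => h T' (h'.trans (sv_subset p r T)))

theorem ex_const (l : List ℕ) (hl : ∀ p ∈ l, 0 < p) (c : ℝ) (T : Finset ℕ) :
    ex l (fun _ => c) T = c := by
  induction l generalizing T with
  | nil => rfl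
  | cons p l ih =>
    have hp : (p : ℝ) ≠ 0 := Nat.cast_ne_zero.2 (hl p (by simp)).ne'
    have ih' := fun T => ih (fun q hq => hl q (by simp [hq])) T
    simp only [ex, ih', Finset.sum_const, Finset.card_range, nsmul_eq_mul]
    field_simp

theorem ex_lin (l : List ℕ) (a b : ℝ) (F G : Finset ℕ → ℝ) (T : Finset ℕ) :
    ex l (fun T => a * F T + b * G T) T = a * ex l F T + b * ex l G T := by
  induction l generalizing T with
  | nil => rfl
  | cons p l ih =>
    simp only [ex, ih, Finset.sum_add_distrib, ← Finset.mul_sum]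
    ring

private theorem basic_one (p i : ℕ) (hp : 0 < p) :
    ((range p).filter (fun r => ¬ p ∣ r + i)).card = p - 1 := by
  have h1 : (range p).filter (fun r => p ∣ r + i) = {(p - i % p) % p} := by
    ext r
    simp only [Finset.mem_filter, Finset.mem_range, Finset.mem_singleton, Nat.dvd_iff_mod_eq_zero]
    have hs : i % p < p := Nat.mod_lt i hp
    constructor
    · rintro ⟨h2, h3⟩
      rw [Nat.add_mod, Nat.mod_eq_of_lt h2] at h3
      rcases Nat.lt_or_ge (r + i % p) p with h4 | h4
      · rw [Nat.mod_eq_of_lt h4] at h3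
        have h5 : i % p = 0 := by omega
        have h6 : r = 0 := by omega
        rw [h5, h6]
        simp
      · rw [Nat.mod_eq_sub_mod h4, Nat.mod_eq_of_lt (by omega)] at h3
        rw [Nat.mod_eq_of_lt (by omega)]
        omega
    · intro h2
      refine ⟨by rw [h2]; exact Nat.mod_lt _ hp, ?_⟩
      rw [h2, ← Nat.add_mod_mod, Nat.mod_add_mod, Nat.sub_add_cancel hs.le, Nat.mod_self]
  have h2 := Finset.card_filter_add_card_filter_not (s := range p) (fun r => p ∣ r + i)
  rw [h1, Finset.card_singleton, Finset.card_range] at h2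
  omega

private theorem basic_sum (p : ℕ) (hp : 0 < p) (T : Finset ℕ) :
    ∑ r ∈ range p, ((sv p r T).card : ℝ) = T.card * ((p : ℝ) - 1) := by
  have h1 : ∑ r ∈ range p, (sv p r T).card = T.card * (p - 1) := by
    unfold sv
    simp only [Finset.card_filter]
    rw [Finset.sum_comm]
    simp only [← Finset.card_filter]
    rw [Finset.sum_congr rfl (fun i _ => basic_one p i hp), Finset.sum_const, smul_eq_mul]
  have h2 : ((∑ r ∈ range p, (sv p r T).card : ℕ) : ℝ) = ((T.card * (p - 1) : ℕ) : ℝ) := by rw [h1]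
  rw [Nat.cast_sum, Nat.cast_mul, Nat.cast_sub (by omega : 1 ≤ p), Nat.cast_one] at h2
  exact h2

theorem ex_card (l : List ℕ) (hl : ∀ p ∈ l, 0 < p) (T : Finset ℕ) :
    ex l (fun T => (T.card : ℝ)) T = T.card * pr l := by
  induction l generalizing T with
  | nil => simp [ex, pr]
  | cons p l ih =>
    have hp0 : 0 < p := hl p (by simp)
    have hp : (p : ℝ) ≠ 0 := Nat.cast_ne_zero.2 hp0.ne'
    have ih' := fun T => ih (fun q hq => hl q (by simp [hq])) T
    simp only [ex, ih']
    rw [← Finset.sum_mul, basic_sum p hp0 T]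
    have h1 : pr (p :: l) = (1 - 1 / (p : ℝ)) * pr l := by simp [pr]
    rw [h1]
    field_simp

theorem ex_exp_ge (l : List ℕ) (hl : ∀ p ∈ l, 0 < p) (a : ℝ) (T : Finset ℕ) :
    Real.exp (-(a * (T.card * pr l))) ≤ ex l (fun T => Real.exp (-(a * T.card))) T := by
  set μ : ℝ := T.card * pr l with hμ
  have h1 : ex l (fun T' => (Real.exp (-(a * μ)) * (1 + a * μ)) * (fun _ : Finset ℕ => (1 : ℝ)) T' +
      (-(a * Real.exp (-(a * μ)))) * (fun T' : Finset ℕ => (T'.card : ℝ)) T') T ≤
      ex l (fun T => Real.exp (-(a * T.card))) T := by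
    apply ex_mono
    intro T' _
    have h2 := Real.add_one_le_exp (-(a * (T'.card - μ)))
    have h3 : Real.exp (-(a * T'.card)) = Real.exp (-(a * μ)) * Real.exp (-(a * (T'.card - μ))) := by
      rw [← Real.exp_add]
      congr 1
      ring
    rw [h3]
    have h4 := mul_le_mul_of_nonneg_left h2 (Real.exp_pos (-(a * μ))).le
    refine le_trans (le_of_eq ?_) h4
    ring
  rw [ex_lin, ex_const l hl, ex_card l hl, ← hμ] at h1
  refine le_trans (le_of_eq ?_) h1
  ring

theorem ex_le_of_forall (l : List ℕ) (hl : ∀ p ∈ l, 0 < p) (hnd : l.Nodup) (F : Finset ℕ → ℝ) (B : ℝ)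
    (T : Finset ℕ) (h : ∀ r : ℕ → ℕ, F (T.filter (fun i => ∀ p ∈ l, ¬ p ∣ r p + i)) ≤ B) :
    ex l F T ≤ B := by
  induction l generalizing T with
  | nil =>
    have h1 := h (fun _ => 0)
    simpa [ex] using h1
  | cons p l ih =>
    have hp0 : 0 < p := hl p (by simp)
    have hp : (p : ℝ) ≠ 0 := Nat.cast_ne_zero.2 hp0.ne'
    have hpl : p ∉ l := (List.nodup_cons.1 hnd).1
    have h1 : ∀ r₀ ∈ range p, ex l F (sv p r₀ T) ≤ B := by
      intro r₀ _
      apply ih (fun q hq => hl q (by simp [hq])) (List.nodup_cons.1 hnd).2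
      intro r
      have h2 := h (Function.update r p r₀)
      have h3 : T.filter (fun i => ∀ q ∈ p :: l, ¬ q ∣ Function.update r p r₀ q + i) =
          (sv p r₀ T).filter (fun i => ∀ q ∈ l, ¬ q ∣ r q + i) := by
        unfold sv
        rw [Finset.filter_filter]
        apply Finset.filter_congr
        intro i _
        constructor
        · intro h4
          refine ⟨?_, fun q hq => ?_⟩
          · have h5 := h4 p (by simp)
            rwa [Function.update_self] at h5
          · have h5 := h4 q (by simp [hq])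
            rwa [Function.update_of_ne (fun h6 : q = p => hpl (h6 ▸ hq))] at h5
        · rintro ⟨h4, h5⟩ q hq
          rcases List.mem_cons.1 hq with h6 | h6
          · subst h6
            rwa [Function.update_self]
          · rw [Function.update_of_ne (fun h7 : q = p => hpl (h7 ▸ h6))]
            exact h5 q h6
      rwa [h3] at h2
    simp only [ex]
    rw [div_le_iff₀ (Nat.cast_pos.2 hp0)]
    refine (Finset.sum_le_sum h1).trans (le_of_eq ?_)
    rw [Finset.sum_const, Finset.card_range, nsmul_eq_mul, mul_comm]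

theorem pr_pl (y z : ℕ) : pr (pl y z) = V y z := by
  unfold pr pl V
  exact Finset.prod_map_toList _ _

theorem mem_pl (y z p : ℕ) : p ∈ pl y z ↔ (y < p ∧ p ≤ z) ∧ p.Prime := by
  simp [pl, ps]

theorem nodup_pl (y z : ℕ) : (pl y z).Nodup := Finset.nodup_toList _

end Pool.Agent.Helper18.Sd
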