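import Pool.Agent.Helper18.Sd.Defs

/-!
MA-1. Bonferroni with a gain, odd order. `es j Q x = e_j(x q : q ∈ Q)`. With `A_J(Q) = ∑_(j ≤ J) (-1)^j e_j(Q)` one has for `y ∉ Q`
`A_J(Q ∪ {y}) = A_J(Q) - x_y A_(J-1)(Q) = (1 - x_y) A_J(Q) + (-1)^J x_y e_J(Q)` (`es_insert`), so for odd `J`, by induction on `Q`,
`A_J(Q) ≤ P(Q) (1 - e_(J+1)(Q))`, `P(Q) = ∏ (1 - x_q)`: the step is
`(1-x_y) P (1 - e_(J+1)) - x_y e_J ≤ (1-x_y) P (1 - e_(J+1) - x_y e_J)` because `(1-x_y) P ≤ 1`.
-/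

set_option autoImplicit false

namespace Pool.Agent.Helper18.Sd

open Finset

/-- elementary symmetric function of the `x q`, `q ∈ Q` -/
noncomputable def es (j : ℕ) (Q : Finset ℕ) (x : ℕ → ℝ) : ℝ := ∑ S ∈ Q.powersetCard j, ∏ q ∈ S, x q

theorem es_zero (Q : Finset ℕ) (x : ℕ → ℝ) : es 0 Q x = 1 := by
  simp [es]

theorem es_nonneg (j : ℕ) (Q : Finset ℕ) (x : ℕ → ℝ) (hx : ∀ q ∈ Q, 0 ≤ x q) : 0 ≤ es j Q x := by
  unfold es
  refine sum_nonneg fun S hS => prod_nonneg fun q hq => hx q ?_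
  exact (mem_powersetCard.1 hS).1 hq

private theorem es_mono (j : ℕ) (A Q : Finset ℕ) (hA : A ⊆ Q) (x : ℕ → ℝ) (hx : ∀ q ∈ Q, 0 ≤ x q) :
    es j A x ≤ es j Q x := by
  unfold es
  refine sum_le_sum_of_subset_of_nonneg (powersetCard_mono hA) fun S hS _ => prod_nonneg fun q hq => hx q ?_
  exact (mem_powersetCard.1 hS).1 hq

private theorem es_empty (j : ℕ) (x : ℕ → ℝ) : es (j + 1) ∅ x = 0 := by
  unfold es
  rw [powersetCard_eq_empty.2 (by simp)]
  simp

theorem es_insert (j : ℕ) (Q : Finset ℕ) (y : ℕ) (hy : y ∉ Q) (x : ℕ → ℝ) :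
    es (j + 1) (insert y Q) x = es (j + 1) Q x + x y * es j Q x := by
  unfold es
  rw [powersetCard_succ_insert hy, sum_union, sum_image, mul_sum]
  · congr 1
    refine sum_congr rfl fun S hS => ?_
    rw [prod_insert]
    exact fun h => hy ((mem_powersetCard.1 hS).1 h)
  · intro S hS T hT h
    have h1 : y ∉ S := fun h => hy ((mem_powersetCard.1 hS).1 h)
    have h2 : y ∉ T := fun h => hy ((mem_powersetCard.1 hT).1 h)
    have h3 : (insert y S).erase y = (insert y T).erase y := by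
      have h' : insert y S = insert y T := h
      rw [h']
    rwa [erase_insert h1, erase_insert h2] at h3
  · rw [disjoint_left]
    intro S hS hS'
    obtain ⟨T, _, rfl⟩ := mem_image.1 hS'
    exact hy ((mem_powersetCard.1 hS).1 (mem_insert_self _ _))

private theorem alt_insert (Q : Finset ℕ) (y : ℕ) (hy : y ∉ Q) (x : ℕ → ℝ) (J : ℕ) (hJ : Odd J) :
    ∑ j ∈ range (J + 1), (-1 : ℝ) ^ j * es j (insert y Q) x =
      (1 - x y) * ∑ j ∈ range (J + 1), (-1 : ℝ) ^ j * es j Q x - x y * es J Q x := by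
  have h1 : ∑ j ∈ range (J + 1), (-1 : ℝ) ^ j * es j (insert y Q) x =
      ∑ j ∈ range (J + 1), (-1 : ℝ) ^ j * es j Q x - x y * ∑ j ∈ range J, (-1 : ℝ) ^ j * es j Q x := by
    rw [sum_range_succ', sum_range_succ' (fun j => (-1 : ℝ) ^ j * es j Q x), es_zero, es_zero, mul_sum]
    rw [add_sub_right_comm, ← sum_sub_distrib]
    congr 1
    refine sum_congr rfl fun j _ => ?_
    rw [es_insert j Q y hy x]
    ring
  rw [h1, sum_range_succ, hJ.neg_one_pow]
  ring

theorem bonf_odd (Q : Finset ℕ) (x : ℕ → ℝ) (hx : ∀ q ∈ Q, 0 ≤ x q ∧ x q ≤ 1) (J : ℕ) (hJ : Odd J) :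
    ∑ j ∈ range (J + 1), (-1 : ℝ) ^ j * es j Q x ≤ (∏ q ∈ Q, (1 - x q)) * (1 - es (J + 1) Q x) := by
  induction Q using Finset.induction_on with
  | empty =>
    rw [sum_range_succ', es_zero, es_empty]
    simp [es_empty]
  | insert y Q hy ih =>
    have hQ : ∀ q ∈ Q, 0 ≤ x q ∧ x q ≤ 1 := fun q hq => hx q (mem_insert_of_mem hq)
    have hy1 := hx y (mem_insert_self _ _)
    have ih' := ih hQ
    rw [alt_insert Q y hy x J hJ, prod_insert hy, es_insert (J) Q y hy x]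
    have hP0 : 0 ≤ ∏ q ∈ Q, (1 - x q) := prod_nonneg fun q hq => by linarith [(hQ q hq).2]
    have hP1 : ∏ q ∈ Q, (1 - x q) ≤ 1 :=
      prod_le_one (fun q hq => by linarith [(hQ q hq).2]) (fun q hq => by linarith [(hQ q hq).1])
    have he : 0 ≤ es J Q x := es_nonneg J Q x fun q hq => (hQ q hq).1
    set P := ∏ q ∈ Q, (1 - x q) with hP
    set A := ∑ j ∈ range (J + 1), (-1 : ℝ) ^ j * es j Q x with hA
    have h1 : (1 - x y) * A ≤ (1 - x y) * (P * (1 - es (J + 1) Q x)) :=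
      mul_le_mul_of_nonneg_left ih' (by linarith)
    have h2 : (1 - x y) * P ≤ 1 := by
      have := mul_le_mul (show 1 - x y ≤ 1 by linarith) hP1 hP0 (by norm_num)
      linarith
    have h3 : 0 ≤ (1 - (1 - x y) * P) * (x y * es J Q x) :=
      mul_nonneg (by linarith) (mul_nonneg hy1.1 he)
    nlinarith [h1, h3]

/-- `e_(j+1)(A ∪ B) ≥ e_j(A) e_1(B)` for disjoint `A`, `B` -/
theorem es_block (j : ℕ) (A B : Finset ℕ) (hd : Disjoint A B) (x : ℕ → ℝ) (hx : ∀ q ∈ A ∪ B, 0 ≤ x q) :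
    es j A x * ∑ q ∈ B, x q ≤ es (j + 1) (A ∪ B) x := by
  induction B using Finset.induction_on with
  | empty =>
    simp only [sum_empty, mul_zero, union_empty]
    exact es_nonneg _ _ _ fun q hq => hx q (by simpa using hq)
  | insert y B hy ih =>
    have hyA : y ∉ A := fun h => (disjoint_left.1 hd) h (mem_insert_self _ _)
    have hd' : Disjoint A B := hd.mono_right (subset_insert _ _)
    have hx' : ∀ q ∈ A ∪ B, 0 ≤ x q := fun q hq => hx q (by
      rw [union_insert]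
      exact mem_insert_of_mem hq)
    have hxy : 0 ≤ x y := hx y (by rw [union_insert]; exact mem_insert_self _ _)
    have hyAB : y ∉ A ∪ B := by
      rw [mem_union]
      exact fun h => h.elim hyA hy
    rw [union_insert, es_insert j (A ∪ B) y hyAB x, sum_insert hy, mul_add]
    have h1 := ih hd' hx'
    have h2 := mul_le_mul_of_nonneg_left (es_mono j A (A ∪ B) subset_union_left x hx') hxy
    linarith

end Pool.Agent.Helper18.Sd
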