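import Pool.Agent.Helper18.Sd.Defs
import Pool.Agent.Helper9.RS.Recip
import Pool.Agent.Helper13.Om.BT

/-!
SD-G. Mertens type bounds for `V`.

* `V_upper`: `Helper13.Om.mertens_prod` (with `N = x + 1`).
* `V_lower`: `Pool.Agent.Helper9.RS.VV_lower` (`VV y (2^2^s) ≥ 1/(1000 · 2^s)`, `y = 1`) with `2^2^(s-1) ≤ x < 2^2^s`.
* `V_pow`: for `u = 1/p`, `p > y ≥ 4/η`: `1 - (1+η) u ≥ exp(-(1+η)u - ((1+η)u)^2) ≥ exp(-(1+3η) u)` and `exp(-u) ≥ 1 - u`, so
  `1 - (1+η)u ≥ (1-u)^(1+3η)` (real power); take the product (`Real.finset_prod_rpow`).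
-/

set_option autoImplicit false

namespace Pool.Agent.Helper18.Sd

open Finset

private theorem mem_ps_me {y z p : ℕ} : p ∈ ps y z ↔ (y < p ∧ p ≤ z) ∧ p.Prime := by
  rw [ps, mem_filter, mem_Ioc]

private theorem two_le_me {y z p : ℕ} (h : p ∈ ps y z) : (2 : ℝ) ≤ p := by
  exact_mod_cast (mem_ps_me.1 h).2.two_le

private theorem fac_pos_me {y z p : ℕ} (h : p ∈ ps y z) : 0 < 1 - 1 / (p : ℝ) := by
  have h2 := two_le_me h
  have : 1 / (p : ℝ) ≤ 1 / 2 := one_div_le_one_div_of_le (by norm_num) h2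
  linarith

private theorem fac_le_me {y z p : ℕ} (h : p ∈ ps y z) : 1 - 1 / (p : ℝ) ≤ 1 := by
  have h2 := two_le_me h
  have : 0 ≤ 1 / (p : ℝ) := by positivity
  linarith

theorem V_pos (y z : ℕ) : 0 < V y z := by
  unfold V
  exact Finset.prod_pos fun p hp => fac_pos_me hp

theorem V_le_one (y z : ℕ) : V y z ≤ 1 := by
  unfold V
  exact Finset.prod_le_one (fun p hp => (fac_pos_me hp).le) fun p hp => fac_le_me hp

theorem V_mul (y z x : ℕ) (h1 : y ≤ z) (h2 : z ≤ x) : V y z * V z x = V y x := by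
  unfold V
  have e : ps y x = ps y z ∪ ps z x := by
    ext p
    rw [mem_union, mem_ps_me, mem_ps_me, mem_ps_me]
    constructor
    · rintro ⟨⟨h3, h4⟩, h5⟩
      rcases le_or_gt p z with h | h
      · exact Or.inl ⟨⟨h3, h⟩, h5⟩
      · exact Or.inr ⟨⟨h, h4⟩, h5⟩
    · rintro (⟨⟨h3, h4⟩, h5⟩ | ⟨⟨h3, h4⟩, h5⟩)
      · exact ⟨⟨h3, h4.trans h2⟩, h5⟩
      · exact ⟨⟨lt_of_le_of_lt h1 h3, h4⟩, h5⟩
  have hd : Disjoint (ps y z) (ps z x) := by
    rw [Finset.disjoint_left]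
    intro p hp hp'
    have h3 := (mem_ps_me.1 hp).1.2
    have h4 := (mem_ps_me.1 hp').1.1
    omega
  rw [e, Finset.prod_union hd]

private theorem V_anti_me (x y : ℕ) (h : x ≤ y) : V 0 y ≤ V 0 x := by
  rw [← V_mul 0 x y (Nat.zero_le _) h]
  exact mul_le_of_le_one_right (V_pos 0 x).le (V_le_one x y)

theorem V_upper (x : ℕ) (hx : 2 ≤ x) : V 0 x ≤ 1 / Real.log x := by
  have h := Helper13.Om.mertens_prod (x + 1) (by omega)
  have e : ps 0 x = (x + 1).primesBelow := by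
    ext p
    rw [mem_ps_me, Nat.mem_primesBelow]
    constructor
    · rintro ⟨⟨_, h3⟩, h4⟩
      exact ⟨by omega, h4⟩
    · rintro ⟨h3, h4⟩
      exact ⟨⟨h4.pos, by omega⟩, h4⟩
  unfold V
  rw [e]
  refine h.trans ?_
  have hx' : (2 : ℝ) ≤ x := by exact_mod_cast hx
  apply one_div_le_one_div_of_le (Real.log_pos (by linarith))
  apply Real.log_le_log (by linarith)
  push_cast
  linarith

theorem V_lower : ∃ c : ℝ, 0 < c ∧ ∀ x : ℕ, 2 ≤ x → c / Real.log x ≤ V 0 x := by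
  refine ⟨Real.log 2 / 2000, div_pos (Real.log_pos (by norm_num)) (by norm_num), ?_⟩
  intro x hx
  have hex : ∃ s : ℕ, x < 2 ^ 2 ^ s := by
    refine ⟨x, ?_⟩
    exact lt_of_lt_of_le (Nat.lt_two_pow_self) (Nat.pow_le_pow_right (by norm_num) Nat.lt_two_pow_self.le)
  classical
  obtain ⟨s, hs, hmin⟩ : ∃ s : ℕ, x < 2 ^ 2 ^ s ∧ ∀ t < s, ¬ x < 2 ^ 2 ^ t :=
    ⟨Nat.find hex, Nat.find_spec hex, fun t ht => Nat.find_min hex ht⟩
  have hs0 : s ≠ 0 := by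
    rintro rfl
    simp at hs
    omega
  obtain ⟨t, rfl⟩ := Nat.exists_eq_succ_of_ne_zero hs0
  have ht : 2 ^ 2 ^ t ≤ x := not_lt.1 (hmin t (Nat.lt_succ_self t))
  have h1 := V_anti_me x (2 ^ 2 ^ (t + 1)) hs.le
  have h2 := Pool.Agent.Helper9.RS.VV_lower 1 (t + 1) le_rfl
  have e : V 0 (2 ^ 2 ^ (t + 1)) = Pool.Agent.Helper9.RS.VV 1 (2 ^ 2 ^ (t + 1)) := by
    unfold V Pool.Agent.Helper9.RS.VV
    apply Finset.prod_congr _ fun _ _ => rfl
    ext p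
    rw [mem_ps_me, Pool.Agent.Helper9.RS.PP, mem_filter, mem_Ioc]
    constructor
    · rintro ⟨⟨_, h3⟩, h4⟩
      exact ⟨⟨h4.one_lt, h3⟩, h4⟩
    · rintro ⟨⟨_, h3⟩, h4⟩
      exact ⟨⟨h4.pos, h3⟩, h4⟩
  have hlog2 : 0 < Real.log 2 := Real.log_pos (by norm_num)
  have h3 : 2 ^ t * Real.log 2 ≤ Real.log x := by
    have h4 : Real.log ((2 : ℝ) ^ 2 ^ t) ≤ Real.log x := by
      apply Real.log_le_log (by positivity)
      exact_mod_cast ht
    rw [Real.log_pow] at h4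
    push_cast at h4
    exact h4
  have hp : (0 : ℝ) < 2 ^ t := by positivity
  have hlx : 0 < Real.log x := lt_of_lt_of_le (mul_pos hp hlog2) h3
  have h5 : Real.log 2 / 2000 / Real.log x ≤ 1 / (1000 * 2 ^ (t + 1) : ℝ) := by
    rw [div_div, div_le_div_iff₀ (by positivity) (by positivity), pow_succ]
    nlinarith
  rw [e] at h1
  linarith

private theorem one_sub_me (t : ℝ) (h0 : 0 ≤ t) (h1 : t ≤ 1 / 2) :
    Real.exp (-t - 2 * t ^ 2) ≤ 1 - t := by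
  have hp : 0 < 1 - t := by linarith
  have h2 : 1 + (t + 2 * t ^ 2) ≤ Real.exp (t + 2 * t ^ 2) := by
    have := Real.add_one_le_exp (t + 2 * t ^ 2)
    linarith
  have h3 : (1 - t)⁻¹ ≤ 1 + (t + 2 * t ^ 2) := by
    rw [inv_le_iff_one_le_mul₀ hp]
    nlinarith [mul_nonneg (sq_nonneg t) (by linarith : (0 : ℝ) ≤ 1 - 2 * t)]
  have h4 : Real.exp (-t - 2 * t ^ 2) = (Real.exp (t + 2 * t ^ 2))⁻¹ := by
    rw [← Real.exp_neg]
    congr 1
    ring
  rw [h4]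
  rw [inv_le_comm₀ (Real.exp_pos _) hp]
  linarith

theorem V_pow (η : ℝ) (h0 : 0 < η) (h1 : η ≤ 1) (y z : ℕ) (hy : 4 / η ≤ y) :
    (V y z) ^ (1 + 3 * η) ≤ ∏ p ∈ ps y z, (1 - (1 + η) / (p : ℝ)) := by
  unfold V
  rw [← Real.finset_prod_rpow _ _ (fun p hp => (fac_pos_me hp).le)]
  apply Finset.prod_le_prod
  · intro p hp
    exact Real.rpow_nonneg (fac_pos_me hp).le _
  · intro p hp
    have hyp : (y : ℝ) ≤ p := by
      exact_mod_cast (mem_ps_me.1 hp).1.1.le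
    have hp0 : (0 : ℝ) < p := by
      have := two_le_me hp
      linarith
    have h2 : 4 / η ≤ p := hy.trans hyp
    set u : ℝ := 1 / (p : ℝ) with hu
    have hu0 : 0 < u := by positivity
    have hu1 : u ≤ η / 4 := by
      rw [hu, div_le_div_iff₀ hp0 (by norm_num)]
      rw [div_le_iff₀ h0] at h2
      linarith
    have e1 : (1 + η) / (p : ℝ) = (1 + η) * u := by rw [hu]; ring
    rw [e1]
    have h3 := one_sub_me ((1 + η) * u) (by positivity) (by nlinarith)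
    refine le_trans ?_ h3
    have h4 : 1 - u ≤ Real.exp (-u) := by
      have := Real.add_one_le_exp (-u)
      linarith
    have h5 : (1 - u) ^ (1 + 3 * η) ≤ Real.exp (-u) ^ (1 + 3 * η) :=
      Real.rpow_le_rpow (fac_pos_me hp).le h4 (by linarith)
    refine h5.trans ?_
    rw [← Real.exp_mul]
    apply Real.exp_le_exp.2
    nlinarith [mul_pos h0 hu0, mul_nonneg hu0.le (by linarith : (0 : ℝ) ≤ η / 4 - u),
      mul_nonneg (mul_nonneg hu0.le (by linarith : (0 : ℝ) ≤ η / 4 - u)) (by nlinarith : (0 : ℝ) ≤ (1 + η) ^ 2),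
      mul_nonneg (mul_pos h0 hu0).le (by nlinarith : (0 : ℝ) ≤ 4 - (1 + η) ^ 2)]

end Pool.Agent.Helper18.Sd
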