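import Pool.Agent.Helper18.Sd.Basic
import Pool.Agent.Helper18.Sd.Mert

/-!
MA-4. Conditioning on the class `0` modulo the primes of the list `Q`.

`ex_cond`: induction on `Q`: `ex (q :: Q ++ l) F T ≥ (1/q) ex (Q ++ l) F (sv q 0 T)` (keep the term `r = 0`; all terms are `≥ 0`: `ex` of a nonnegative `F` is
nonnegative, e.g. `ex_mono` + `ex_const` or induction) and `(sv q 0 T).filter (∀ q' ∈ Q, ¬ q' ∣ i) = T.filter (∀ q' ∈ q :: Q, ¬ q' ∣ i)`.
`prod_inv_pl`: `∏_(y < q ≤ z) q ≤ primorial z ≤ 4^z` (`primorial_le_four_pow`), `pl y z = (ps y z).toList` (`Finset.prod_map_toList`).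
-/

set_option autoImplicit false

namespace Pool.Agent.Helper18.Sd

open Finset

private theorem ex_nonneg_co (l : List ℕ) (F : Finset ℕ → ℝ) (hF : ∀ T, 0 ≤ F T) (T : Finset ℕ) :
    0 ≤ ex l F T := by
  induction l generalizing T with
  | nil => exact hF T
  | cons p l ih =>
    simp only [ex]
    exact div_nonneg (Finset.sum_nonneg (fun r _ => ih _)) (Nat.cast_nonneg p)

theorem ex_cond (Q l : List ℕ) (hQ : ∀ q ∈ Q, 0 < q) (hl : ∀ p ∈ l, 0 < p) (F : Finset ℕ → ℝ) (hF : ∀ T, 0 ≤ F T)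
    (T : Finset ℕ) :
    (Q.map (fun q : ℕ => 1 / (q : ℝ))).prod * ex l F (T.filter (fun i => ∀ q ∈ Q, ¬ q ∣ i)) ≤ ex (Q ++ l) F T := by
  induction Q generalizing T with
  | nil => simp
  | cons q Q ih =>
    have hq : 0 < q := hQ q (by simp)
    have ih' := ih (fun q' hq' => hQ q' (by simp [hq'])) (sv q 0 T)
    have h1 : (sv q 0 T).filter (fun i => ∀ q' ∈ Q, ¬ q' ∣ i) = T.filter (fun i => ∀ q' ∈ q :: Q, ¬ q' ∣ i) := by
      unfold sv
      rw [Finset.filter_filter]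
      apply Finset.filter_congr
      intro i _
      simp
    rw [h1] at ih'
    have h2 : ex (Q ++ l) F (sv q 0 T) ≤ ∑ r ∈ range q, ex (Q ++ l) F (sv q r T) :=
      Finset.single_le_sum (f := fun r => ex (Q ++ l) F (sv q r T)) (fun r _ => ex_nonneg_co _ F hF _)
        (Finset.mem_range.2 hq)
    have h3 : (List.map (fun q : ℕ => 1 / (q : ℝ)) (q :: Q)).prod = 1 / (q : ℝ) * (Q.map (fun q : ℕ => 1 / (q : ℝ))).prod := by
      simp
    have h4 : (0 : ℝ) ≤ 1 / (q : ℝ) := by positivity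
    rw [h3, mul_assoc, List.cons_append]
    simp only [ex]
    calc 1 / (q : ℝ) * ((Q.map (fun q : ℕ => 1 / (q : ℝ))).prod *
          ex l F (T.filter (fun i => ∀ q' ∈ q :: Q, ¬ q' ∣ i)))
        ≤ 1 / (q : ℝ) * ∑ r ∈ range q, ex (Q ++ l) F (sv q r T) :=
          mul_le_mul_of_nonneg_left (ih'.trans h2) h4
      _ = (∑ r ∈ range q, ex (Q ++ l) F (sv q r T)) / q := by ring

theorem prod_inv_pl (y z : ℕ) :
    Real.exp (-(z * Real.log 4)) ≤ ((pl y z).map (fun q : ℕ => 1 / (q : ℝ))).prod := by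
  have h1 : ((pl y z).map (fun q : ℕ => 1 / (q : ℝ))).prod = ∏ q ∈ ps y z, (1 / (q : ℝ)) := by
    unfold pl
    exact Finset.prod_map_toList _ _
  have h2 : (∏ q ∈ ps y z, q) ≤ 4 ^ z := by
    refine le_trans ?_ (primorial_le_four_pow z)
    unfold primorial
    apply Finset.prod_le_prod_of_subset_of_one_le'
    · intro p hp
      simp only [ps, Finset.mem_filter, Finset.mem_Ioc, Finset.mem_range] at hp ⊢
      exact ⟨by omega, hp.2⟩
    · intro p hp _
      exact (Finset.mem_filter.1 hp).2.one_lt.le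
  have h3 : (0 : ℝ) < ∏ q ∈ ps y z, (q : ℝ) := by
    apply Finset.prod_pos
    intro p hp
    exact Nat.cast_pos.2 (Finset.mem_filter.1 hp).2.pos
  have h4 : (∏ q ∈ ps y z, (q : ℝ)) ≤ (4 : ℝ) ^ z := by
    have := (Nat.cast_le (α := ℝ)).2 h2
    push_cast at this
    exact this
  rw [h1]
  have h5 : ∏ q ∈ ps y z, (1 / (q : ℝ)) = (∏ q ∈ ps y z, (q : ℝ))⁻¹ := by
    rw [← Finset.prod_inv_distrib]
    exact Finset.prod_congr rfl (fun q _ => one_div _)
  have h6 : Real.exp (-(z * Real.log 4)) = ((4 : ℝ) ^ z)⁻¹ := by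
    rw [Real.exp_neg, mul_comm, Real.exp_mul, Real.exp_log (by norm_num), Real.rpow_natCast]
  rw [h5, h6]
  exact inv_anti₀ h3 h4

end Pool.Agent.Helper18.Sd
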