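import Pool.Agent.Helper18.Sd.Bonf

/-!
MA-3. Exact truncation of the inclusion-exclusion.

If `k < (y+1)^(J+1)`, no `1 ≤ i ≤ k` has more than `J` prime divisors in `(y, z]` (their product divides `i` and is `≥ (y+1)^t`). So for such `i`, with
`t = #{q ∈ ps y z : q ∣ i} ≤ J`: `∑_(j ≤ J) (-1)^j C(t, j) = [t = 0]`, i.e. `∑_(j ≤ J) (-1)^j #{S ⊆ ps y z : #S = j, ∏ S ∣ i} = [t = 0]`. Sum over `i`:
`#T₀ = ∑_(j ≤ J) (-1)^j ∑_(#S = j) ⌊k / ∏ S⌋ ≤ k ∑_(j ≤ J) (-1)^j e_j(1/q) + #{S : #S ≤ J}` and the number of the `S ⊆ ps y z` with `#S = j ≤ J` is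
`≤ (z+1)^j ≤ (z+1)^J`. (Distinct primes dividing `i`: `Finset.prod_primes_dvd`; `#{1 ≤ i ≤ k : d ∣ i} = k / d`: `Nat.card_multiples` / `Nat.Ioc_filter_dvd_card_eq_div`.)
-/

set_option autoImplicit false

namespace Pool.Agent.Helper18.Sd

open Finset

/-- the prime divisors of `i` in `(y, z]` -/
private def dv (y z i : ℕ) : Finset ℕ := (ps y z).filter (fun q => q ∣ i)

private lemma mem_ps' {y z q : ℕ} (h : q ∈ ps y z) : y < q ∧ q ≤ z ∧ q.Prime := by
  unfold ps at h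
  simp only [mem_filter, mem_Ioc] at h
  exact ⟨h.1.1, h.1.2, h.2⟩

private lemma prod_dvd_iff' (y z i : ℕ) (S : Finset ℕ) (hS : S ⊆ ps y z) :
    (∏ q ∈ S, q) ∣ i ↔ S ⊆ dv y z i := by
  constructor
  · intro h q hq
    unfold dv
    rw [mem_filter]
    exact ⟨hS hq, (dvd_prod_of_mem (fun q : ℕ => q) hq).trans h⟩
  · intro h
    refine Finset.prod_primes_dvd i (fun q hq => (mem_ps' (hS hq)).2.2.prime) (fun q hq => ?_)
    have := h hq
    unfold dv at this
    rw [mem_filter] at this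
    exact this.2

private lemma card_dv_le {k y z J i : ℕ} (h : k < (y + 1) ^ (J + 1)) (hi : i ∈ Icc 1 k) :
    (dv y z i).card ≤ J := by
  rw [mem_Icc] at hi
  by_contra hc
  push Not at hc
  have h1 : (∏ q ∈ dv y z i, q) ∣ i := by
    rw [prod_dvd_iff' y z i (dv y z i) (filter_subset _ _)]
  have h2 : (∏ q ∈ dv y z i, q) ≤ i := Nat.le_of_dvd (by omega) h1
  have h3 : (y + 1) ^ (dv y z i).card ≤ ∏ q ∈ dv y z i, q := by
    rw [← prod_const]
    refine prod_le_prod' (fun q hq => ?_)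
    have := (mem_ps' ((filter_subset _ _ : dv y z i ⊆ ps y z) hq)).1
    omega
  have h4 : (y + 1) ^ (J + 1) ≤ (y + 1) ^ (dv y z i).card :=
    Nat.pow_le_pow_right (by omega) (by omega)
  omega

private lemma ind_eq {J t : ℕ} (ht : t ≤ J) :
    ∑ j ∈ range (J + 1), (-1 : ℝ) ^ j * (t.choose j : ℝ) = if t = 0 then 1 else 0 := by
  have h1 : ∑ j ∈ range (J + 1), (-1 : ℝ) ^ j * (t.choose j : ℝ)
      = ∑ j ∈ range (t + 1), (-1 : ℝ) ^ j * (t.choose j : ℝ) := by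
    symm
    refine sum_subset (fun j hj => ?_) (fun j _ hj => ?_)
    · rw [mem_range] at hj ⊢
      omega
    · rw [mem_range, not_lt] at hj
      rw [Nat.choose_eq_zero_of_lt (by omega)]
      simp
  rw [h1]
  have h2 := @Int.alternating_sum_range_choose t
  have h3 : ((∑ j ∈ range (t + 1), ((-1 : ℤ) ^ j * (t.choose j : ℤ)) : ℤ) : ℝ)
      = (((if t = 0 then 1 else 0 : ℤ)) : ℝ) := by
    rw [h2]
  push_cast at h3
  exact h3

private lemma card_pc (y z i j : ℕ) :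
    (((dv y z i).card.choose j : ℕ) : ℝ)
      = ∑ S ∈ (ps y z).powersetCard j, (if (∏ q ∈ S, q) ∣ i then (1 : ℝ) else 0) := by
  rw [← card_powersetCard, ← sum_filter, sum_const, nsmul_eq_mul, mul_one]
  congr 2
  ext S
  rw [mem_filter, mem_powersetCard, mem_powersetCard]
  constructor
  · rintro ⟨h1, h2⟩
    have h3 : S ⊆ ps y z := h1.trans (filter_subset _ _)
    exact ⟨⟨h3, h2⟩, (prod_dvd_iff' y z i S h3).2 h1⟩
  · rintro ⟨⟨h1, h2⟩, h3⟩
    exact ⟨(prod_dvd_iff' y z i S h1).1 h3, h2⟩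

private lemma count_mul (k d : ℕ) :
    ∑ i ∈ Icc 1 k, (if d ∣ i then (1 : ℝ) else 0) = ((k / d : ℕ) : ℝ) := by
  rw [← sum_filter, sum_const, nsmul_eq_mul, mul_one]
  congr 1
  have h := Nat.Ioc_filter_dvd_card_eq_div k d
  rw [← h]
  congr 1

theorem count_rough (k y z J : ℕ) (h : k < (y + 1) ^ (J + 1)) :
    (((Icc 1 k).filter (fun i => ∀ q ∈ ps y z, ¬ q ∣ i)).card : ℝ) ≤
      k * (∑ j ∈ range (J + 1), (-1 : ℝ) ^ j * es j (ps y z) (fun q : ℕ => 1 / (q : ℝ))) +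
        (J + 1) * ((z : ℝ) + 1) ^ J := by
  classical
  have h0 : (((Icc 1 k).filter (fun i => ∀ q ∈ ps y z, ¬ q ∣ i)).card : ℝ)
      = ∑ i ∈ Icc 1 k, ∑ j ∈ range (J + 1), (-1 : ℝ) ^ j * ((dv y z i).card.choose j : ℝ) := by
    rw [card_filter]
    push_cast
    refine sum_congr rfl (fun i hi => ?_)
    rw [ind_eq (card_dv_le h hi)]
    have : (∀ q ∈ ps y z, ¬ q ∣ i) ↔ (dv y z i).card = 0 := by
      rw [card_eq_zero]
      unfold dv
      rw [filter_eq_empty_iff]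
    simp only [this]
  have h1 : ∑ i ∈ Icc 1 k, ∑ j ∈ range (J + 1), (-1 : ℝ) ^ j * ((dv y z i).card.choose j : ℝ)
      = ∑ j ∈ range (J + 1), ∑ S ∈ (ps y z).powersetCard j,
          (-1 : ℝ) ^ j * ((k / (∏ q ∈ S, q) : ℕ) : ℝ) := by
    rw [sum_comm]
    refine sum_congr rfl (fun j _ => ?_)
    rw [← mul_sum, ← mul_sum]
    congr 1
    calc ∑ i ∈ Icc 1 k, ((dv y z i).card.choose j : ℝ)
        = ∑ i ∈ Icc 1 k, ∑ S ∈ (ps y z).powersetCard j,
            (if (∏ q ∈ S, q) ∣ i then (1 : ℝ) else 0) :=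
          sum_congr rfl (fun i _ => card_pc y z i j)
      _ = ∑ S ∈ (ps y z).powersetCard j, ∑ i ∈ Icc 1 k,
            (if (∏ q ∈ S, q) ∣ i then (1 : ℝ) else 0) := sum_comm
      _ = _ := sum_congr rfl (fun S _ => count_mul k _)
  have h2 : ∀ j ∈ range (J + 1), ∑ S ∈ (ps y z).powersetCard j,
          (-1 : ℝ) ^ j * ((k / (∏ q ∈ S, q) : ℕ) : ℝ)
      ≤ k * ((-1 : ℝ) ^ j * es j (ps y z) (fun q : ℕ => 1 / (q : ℝ))) + ((z : ℝ) + 1) ^ J := by
    intro j hj
    rw [mem_range] at hj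
    have e1 : ∀ S ∈ (ps y z).powersetCard j,
        (-1 : ℝ) ^ j * ((k / (∏ q ∈ S, q) : ℕ) : ℝ)
          ≤ k * ((-1 : ℝ) ^ j * ∏ q ∈ S, (1 / (q : ℝ))) + 1 := by
      intro S hS
      have hd : (∏ q ∈ S, (1 / (q : ℝ))) = 1 / (((∏ q ∈ S, q) : ℕ) : ℝ) := by
        rw [prod_div_distrib, prod_const_one]
        push_cast
        rfl
      rw [hd]
      have hpos : 0 < ∏ q ∈ S, q := by
        refine prod_pos (fun q hq => ?_)
        exact (mem_ps' ((mem_powersetCard.1 hS).1 hq)).2.2.pos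
      set d : ℕ := ∏ q ∈ S, q
      have hdr : (0 : ℝ) < (d : ℝ) := by exact_mod_cast hpos
      have f1 : (((k / d : ℕ)) : ℝ) ≤ (k : ℝ) / d := Nat.cast_div_le
      have f2 : (k : ℝ) / d ≤ ((k / d : ℕ) : ℝ) + 1 := by
        rw [div_le_iff₀ hdr]
        have := Nat.lt_mul_div_succ k hpos
        have h5 : k ≤ (k / d + 1) * d := by
          rw [mul_comm]
          exact this.le
        exact_mod_cast h5
      have f3 : (k : ℝ) * ((-1 : ℝ) ^ j * (1 / (d : ℝ))) = (-1 : ℝ) ^ j * ((k : ℝ) / d) := by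
        ring
      rw [f3]
      rcases neg_one_pow_eq_or ℝ j with hs | hs
      · rw [hs]
        linarith
      · rw [hs]
        linarith
    have e2 : (((ps y z).powersetCard j).card : ℝ) ≤ ((z : ℝ) + 1) ^ J := by
      rw [card_powersetCard]
      have g1 : (ps y z).card ≤ z := by
        unfold ps
        refine (card_filter_le _ _).trans ?_
        rw [Nat.card_Ioc]
        omega
      have g2 : (ps y z).card.choose j ≤ (z + 1) ^ J := by
        calc (ps y z).card.choose j ≤ (ps y z).card ^ j := Nat.choose_le_pow _ _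
          _ ≤ (z + 1) ^ j := Nat.pow_le_pow_left (by omega) j
          _ ≤ (z + 1) ^ J := Nat.pow_le_pow_right (by omega) (by omega)
      exact_mod_cast g2
    calc ∑ S ∈ (ps y z).powersetCard j, (-1 : ℝ) ^ j * ((k / (∏ q ∈ S, q) : ℕ) : ℝ)
        ≤ ∑ S ∈ (ps y z).powersetCard j, (k * ((-1 : ℝ) ^ j * ∏ q ∈ S, (1 / (q : ℝ))) + 1) :=
          sum_le_sum e1
      _ = k * ((-1 : ℝ) ^ j * es j (ps y z) (fun q : ℕ => 1 / (q : ℝ)))
            + (((ps y z).powersetCard j).card : ℝ) := by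
          rw [sum_add_distrib, ← mul_sum, ← mul_sum, sum_const, nsmul_eq_mul, mul_one]
          rfl
      _ ≤ _ := by linarith
  rw [h0, h1]
  calc _ ≤ ∑ j ∈ range (J + 1),
        (k * ((-1 : ℝ) ^ j * es j (ps y z) (fun q : ℕ => 1 / (q : ℝ))) + ((z : ℝ) + 1) ^ J) :=
        sum_le_sum h2
    _ = _ := by
        rw [sum_add_distrib, ← mul_sum, sum_const, card_range, nsmul_eq_mul]
        push_cast
        ring

end Pool.Agent.Helper18.Sd
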