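import Pool.Agent.Helper18.Sd.Basic
import Pool.Agent.Helper6.Sieve.Count

/-!
SD-B. The Chinese remainder theorem: `ex l emp T` is the density of the `n` such that each `n + i`, `i ∈ T`, has a prime
factor in the list.

* `count_ex`: induction on the list. For `p :: l`, `Q = l.prod` is prime to `p`; split `n < p Q` by `r = n % p`; for fixed `r` the map `n ↦ n % Q` is a
  bijection from `{n < p Q : n % p = r}` onto `range Q` and the condition at `n` (for `p :: l`, `T`) is the condition at `n % Q` for `l`, `sv p r T`.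
  (`Pool.Agent.Helper6.Sieve.card_crt` counts a product of two conditions, one modulo `p`, one modulo `Q`.)
* `ex_perm`: both sides are `#{…} / prod` by `count_ex`.
* `dens_ex`: `Pool.Agent.Helper6.Sieve.count_periodic`: `|#{n < N : …} - N · ex| ≤ l.prod`.
-/

set_option autoImplicit false

namespace Pool.Agent.Helper18.Sd

open Finset Filter Topology

private lemma dvd_mod_add {q Q n i : ℕ} (h : q ∣ Q) : q ∣ n + i ↔ q ∣ n % Q + i := by
  have h1 : n % Q + i ≡ n + i [MOD q] := by
    have h2 : n % Q ≡ n [MOD Q] := Nat.mod_modEq n Q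
    exact (h2.of_dvd h).add_right i
  constructor
  · intro h3
    exact (h1.dvd_iff dvd_rfl).2 h3
  · intro h3
    exact (h1.dvd_iff dvd_rfl).1 h3

private lemma per (l : List ℕ) (Q : ℕ) (hQ : ∀ q ∈ l, q ∣ Q) (T : Finset ℕ) (n : ℕ) :
    (∀ i ∈ T, ∃ q ∈ l, q ∣ n + i) ↔ (∀ i ∈ T, ∃ q ∈ l, q ∣ n % Q + i) := by
  constructor
  · intro h i hi
    obtain ⟨q, hq, hd⟩ := h i hi
    exact ⟨q, hq, (dvd_mod_add (hQ q hq)).1 hd⟩
  · intro h i hi
    obtain ⟨q, hq, hd⟩ := h i hi
    exact ⟨q, hq, (dvd_mod_add (hQ q hq)).2 hd⟩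

private lemma prod_pos_of {l : List ℕ} (hl : ∀ p ∈ l, p.Prime) : 0 < l.prod :=
  List.prod_pos fun p hp => (hl p hp).pos

private lemma coprime_prod {p : ℕ} (hp : p.Prime) (l : List ℕ) (hl : ∀ q ∈ l, q.Prime)
    (hn : p ∉ l) : p.Coprime l.prod := by
  induction l with
  | nil => simp
  | cons q l ih =>
    rw [List.prod_cons]
    rw [List.mem_cons, not_or] at hn
    exact Nat.Coprime.mul_right
      ((Nat.coprime_primes hp (hl q List.mem_cons_self)).2 hn.1)
      (ih (fun x hx => hl x (List.mem_cons_of_mem _ hx)) hn.2)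

theorem count_ex (l : List ℕ) (hl : ∀ p ∈ l, p.Prime) (hnd : l.Nodup) (T : Finset ℕ) :
    (((range l.prod).filter (fun n => ∀ i ∈ T, ∃ p ∈ l, p ∣ n + i)).card : ℝ) = l.prod * ex l emp T := by
  induction l generalizing T with
  | nil =>
    unfold ex emp
    rcases T.eq_empty_or_nonempty with h | h
    · subst h
      simp
    · rw [if_neg h.ne_empty, mul_zero]
      obtain ⟨i, hi⟩ := h
      rw [Nat.cast_eq_zero, card_eq_zero, filter_eq_empty_iff]
      intro n _ h2
      obtain ⟨q, hq, _⟩ := h2 i hi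
      simp at hq
  | cons p l ih =>
    have hp : p.Prime := hl p List.mem_cons_self
    have hl' : ∀ q ∈ l, q.Prime := fun q hq => hl q (List.mem_cons_of_mem _ hq)
    rw [List.nodup_cons] at hnd
    have hcop : p.Coprime l.prod := coprime_prod hp l hl' hnd.1
    have hQ : 0 < l.prod := prod_pos_of hl'
    rw [List.prod_cons]
    have hfib : ((range (p * l.prod)).filter
        (fun n => ∀ i ∈ T, ∃ q ∈ p :: l, q ∣ n + i)).card =
        ∑ r ∈ range p, (((range (p * l.prod)).filter
          (fun n => ∀ i ∈ T, ∃ q ∈ p :: l, q ∣ n + i)).filter (fun n => n % p = r)).card := by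
      apply card_eq_sum_card_fiberwise
      intro n _
      rw [mem_coe, mem_range]
      exact Nat.mod_lt _ hp.pos
    have hterm : ∀ r ∈ range p, (((range (p * l.prod)).filter
          (fun n => ∀ i ∈ T, ∃ q ∈ p :: l, q ∣ n + i)).filter (fun n => n % p = r)).card =
        ((range l.prod).filter (fun n => ∀ i ∈ sv p r T, ∃ q ∈ l, q ∣ n + i)).card := by
      intro r hr
      rw [mem_range] at hr
      have e1 : ((range (p * l.prod)).filter
          (fun n => ∀ i ∈ T, ∃ q ∈ p :: l, q ∣ n + i)).filter (fun n => n % p = r) =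
          (range (p * l.prod)).filter
            (fun n => n % p = r ∧ ∀ i ∈ sv p r T, ∃ q ∈ l, q ∣ n + i) := by
        ext n
        rw [mem_filter, mem_filter, mem_filter]
        constructor
        · rintro ⟨⟨h1, h2⟩, h3⟩
          refine ⟨h1, h3, ?_⟩
          intro i hi
          unfold sv at hi
          rw [mem_filter] at hi
          obtain ⟨q, hq, hd⟩ := h2 i hi.1
          rcases List.mem_cons.1 hq with h4 | h4
          · exfalso
            apply hi.2
            subst h4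
            rw [← h3]
            exact (dvd_mod_add dvd_rfl).1 hd
          · exact ⟨q, h4, hd⟩
        · rintro ⟨h1, h3, h2⟩
          refine ⟨⟨h1, ?_⟩, h3⟩
          intro i hi
          by_cases h4 : p ∣ r + i
          · refine ⟨p, List.mem_cons_self, ?_⟩
            rw [← h3] at h4
            exact (dvd_mod_add dvd_rfl).2 h4
          · obtain ⟨q, hq, hd⟩ := h2 i (by unfold sv; rw [mem_filter]; exact ⟨hi, h4⟩)
            exact ⟨q, List.mem_cons_of_mem _ hq, hd⟩
      rw [e1, Pool.Agent.Helper6.Sieve.card_crt hp.pos hQ hcop (fun n => n % p = r)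
        (fun n => ∀ i ∈ sv p r T, ∃ q ∈ l, q ∣ n + i)
        (fun n => by rw [Nat.mod_mod])
        (fun n => per l l.prod (fun q hq => List.dvd_prod hq) _ n)]
      have e2 : (range p).filter (fun n => n % p = r) = {r} := by
        ext n
        rw [mem_filter, mem_range, mem_singleton]
        constructor
        · rintro ⟨h1, h2⟩
          rwa [Nat.mod_eq_of_lt h1] at h2
        · rintro rfl
          exact ⟨hr, Nat.mod_eq_of_lt hr⟩
      rw [e2, card_singleton, one_mul]
    rw [hfib, sum_congr rfl hterm, Nat.cast_sum, Nat.cast_mul]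
    have hp0 : (p : ℝ) ≠ 0 := Nat.cast_ne_zero.2 hp.ne_zero
    have e3 : ex (p :: l) emp T = (∑ r ∈ range p, ex l emp (sv p r T)) / p := rfl
    rw [e3]
    have e4 : (p : ℝ) * (l.prod : ℝ) * ((∑ r ∈ range p, ex l emp (sv p r T)) / p) =
        ∑ r ∈ range p, (l.prod : ℝ) * ex l emp (sv p r T) := by
      rw [← mul_sum]
      field_simp
    rw [e4]
    exact sum_congr rfl fun r _ => ih hl' hnd.2 _

theorem ex_perm (l₁ l₂ : List ℕ) (h : l₁.Perm l₂) (hl : ∀ p ∈ l₁, p.Prime) (hnd : l₁.Nodup)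
    (T : Finset ℕ) : ex l₁ emp T = ex l₂ emp T := by
  have hl2 : ∀ p ∈ l₂, p.Prime := fun p hp => hl p (h.mem_iff.2 hp)
  have h1 := count_ex l₁ hl hnd T
  have h2 := count_ex l₂ hl2 (h.nodup_iff.1 hnd) T
  have e1 : l₁.prod = l₂.prod := h.prod_eq
  have e2 : (range l₁.prod).filter (fun n => ∀ i ∈ T, ∃ p ∈ l₁, p ∣ n + i) =
      (range l₂.prod).filter (fun n => ∀ i ∈ T, ∃ p ∈ l₂, p ∣ n + i) := by
    rw [e1]
    apply filter_congr
    intro n _
    constructor
    · intro h3 i hi
      obtain ⟨q, hq, hd⟩ := h3 i hi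
      exact ⟨q, h.mem_iff.1 hq, hd⟩
    · intro h3 i hi
      obtain ⟨q, hq, hd⟩ := h3 i hi
      exact ⟨q, h.mem_iff.2 hq, hd⟩
  rw [e2, h2, e1] at h1
  have h3 : (l₂.prod : ℝ) ≠ 0 := Nat.cast_ne_zero.2 (prod_pos_of hl2).ne'
  exact (mul_left_cancel₀ h3 h1).symm

theorem dens_ex (l : List ℕ) (hl : ∀ p ∈ l, p.Prime) (hnd : l.Nodup) (T : Finset ℕ) :
    Tendsto (fun N : ℕ => (((range N).filter (fun n => ∀ i ∈ T, ∃ p ∈ l, p ∣ n + i)).card : ℝ) / N)
      atTop (𝓝 (ex l emp T)) := by
  have hQ : 0 < l.prod := prod_pos_of hl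
  have hQ' : (l.prod : ℝ) ≠ 0 := Nat.cast_ne_zero.2 hQ.ne'
  have hb : ∀ N : ℕ, |(((range N).filter (fun n => ∀ i ∈ T, ∃ p ∈ l, p ∣ n + i)).card : ℝ) -
      N * ex l emp T| ≤ l.prod := by
    intro N
    have h1 := Pool.Agent.Helper6.Sieve.count_periodic
      (p := fun n => ∀ i ∈ T, ∃ p ∈ l, p ∣ n + i) hQ
      (fun n => per l l.prod (fun q hq => List.dvd_prod hq) T n) N
    rw [count_ex l hl hnd T, mul_div_cancel_left₀ _ hQ'] at h1
    exact h1
  rw [tendsto_iff_norm_sub_tendsto_zero]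
  have h0 : Tendsto (fun N : ℕ => (l.prod : ℝ) / (N : ℝ)) atTop (𝓝 0) :=
    tendsto_const_div_atTop_nhds_zero_nat _
  refine squeeze_zero' (Eventually.of_forall fun N => norm_nonneg _) ?_ h0
  filter_upwards [eventually_gt_atTop 0] with N hN
  have hN' : (0 : ℝ) < N := Nat.cast_pos.2 hN
  rw [Real.norm_eq_abs, div_sub' hN'.ne', abs_div, abs_of_pos hN']
  exact div_le_div_of_nonneg_right (hb N) hN'.le

end Pool.Agent.Helper18.Sd
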