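import Pool.Agent.Helper18.Sd.Basic

/-!
SD-C. Large primes: at most one element is killed by each prime.

* `fs_zero`, `fs_empty`: `∑ (-1)^j (t choose j) = 0` for `t ≥ 1` (`Int.alternating_sum_range_choose` or `sub_pow`/`add_pow`).
* `fs_insert`: `(t choose j)(1 - j/m) = (1 - t/m)(t choose j) + (1/m)(t - j)(t choose j)` and `(t - j)(t choose j) = t (t-1 choose j)`
  (`Nat.choose_mul_succ_eq`-type); stated for `t + 1` and `t`.
* `ex_emp`: induction on the list: for `p > k` and `T ⊆ Icc 1 k`, for `r < p` at most one `i ∈ T` has `p ∣ r + i`, and each `i ∈ T` occurs for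
  exactly one `r`; so `∑_(r < p) fs (#(sv p r T)) = (p - t) fs t + t fs (t - 1)`.
* `fs_upper`: induction on `S` with `fs_insert`: with `q = ∏_(S)`, `(1 - t/p)(1-q)^t + (t/p)(1-q)^(t-1) = (1-q)^(t-1)(1 - q + t q/p) ≤ (1 - q + q/p)^t`
  (Bernoulli, `one_add_mul_le_pow`, for `1 - q > 0`; `S = ∅` has `1 - q = 0` and is treated apart: `(1-q+tq/p)(1-q)^(t-1)` with
  `0 ^ 0 = 1`: the inequality reads `t/p ≤ (1/p)^t` for `t = 1`, and `0 ≤` for `t ≥ 2`; more generally for `q = 1`).
* `ex_emp_upper`: `1 - q ≤ exp(-q)`.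
-/

set_option autoImplicit false

namespace Pool.Agent.Helper18.Sd

open Finset

theorem fs_zero (S : Finset ℕ) (m : ℕ → ℝ) : fs 0 S m = 1 := by
  simp [fs]

theorem fs_empty (t : ℕ) (m : ℕ → ℝ) : fs (t + 1) ∅ m = 0 := by
  unfold fs
  have h := Int.alternating_sum_range_choose_of_ne (n := t + 1) (by omega)
  have h2 : ((∑ m ∈ range (t + 1 + 1), ((-1) ^ m * ((t + 1).choose m : ℤ)) : ℤ) : ℝ) = 0 := by
    rw [h]
    simp
  push_cast at h2
  simpa using h2

theorem fs_insert (t : ℕ) (S : Finset ℕ) (m : ℕ → ℝ) (p : ℕ) (hp : p ∉ S) :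
    fs (t + 1) (insert p S) m =
      (1 - ((t + 1 : ℕ) : ℝ) / m p) * fs (t + 1) S m + (((t + 1 : ℕ) : ℝ) / m p) * fs t S m := by
  unfold fs
  have h0 : ∑ j ∈ range (t + 1), (-1 : ℝ) ^ j * (t.choose j : ℝ) * ∏ q ∈ S, (1 - (j : ℝ) / m q) =
      ∑ j ∈ range (t + 1 + 1), (-1 : ℝ) ^ j * (t.choose j : ℝ) * ∏ q ∈ S, (1 - (j : ℝ) / m q) := by
    rw [Finset.sum_range_succ _ (t + 1), Nat.choose_succ_self]
    simp
  rw [h0, Finset.mul_sum, Finset.mul_sum, ← Finset.sum_add_distrib]
  refine Finset.sum_congr rfl fun j hj => ?_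
  rw [Finset.prod_insert hp]
  have hj' : j ≤ t + 1 := by
    have := Finset.mem_range.1 hj
    omega
  have h1 : ((t + 1 : ℕ) : ℝ) * (t.choose j : ℝ) =
      (((t + 1 : ℕ) : ℝ) - (j : ℝ)) * ((t + 1).choose j : ℝ) := by
    have h2 := Nat.choose_mul_succ_eq t j
    have h3 : ((t.choose j * (t + 1) : ℕ) : ℝ) = (((t + 1).choose j * (t + 1 - j) : ℕ) : ℝ) := by
      rw [h2]
    rw [Nat.cast_mul, Nat.cast_mul, Nat.cast_sub hj'] at h3
    rw [mul_comm, h3, mul_comm]
  have h4 : ((t + 1 : ℕ) : ℝ) / m p * (t.choose j : ℝ) =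
      (((t + 1 : ℕ) : ℝ) - (j : ℝ)) / m p * ((t + 1).choose j : ℝ) := by
    rw [div_mul_eq_mul_div, h1, div_mul_eq_mul_div]
  calc (-1 : ℝ) ^ j * ((t + 1).choose j : ℝ) *
        ((1 - (j : ℝ) / m p) * ∏ q ∈ S, (1 - (j : ℝ) / m q))
      = (-1 : ℝ) ^ j * (∏ q ∈ S, (1 - (j : ℝ) / m q)) *
        ((1 - ((t + 1 : ℕ) : ℝ) / m p) * ((t + 1).choose j : ℝ) +
          (((t + 1 : ℕ) : ℝ) - (j : ℝ)) / m p * ((t + 1).choose j : ℝ)) := by ring
    _ = _ := by
      rw [← h4]
      ring

/-- the sum over the residues -/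
private theorem sum_sv (k p : ℕ) (hp : k < p) (T : Finset ℕ) (hT : T ⊆ Icc 1 k) (g : ℕ → ℝ) :
    ∑ r ∈ range p, g (sv p r T).card =
      ((p : ℝ) - T.card) * g T.card + (T.card : ℝ) * g (T.card - 1) := by
  classical
  have hT' : ∀ i ∈ T, 1 ≤ i ∧ i < p := fun i hi => by
    have := Finset.mem_Icc.1 (hT hi)
    omega
  have hinj : Set.InjOn (fun i => p - i) (T : Set ℕ) := by
    intro i hi j hj hij
    have h1 := hT' i hi
    have h2 := hT' j hj
    simp only at hij
    omega
  have hR : T.image (fun i => p - i) ⊆ range p := by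
    intro r hr
    obtain ⟨i, hi, rfl⟩ := Finset.mem_image.1 hr
    have h1 := hT' i hi
    rw [Finset.mem_range]
    omega
  have hcR : (T.image (fun i => p - i)).card = T.card := Finset.card_image_of_injOn hinj
  have hdvd : ∀ r < p, ∀ i ∈ T, (p ∣ r + i ↔ r = p - i) := by
    intro r hr i hi
    have h1 := hT' i hi
    constructor
    · rintro ⟨c, hc⟩
      have hc1 : c = 1 := by
        have h3 : 0 < c := by
          rcases Nat.eq_zero_or_pos c with h | h
          · rw [h] at hc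
            omega
          · exact h
        have h4 : c < 2 := by
          by_contra hcon
          have h5 : p * 2 ≤ p * c := Nat.mul_le_mul_left _ (by omega)
          omega
        omega
      rw [hc1] at hc
      omega
    · intro h
      exact ⟨1, by omega⟩
  rw [← Finset.sum_sdiff hR]
  have h1 : ∑ r ∈ range p \ T.image (fun i => p - i), g (sv p r T).card =
      ((p : ℝ) - T.card) * g T.card := by
    rw [Finset.sum_congr rfl (g := fun _ => g T.card), Finset.sum_const, Finset.card_sdiff_of_subset hR,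
      Finset.card_range, hcR, nsmul_eq_mul, Nat.cast_sub]
    · have := Finset.card_le_card hR
      rwa [Finset.card_range, hcR] at this
    · intro r hr
      rw [Finset.mem_sdiff, Finset.mem_range] at hr
      have : sv p r T = T := by
        unfold sv
        refine Finset.filter_true_of_mem fun i hi h => hr.2 ?_
        rw [Finset.mem_image]
        exact ⟨i, hi, ((hdvd r hr.1 i hi).1 h).symm⟩
      rw [this]
  have h2 : ∑ r ∈ T.image (fun i => p - i), g (sv p r T).card = (T.card : ℝ) * g (T.card - 1) := by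
    rw [Finset.sum_congr rfl (g := fun _ => g (T.card - 1)), Finset.sum_const, hcR, nsmul_eq_mul]
    intro r hr
    obtain ⟨i, hi, rfl⟩ := Finset.mem_image.1 hr
    have h3 := hT' i hi
    have : sv p (p - i) T = T.erase i := by
      unfold sv
      ext j
      rw [Finset.mem_filter, Finset.mem_erase]
      constructor
      · rintro ⟨hj, h⟩
        refine ⟨fun h4 => h ?_, hj⟩
        rw [h4]
        exact (hdvd (p - i) (by omega) i hi).2 rfl
      · rintro ⟨hne, hj⟩
        refine ⟨hj, fun h => hne ?_⟩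
        have h4 := (hdvd (p - i) (by omega) j hj).1 h
        have h5 := hT' j hj
        omega
    rw [this, Finset.card_erase_of_mem hi]
  rw [h1, h2]

private theorem prod_unit (S : Finset ℕ) (hS : ∀ p ∈ S, 0 < p) :
    0 ≤ ∏ p ∈ S, (1 - 1 / (p : ℝ)) ∧ ∏ p ∈ S, (1 - 1 / (p : ℝ)) ≤ 1 := by
  have h : ∀ p ∈ S, 0 ≤ 1 - 1 / (p : ℝ) ∧ 1 - 1 / (p : ℝ) ≤ 1 := by
    intro p hp
    have h1 : (1 : ℝ) ≤ p := by exact_mod_cast hS p hp
    have h2 : 1 / (p : ℝ) ≤ 1 := by
      rw [div_le_one (by linarith)]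
      exact h1
    have h3 : 0 ≤ 1 / (p : ℝ) := by positivity
    exact ⟨by linarith, by linarith⟩
  exact ⟨Finset.prod_nonneg fun p hp => (h p hp).1,
    Finset.prod_le_one (fun p hp => (h p hp).1) fun p hp => (h p hp).2⟩

private theorem pow_bern {a b : ℝ} (ha : 0 ≤ a) (hb : 0 ≤ b) (t : ℕ) :
    a ^ t * (a + ((t + 1 : ℕ) : ℝ) * b) ≤ (a + b) ^ (t + 1) := by
  induction t with
  | zero => simp
  | succ t ih =>
    have h1 : (a + b) * (a ^ t * (a + ((t + 1 : ℕ) : ℝ) * b)) ≤ (a + b) ^ (t + 1 + 1) := by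
      rw [pow_succ (a + b) (t + 1), mul_comm ((a + b) ^ (t + 1))]
      exact mul_le_mul_of_nonneg_left ih (by positivity)
    refine le_trans ?_ h1
    have h2 : (a + b) * (a ^ t * (a + ((t + 1 : ℕ) : ℝ) * b)) =
        a ^ (t + 1) * (a + ((t + 1 + 1 : ℕ) : ℝ) * b) + a ^ t * (((t + 1 : ℕ) : ℝ) * b ^ 2) := by
      push_cast
      ring
    rw [h2]
    have : 0 ≤ a ^ t * (((t + 1 : ℕ) : ℝ) * b ^ 2) := by positivity
    linarith

theorem ex_emp (k : ℕ) (l : List ℕ) (hl : ∀ p ∈ l, k < p) (hnd : l.Nodup) (T : Finset ℕ)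
    (hT : T ⊆ Icc 1 k) : ex l emp T = fs T.card l.toFinset (fun p => (p : ℝ)) := by
  induction l generalizing T with
  | nil =>
    show emp T = _
    unfold emp
    rw [List.toFinset_nil]
    split_ifs with h
    · rw [h, Finset.card_empty, fs_zero]
    · obtain ⟨t, ht⟩ := Nat.exists_eq_succ_of_ne_zero (Finset.card_pos.2
        (Finset.nonempty_iff_ne_empty.2 h)).ne'
      rw [ht, fs_empty]
  | cons p l ih =>
    have hp : k < p := hl p (by simp)
    rw [List.nodup_cons] at hnd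
    have h1 : ∀ r, ex l emp (sv p r T) = fs (sv p r T).card l.toFinset (fun p => (p : ℝ)) := fun r =>
      ih (fun q hq => hl q (List.mem_cons_of_mem _ hq)) hnd.2 _ ((sv_subset p r T).trans hT)
    show (∑ r ∈ range p, ex l emp (sv p r T)) / (p : ℝ) = _
    rw [Finset.sum_congr rfl fun r _ => h1 r,
      sum_sv k p hp T hT (fun t => fs t l.toFinset (fun p => (p : ℝ))), List.toFinset_cons]
    have hp0 : (p : ℝ) ≠ 0 := by
      have : p ≠ 0 := by omega
      exact_mod_cast this
    have hpl : p ∉ l.toFinset := by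
      rw [List.mem_toFinset]
      exact hnd.1
    rcases Nat.eq_zero_or_pos T.card with h | h
    · rw [h]
      simp only [fs_zero]
      field_simp
      simp
    · obtain ⟨t, ht⟩ := Nat.exists_eq_succ_of_ne_zero h.ne'
      rw [ht, Nat.succ_eq_add_one, fs_insert t _ _ p hpl, Nat.add_sub_cancel]
      field_simp

theorem fs_upper (t : ℕ) (S : Finset ℕ) (hS : ∀ p ∈ S, t ≤ p ∧ 0 < p) :
    fs t S (fun p => (p : ℝ)) ≤ (1 - ∏ p ∈ S, (1 - 1 / (p : ℝ))) ^ t := by
  induction S using Finset.induction_on generalizing t with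
  | empty =>
    cases t with
    | zero => rw [fs_zero]; simp
    | succ t => rw [fs_empty]; simp
  | insert p S hp ih =>
    cases t with
    | zero => rw [fs_zero]; simp
    | succ t =>
      have h1 := hS p (Finset.mem_insert_self p S)
      have hp1 : (0 : ℝ) < p := by exact_mod_cast h1.2
      have hpt : ((t + 1 : ℕ) : ℝ) ≤ p := by exact_mod_cast h1.1
      have h2 := ih (t + 1) fun q hq => hS q (Finset.mem_insert_of_mem hq)
      have h3 := ih t fun q hq => ⟨by
        have := (hS q (Finset.mem_insert_of_mem hq)).1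
        omega, (hS q (Finset.mem_insert_of_mem hq)).2⟩
      rw [fs_insert t S _ p hp, Finset.prod_insert hp]
      obtain ⟨hq0, hq1⟩ := prod_unit S fun q hq => (hS q (Finset.mem_insert_of_mem hq)).2
      set q := ∏ q ∈ S, (1 - 1 / (q : ℝ)) with hq
      have h4 : 0 ≤ 1 - ((t + 1 : ℕ) : ℝ) / (p : ℝ) := by
        rw [sub_nonneg, div_le_one hp1]
        exact hpt
      have h5 : 0 ≤ ((t + 1 : ℕ) : ℝ) / (p : ℝ) := by positivity
      calc (1 - ((t + 1 : ℕ) : ℝ) / (p : ℝ)) * fs (t + 1) S (fun p => (p : ℝ)) +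
            ((t + 1 : ℕ) : ℝ) / (p : ℝ) * fs t S (fun p => (p : ℝ))
          ≤ (1 - ((t + 1 : ℕ) : ℝ) / (p : ℝ)) * (1 - q) ^ (t + 1) +
            ((t + 1 : ℕ) : ℝ) / (p : ℝ) * (1 - q) ^ t :=
            add_le_add (mul_le_mul_of_nonneg_left h2 h4) (mul_le_mul_of_nonneg_left h3 h5)
        _ = (1 - q) ^ t * ((1 - q) + ((t + 1 : ℕ) : ℝ) * (q / p)) := by
            rw [pow_succ]
            field_simp
            ring
        _ ≤ ((1 - q) + q / p) ^ (t + 1) :=
            pow_bern (by linarith) (by positivity) t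
        _ = (1 - (1 - 1 / (p : ℝ)) * q) ^ (t + 1) := by
            congr 1
            field_simp
            ring

theorem ex_emp_upper (k w x : ℕ) (hk : k ≤ w) (T : Finset ℕ) (hT : T ⊆ Icc 1 k) :
    ex (pl w x) emp T ≤ Real.exp (-(V w x * T.card)) := by
  have h1 : ∀ p ∈ pl w x, k < p := fun p hp => by
    have := ((mem_pl w x p).1 hp).1.1
    omega
  have hc : T.card ≤ k := by
    have := Finset.card_le_card hT
    rwa [Nat.card_Icc, Nat.add_sub_cancel] at this
  have hf : (pl w x).toFinset = ps w x := by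
    unfold pl
    exact Finset.toList_toFinset _
  rw [ex_emp k (pl w x) h1 (nodup_pl w x) T hT, hf]
  have h2 : ∀ p ∈ ps w x, T.card ≤ p ∧ 0 < p := fun p hp => by
    have : p ∈ pl w x := by
      unfold pl
      rwa [Finset.mem_toList]
    have := h1 p this
    exact ⟨by omega, by omega⟩
  refine (fs_upper T.card (ps w x) h2).trans ?_
  obtain ⟨h3, h4⟩ := prod_unit (ps w x) fun q hq => (h2 q hq).2
  show (1 - V w x) ^ T.card ≤ _
  have h5 : (1 - V w x) ≤ Real.exp (-V w x) := by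
    have := Real.add_one_le_exp (-V w x)
    linarith
  have h6 : 0 ≤ 1 - V w x := by
    show 0 ≤ 1 - ∏ p ∈ ps w x, (1 - 1 / (p : ℝ))
    linarith
  refine (pow_le_pow_left₀ h6 h5 _).trans (le_of_eq ?_)
  rw [← Real.exp_nat_mul]
  congr 1
  ring

end Pool.Agent.Helper18.Sd
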