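import Mathlib

/-!
PROJECT SD (MP_2edd02_nt). The density of the `n` such that each of `n+1, …, n+k` has a prime factor `≤ x`
is `exp(-(1 + o(1)) k ∏_(p ≤ x) (1 - 1/p))` as long as `k / log x ≤ k^c`. Definitions.
-/

set_option autoImplicit false

namespace Pool.Agent.Helper18.Sd

open Finset

/-- the elements `i` of `T` with `p ∤ r + i` -/
def sv (p r : ℕ) (T : Finset ℕ) : Finset ℕ := T.filter (fun i => ¬ p ∣ r + i)

/-- the expectation of `F` of the set of survivors of `T`, for independent uniform residues `r` modulo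
the members `p` of the list -/
noncomputable def ex : List ℕ → (Finset ℕ → ℝ) → Finset ℕ → ℝ
  | [], F, T => F T
  | p :: l, F, T => (∑ r ∈ range p, ex l F (sv p r T)) / p

/-- the indicator of the empty set -/
noncomputable def emp (T : Finset ℕ) : ℝ := if T = ∅ then 1 else 0

/-- `∏ (1 - 1/p)` over a list -/
noncomputable def pr (l : List ℕ) : ℝ := (l.map (fun p : ℕ => 1 - 1 / (p : ℝ))).prod

/-- the primes in `(y, z]` -/
def ps (y z : ℕ) : Finset ℕ := (Ioc y z).filter Nat.Prime

/-- `V(y, z) = ∏_(y < p ≤ z) (1 - 1/p)` -/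
noncomputable def V (y z : ℕ) : ℝ := ∏ p ∈ ps y z, (1 - 1 / (p : ℝ))

/-- the list of the primes in `(y, z]` -/
noncomputable def pl (y z : ℕ) : List ℕ := (ps y z).toList

/-- the probability that all of `t` elements are killed, if a step `p` kills each one of the living
elements with probability `1 / m p` and at most one of them: closed form (inclusion-exclusion) -/
noncomputable def fs (t : ℕ) (S : Finset ℕ) (m : ℕ → ℝ) : ℝ :=
  ∑ j ∈ range (t + 1), (-1 : ℝ) ^ j * (t.choose j : ℝ) * ∏ p ∈ S, (1 - (j : ℝ) / m p)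

end Pool.Agent.Helper18.Sd
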