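import Pool.Agent.Helper18.Sd.SeqX

/-!
SD-D. The lower bound for `fs`: reveal one element after the other.

Put `W Q = (∏_(p ∈ Q) 1/m p) ∏_(p ∈ S \ Q) (1 - 1/m p)` for `Q ⊆ S` (`∑_Q W Q = 1` by `Finset.prod_add`), `m' p = m p - 1`, `Φ = W ∅ = ∏_S (1 - 1/m p)`.

(I1) `fs t S m = ∑_(Q ⊆ S) W Q · fs t (S \ Q) m'`: interchange the sums; for each `j`, `Finset.prod_add` gives
     `∑_Q W Q ∏_(S \ Q) (1 - j/m') = ∏_S (1/m + (1 - 1/m)(1 - j/(m-1))) = ∏_S (1 - j/m)` (`m > 1`).
(I2) `W ∅ · fs t S m' = ∑_j (-1)^j (t choose j) ∏_S (1 - (j+1)/m)` (as `(1 - 1/m)(1 - j/(m-1)) = 1 - (j+1)/m`), and by Pascal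
     `fs (t+1) S m = fs t S m - ∑_j (-1)^j (t choose j) ∏_S (1 - (j+1)/m)`. Hence
     `fs (t+1) S m = ∑_(Q ⊆ S, Q ≠ ∅) W Q · fs t (S \ Q) m'`.

`fs_lower` by induction on `t` (all `S`, `m`). `A_t = (1 + 4/K)^t`. Step `t → t+1`; `S = ∅`: `Φ = 1`, `A ≥ 1`, so the left side is `0` (and `fs (t+1) ∅ m = 0`).
`S ≠ ∅`: `Φ < 1`. By (I2) and the induction hypothesis for `S \ Q`, `m'` (`m' p ≥ K + t`, the sum is smaller)
`fs (t+1) S m ≥ ∑_(Q ≠ ∅) W Q g(A_t ∏_(S \ Q)(1 - 1/m'))`, `g v = (max 0 (1 - v))^t`, antitone and convex on `ℝ`;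
`∏_(S \ Q) (1 - 1/m') ≤ ∏_(S \ Q) (1 - 1/m) = Φ X(Q)`, `X(Q) = ∏_Q (1 - 1/m)⁻¹`. Jensen (`ConvexOn.map_sum_le`) with the weights `W Q / (1 - Φ)`:
`≥ (1 - Φ) g(A_t Φ E')`, `E' = (E X - Φ) / (1 - Φ) = 1 + (E X - 1)/(1 - Φ)`, `E X = ∑_Q W Q X Q = ∏_S (1 + 1/(m (m-1)))`.
`E X - 1 ≤ exp σ - 1 ≤ (5/4) σ`, `σ = ∑ 1/(m(m-1)) ≤ 1/K ≤ 1/4`, `σ ≤ s/K`, `s = ∑ 1/m`; `1 - Φ ≥ 1 - exp(-s) ≥ min(s/2, 6/10)`; so `E' ≤ 1 + 4/K`.
Hence `≥ (1 - Φ) (max 0 (1 - A_(t+1) Φ))^t ≥ (max 0 (1 - A_(t+1) Φ))^(t+1)`.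
-/

set_option autoImplicit false

namespace Pool.Agent.Helper18.Sd

open Finset

theorem fs_lower (K : ℝ) (hK : 4 ≤ K) (t : ℕ) (S : Finset ℕ) (m : ℕ → ℝ)
    (hm : ∀ p ∈ S, K + t + 1 ≤ m p) (hs : ∑ p ∈ S, 1 / ((m p - t) * (m p - t - 1)) ≤ 1 / K) :
    (max 0 (1 - (1 + 4 / K) ^ t * ∏ p ∈ S, (1 - 1 / m p))) ^ t ≤ fs t S m := by
  have hK0 : 0 < K := by linarith
  induction t generalizing S m with
  | zero =>
    rw [pow_zero]
    unfold fs
    simp
  | succ t ih =>
    have hm1 : ∀ p ∈ S, 1 < m p := fun p hp => by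
      have := hm p hp
      push_cast at this
      have h0 : (0 : ℝ) ≤ t := Nat.cast_nonneg t
      linarith
    have ht0 : (0 : ℝ) ≤ t := Nat.cast_nonneg t
    have hmt : ∀ p ∈ S, K + t + 2 ≤ m p := fun p hp => by
      have := hm p hp
      push_cast at this
      linarith
    have hpos : ∀ p ∈ S, 0 ≤ 1 / ((m p - (t + 1)) * (m p - (t + 1) - 1)) := fun p hp => by
      have := hmt p hp
      apply one_div_nonneg.2
      exact mul_nonneg (by linarith) (by linarith)
    have hs' : ∑ p ∈ S, 1 / ((m p - (t + 1)) * (m p - (t + 1) - 1)) ≤ 1 / K := by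
      push_cast at hs
      exact hs
    rw [fs_rec hm1]
    set Φ := ∏ p ∈ S, (1 - 1 / m p) with hΦ
    set A := (1 + 4 / K) ^ t with hA
    have hA1 : 1 ≤ A := one_le_pow₀ (by
      have : 0 < 4 / K := by positivity
      linarith)
    have hAs : (1 + 4 / K) ^ (t + 1) = A * (1 + 4 / K) := pow_succ _ _
    rw [hAs]
    have hf0 : ∀ p ∈ S, 0 < 1 - 1 / m p := fun p hp => by
      have := hm1 p hp
      rw [sub_pos, div_lt_one (by linarith)]
      exact this
    have hf1 : ∀ p ∈ S, 1 - 1 / m p ≤ 1 := fun p hp => by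
      have := hm1 p hp
      have h2 : 0 < 1 / m p := by positivity
      linarith
    have hΦ0 : 0 < Φ := prod_pos hf0
    rcases S.eq_empty_or_nonempty with hSe | hSne
    · subst hSe
      have h1 : Φ = 1 := by rw [hΦ, prod_empty]
      have h2 : 1 ≤ A * (1 + 4 / K) := by
        have : 0 < 4 / K := by positivity
        nlinarith
      rw [h1, max_eq_left (by linarith), zero_pow (Nat.succ_ne_zero t)]
      apply le_of_eq
      simp
    -- the sums
    set s := ∑ p ∈ S, 1 / m p with hsdef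
    set σ := ∑ p ∈ S, 1 / (m p * (m p - 1)) with hσ
    have hs0 : 0 < s := sum_pos (fun p hp => by have := hm1 p hp; positivity) hSne
    have hσ0 : 0 ≤ σ := sum_nonneg fun p hp => by
      have := hm1 p hp
      apply one_div_nonneg.2
      exact mul_nonneg (by linarith) (by linarith)
    have hσK : σ ≤ 1 / K := by
      refine le_trans (sum_le_sum fun p hp => ?_) hs'
      have := hmt p hp
      apply one_div_le_one_div_of_le
      · exact mul_pos (by linarith) (by linarith)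
      · exact mul_le_mul (by linarith) (by linarith) (by linarith) (by linarith)
    have hσs : σ ≤ s / K := by
      rw [hσ, hsdef, sum_div]
      refine sum_le_sum fun p hp => ?_
      have := hmt p hp
      have hmp : 0 < m p := by linarith
      rw [div_div]
      apply one_div_le_one_div_of_le
      · exact mul_pos hmp hK0
      · exact mul_le_mul_of_nonneg_left (by linarith) hmp.le
    have hΦexp : Φ ≤ Real.exp (-s) := by
      rw [hΦ, hsdef, ← sum_neg_distrib, Real.exp_sum]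
      refine prod_le_prod (fun p hp => (hf0 p hp).le) fun p hp => ?_
      have := Real.add_one_le_exp (-(1 / m p))
      linarith
    have hΦ1 : Φ < 1 := by
      refine lt_of_le_of_lt hΦexp ?_
      rw [Real.exp_lt_one_iff]
      linarith
    have h1Φ : 0 < 1 - Φ := by linarith
    -- the mean of X
    set EX := ∏ p ∈ S, (1 + 1 / (m p * (m p - 1))) with hEX
    have hEXσ : EX - 1 ≤ 5 / 4 * σ := by
      have h1 : EX ≤ Real.exp σ := by
        rw [hEX, hσ, Real.exp_sum]
        refine prod_le_prod (fun p hp => ?_) fun p hp => ?_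
        · have := hm1 p hp
          have h2 : 0 ≤ 1 / (m p * (m p - 1)) :=
            one_div_nonneg.2 (mul_nonneg (by linarith) (by linarith))
          linarith
        · have := Real.add_one_le_exp (1 / (m p * (m p - 1)))
          linarith
      have hK4 : 1 / K ≤ 1 / 4 := one_div_le_one_div_of_le (by norm_num) hK
      have h2 := Real.abs_exp_sub_one_sub_id_le (x := σ) (by
        rw [abs_of_nonneg hσ0]
        linarith)
      have h3 := (abs_le.1 h2).2
      nlinarith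
    have hEX1 : (EX - 1) / (1 - Φ) ≤ 4 / K := by
      rw [div_le_iff₀ h1Φ]
      rcases one_sub_exp hs0.le with h | h
      · have h2 : s / 2 ≤ 1 - Φ := by linarith
        have h3 : 4 / K * (s / 2) ≤ 4 / K * (1 - Φ) :=
          mul_le_mul_of_nonneg_left h2 (by positivity)
        have h4 : 4 / K * (s / 2) = 2 * (s / K) := by ring
        have h5 : 0 ≤ s / K := by positivity
        linarith
      · have h2 : 6 / 10 ≤ 1 - Φ := by linarith
        have h3 : 4 / K * (6 / 10) ≤ 4 / K * (1 - Φ) :=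
          mul_le_mul_of_nonneg_left h2 (by positivity)
        have h4 : 4 / K * (6 / 10) = 24 / 10 * (1 / K) := by ring
        have h5 : 0 ≤ 1 / K := by positivity
        linarith
    -- lower bound for each term
    set g : ℝ → ℝ := fun v => (max 0 (1 - v)) ^ t with hg
    have hterm : ∀ Q ∈ S.powerset.erase ∅, wt S m Q * g (A * (Φ * ∏ p ∈ Q, (1 - 1 / m p)⁻¹)) ≤
        wt S m Q * fs t (S \ Q) (fun p => m p - 1) := by
      intro Q hQ
      have hQS : Q ⊆ S := mem_powerset.1 (mem_of_mem_erase hQ)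
      refine mul_le_mul_of_nonneg_left ?_ (wt_nonneg hm1 hQS)
      have h1 := ih (S \ Q) (fun p => m p - 1) (fun p hp => by
        have := hmt p (mem_sdiff.1 hp).1
        linarith) (by
          refine le_trans ?_ hs'
          refine le_trans (le_of_eq ?_) (sum_le_sum_of_subset_of_nonneg (sdiff_subset (s := S) (t := Q))
            fun p hp _ => hpos p hp)
          refine sum_congr rfl fun p _ => ?_
          congr 2 <;> ring)
      refine le_trans ?_ h1
      refine anti_g t ?_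
      refine mul_le_mul_of_nonneg_left ?_ (by linarith)
      have h2 : Φ * ∏ p ∈ Q, (1 - 1 / m p)⁻¹ = ∏ p ∈ S \ Q, (1 - 1 / m p) := by
        have h3 : ∏ p ∈ Q, (1 - 1 / m p) * (1 - 1 / m p)⁻¹ = 1 :=
          prod_eq_one fun p hp => mul_inv_cancel₀ (hf0 p (hQS hp)).ne'
        rw [hΦ, ← prod_sdiff hQS, mul_assoc, ← prod_mul_distrib, h3, mul_one]
      rw [h2]
      refine prod_le_prod (fun p hp => ?_) fun p hp => ?_
      · have := hmt p (mem_sdiff.1 hp).1
        rw [sub_nonneg, div_le_one (by linarith)]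
        linarith
      · have := hmt p (mem_sdiff.1 hp).1
        have h3 : 1 / m p ≤ 1 / (m p - 1) :=
          one_div_le_one_div_of_le (by linarith) (by linarith)
        linarith
    refine le_trans ?_ (sum_le_sum hterm)
    -- Jensen
    have hw1 : ∑ Q ∈ S.powerset.erase ∅, wt S m Q = 1 - Φ := by
      have h1 := sum_wt S m
      rw [← Finset.add_sum_erase _ _ (empty_mem_powerset S), wt_empty] at h1
      linarith
    have hw2 : ∑ Q ∈ S.powerset.erase ∅, wt S m Q * ∏ p ∈ Q, (1 - 1 / m p)⁻¹ = EX - Φ := by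
      have h1 := sum_wt_inv hm1
      rw [← Finset.add_sum_erase _ _ (empty_mem_powerset S), wt_empty, prod_empty, mul_one] at h1
      linarith
    have hjen := (convex_g t).map_sum_le (t := S.powerset.erase ∅)
      (w := fun Q => wt S m Q / (1 - Φ)) (p := fun Q => A * (Φ * ∏ p ∈ Q, (1 - 1 / m p)⁻¹))
      (fun Q hQ => div_nonneg (wt_nonneg hm1 (mem_powerset.1 (mem_of_mem_erase hQ))) h1Φ.le)
      (by rw [← sum_div, hw1, div_self h1Φ.ne']) (fun _ _ => Set.mem_univ _)
    simp only [smul_eq_mul] at hjen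
    have hmean : ∑ Q ∈ S.powerset.erase ∅, wt S m Q / (1 - Φ) * (A * (Φ * ∏ p ∈ Q, (1 - 1 / m p)⁻¹)) =
        A * Φ * ((EX - Φ) / (1 - Φ)) := by
      rw [← hw2, sum_div, mul_sum]
      exact sum_congr rfl fun Q _ => by ring
    rw [hmean] at hjen
    have hsum : ∑ Q ∈ S.powerset.erase ∅, wt S m Q / (1 - Φ) *
        (max 0 (1 - A * (Φ * ∏ p ∈ Q, (1 - 1 / m p)⁻¹))) ^ t =
        (∑ Q ∈ S.powerset.erase ∅, wt S m Q * g (A * (Φ * ∏ p ∈ Q, (1 - 1 / m p)⁻¹))) / (1 - Φ) := by
      rw [sum_div]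
      exact sum_congr rfl fun Q _ => by rw [hg]; ring
    rw [hsum, le_div_iff₀ h1Φ] at hjen
    refine le_trans ?_ hjen
    have hE' : (EX - Φ) / (1 - Φ) ≤ 1 + 4 / K := by
      have h1 : (EX - Φ) / (1 - Φ) = 1 + (EX - 1) / (1 - Φ) := by
        field_simp
        ring
      rw [h1]
      linarith
    have hAΦ : 0 ≤ A * Φ := by positivity
    have h5 : (max 0 (1 - A * (1 + 4 / K) * Φ)) ^ t ≤ (max 0 (1 - A * Φ * ((EX - Φ) / (1 - Φ)))) ^ t := by
      refine anti_g t ?_
      calc A * Φ * ((EX - Φ) / (1 - Φ)) ≤ A * Φ * (1 + 4 / K) := mul_le_mul_of_nonneg_left hE' hAΦ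
        _ = A * (1 + 4 / K) * Φ := by ring
    rw [pow_succ]
    have h6 : max 0 (1 - A * (1 + 4 / K) * Φ) ≤ 1 - Φ := by
      apply max_le h1Φ.le
      have h7 : 1 ≤ A * (1 + 4 / K) := by
        have : 0 < 4 / K := by positivity
        nlinarith
      have h8 := mul_le_mul_of_nonneg_right h7 hΦ0.le
      linarith
    exact mul_le_mul h5 h6 (le_max_left _ _) (pow_nonneg (le_max_left _ _) _)

end Pool.Agent.Helper18.Sd
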