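import Pool.Agent.Helper18.Sd.Basic

/-!
SD-E. Exponential moments over the medium primes.

Induction on the list. For `p :: l`: `λ' = λ ∏_l (1 - (1+η)/q) ∈ [0, λ]` (each factor is in `[0, 1]`: `q ≥ 2`, `η ≤ 1`). For `r < p` let `K_r = #{i ∈ T : p ∣ r + i}`, `K_r ≤ k/p + 1 ≤ k/y + 1`
(`T ⊆ Icc 1 k`, the `i` lie in one class modulo `p`), `∑_r K_r = #T`, `#(sv p r T) = #T - K_r`. With `t = λ' K_r ≤ η ≤ 1`: `exp t ≤ 1 + t + t^2 ≤ 1 + (1 + η) t`.
Average over `r`: `≤ exp(-λ' #T) (1 + (1+η) λ' #T / p) ≤ exp(-λ' #T (1 - (1+η)/p))`.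
-/

set_option autoImplicit false

namespace Pool.Agent.Helper18.Sd

open Finset

private theorem med_count (k p r : ℕ) (hp : 0 < p) (T : Finset ℕ) (hT : T ⊆ Icc 1 k) :
    (T.filter (fun i => p ∣ r + i)).card ≤ k / p + 1 := by
  have h1 : (T.filter (fun i => p ∣ r + i)).card ≤ (range (k / p + 1)).card := by
    apply Finset.card_le_card_of_injOn (fun i => i / p)
    · intro i hi
      have hi' := Finset.mem_filter.1 (Finset.mem_coe.1 hi)
      have h2 := (Finset.mem_Icc.1 (hT hi'.1)).2
      simp only [Finset.coe_range, Set.mem_Iio]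
      exact Nat.lt_succ_of_le (Nat.div_le_div_right h2)
    · intro i hi j hj hij
      have hi' := (Finset.mem_filter.1 (Finset.mem_coe.1 hi)).2
      have hj' := (Finset.mem_filter.1 (Finset.mem_coe.1 hj)).2
      simp only at hij
      have hm : i % p = j % p := by
        have h3 : r + i ≡ r + j [MOD p] :=
          ((Nat.modEq_zero_iff_dvd).2 hi').trans ((Nat.modEq_zero_iff_dvd).2 hj').symm
        exact Nat.ModEq.add_left_cancel' r h3
      rw [← Nat.div_add_mod i p, ← Nat.div_add_mod j p, hij, hm]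
  rwa [Finset.card_range] at h1

private theorem med_split (p r : ℕ) (T : Finset ℕ) :
    ((T.filter (fun i => p ∣ r + i)).card : ℝ) = T.card - (sv p r T).card := by
  have h := Finset.card_filter_add_card_filter_not (s := T) (fun i => p ∣ r + i)
  have h2 : ((T.filter (fun i => p ∣ r + i)).card : ℝ) + (sv p r T).card = T.card := by
    exact_mod_cast h
  linarith

private theorem med_sum (p : ℕ) (hp : 0 < p) (T : Finset ℕ) :
    ∑ r ∈ range p, ((T.filter (fun i => p ∣ r + i)).card : ℝ) = T.card := by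
  have hp' : (p : ℝ) ≠ 0 := Nat.cast_ne_zero.2 hp.ne'
  have h := ex_card [p] (by simpa using hp) T
  simp only [ex, pr, List.map_cons, List.map_nil, List.prod_cons, List.prod_nil, mul_one] at h
  rw [div_eq_iff hp'] at h
  simp only [med_split]
  rw [Finset.sum_sub_distrib, h, Finset.sum_const, Finset.card_range, nsmul_eq_mul]
  field_simp
  ring

private theorem med_exp {t η : ℝ} (h0 : 0 ≤ t) (h1 : t ≤ η) (h2 : η ≤ 1) :
    Real.exp t ≤ 1 + (1 + η) * t := by
  have h := Real.abs_exp_sub_one_sub_id_le (x := t) (by rw [abs_of_nonneg h0]; linarith)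
  have h3 := (abs_le.1 h).2
  nlinarith

private theorem med_fac {η : ℝ} (hη0 : 0 ≤ η) (hη1 : η ≤ 1) {q : ℕ} (hq : 2 ≤ q) :
    0 ≤ 1 - (1 + η) / (q : ℝ) ∧ 1 - (1 + η) / (q : ℝ) ≤ 1 := by
  have hq' : (2 : ℝ) ≤ q := by exact_mod_cast hq
  have h1 : (1 + η) / (q : ℝ) ≤ 1 := by
    rw [div_le_one (by linarith)]
    linarith
  have h2 : 0 ≤ (1 + η) / (q : ℝ) := by positivity
  constructor <;> linarith

private theorem med_prod {η : ℝ} (hη0 : 0 ≤ η) (hη1 : η ≤ 1) (l : List ℕ) (hl : ∀ p ∈ l, 2 ≤ p) :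
    0 ≤ (l.map (fun p : ℕ => 1 - (1 + η) / (p : ℝ))).prod ∧
      (l.map (fun p : ℕ => 1 - (1 + η) / (p : ℝ))).prod ≤ 1 := by
  induction l with
  | nil => simp
  | cons p l ih =>
    have h1 := med_fac hη0 hη1 (hl p (by simp))
    have h2 := ih (fun q hq => hl q (by simp [hq]))
    rw [List.map_cons, List.prod_cons]
    exact ⟨mul_nonneg h1.1 h2.1, mul_le_one₀ h1.2 h2.1 h2.2⟩

theorem ex_medium (k y : ℕ) (η lam : ℝ) (hη0 : 0 ≤ η) (hη1 : η ≤ 1) (hlam : 0 ≤ lam) (hy : 1 ≤ y)
    (hM : lam * ((k : ℝ) / y + 1) ≤ η) (l : List ℕ) (hl : ∀ p ∈ l, y < p) (T : Finset ℕ)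
    (hT : T ⊆ Icc 1 k) :
    ex l (fun T => Real.exp (-(lam * T.card))) T ≤
      Real.exp (-(lam * (l.map (fun p : ℕ => 1 - (1 + η) / (p : ℝ))).prod * T.card)) := by
  induction l generalizing T with
  | nil => simp [ex]
  | cons p l ih =>
    have hyp : y < p := hl p (by simp)
    have hp : 0 < p := by omega
    have hp' : (0 : ℝ) < p := Nat.cast_pos.2 hp
    have hy' : (0 : ℝ) < y := Nat.cast_pos.2 (by omega)
    have ih' := fun T hT => ih (fun q hq => hl q (by simp [hq])) T hT
    have hpr := med_prod hη0 hη1 l (fun q hq => by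
      have := hl q (by simp [hq])
      omega)
    set Q : ℝ := (l.map (fun p : ℕ => 1 - (1 + η) / (p : ℝ))).prod with hQ
    set μ : ℝ := lam * Q with hμ
    have hμ0 : 0 ≤ μ := mul_nonneg hlam hpr.1
    have hμ1 : μ ≤ lam := by
      rw [hμ]
      nlinarith [hpr.2]
    have key : ∀ r ∈ range p, Real.exp (-(μ * (sv p r T).card)) ≤
        Real.exp (-(μ * T.card)) *
          (1 + (1 + η) * (μ * ((T.filter (fun i => p ∣ r + i)).card : ℝ))) := by
      intro r _
      have hs := med_split p r T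
      have hc : ((T.filter (fun i => p ∣ r + i)).card : ℝ) ≤ (k : ℝ) / y + 1 := by
        have h1 := med_count k p r hp T hT
        have h2 : ((T.filter (fun i => p ∣ r + i)).card : ℝ) ≤ ((k / p : ℕ) : ℝ) + 1 := by
          exact_mod_cast h1
        have h3 : ((k / p : ℕ) : ℝ) ≤ (k : ℝ) / p := Nat.cast_div_le
        have h4 : (k : ℝ) / p ≤ (k : ℝ) / y :=
          div_le_div_of_nonneg_left (Nat.cast_nonneg k) hy' (by exact_mod_cast hyp.le)
        linarith
      set K : ℝ := ((T.filter (fun i => p ∣ r + i)).card : ℝ) with hK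
      have hK0 : 0 ≤ K := Nat.cast_nonneg _
      have ht0 : 0 ≤ μ * K := mul_nonneg hμ0 hK0
      have ht1 : μ * K ≤ η := by
        refine le_trans ?_ hM
        exact mul_le_mul hμ1 hc hK0 hlam
      have he := med_exp ht0 ht1 hη1
      have e1 : -(μ * (sv p r T).card) = -(μ * T.card) + μ * K := by
        rw [hs]
        ring
      rw [e1, Real.exp_add]
      exact mul_le_mul_of_nonneg_left he (Real.exp_pos _).le
    have hsum : ∑ r ∈ range p, ex l (fun T => Real.exp (-(lam * T.card))) (sv p r T) ≤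
        Real.exp (-(μ * T.card)) * (p + (1 + η) * (μ * T.card)) := by
      refine (Finset.sum_le_sum (fun r hr =>
        (ih' (sv p r T) ((sv_subset p r T).trans hT)).trans (key r hr))).trans (le_of_eq ?_)
      rw [← Finset.mul_sum, Finset.sum_add_distrib, ← Finset.mul_sum, ← Finset.mul_sum,
        med_sum p hp T, Finset.sum_const, Finset.card_range, nsmul_eq_mul, mul_one]
    have hlast : (1 : ℝ) + (1 + η) * (μ * T.card) / p ≤ Real.exp ((1 + η) * (μ * T.card) / p) := by
      have := Real.add_one_le_exp ((1 + η) * (μ * T.card) / p)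
      linarith
    simp only [ex]
    rw [List.map_cons, List.prod_cons, ← hQ]
    calc (∑ r ∈ range p, ex l (fun T => Real.exp (-(lam * T.card))) (sv p r T)) / p
        ≤ (Real.exp (-(μ * T.card)) * (p + (1 + η) * (μ * T.card))) / p :=
          div_le_div_of_nonneg_right hsum hp'.le
      _ = Real.exp (-(μ * T.card)) * (1 + (1 + η) * (μ * T.card) / p) := by
          field_simp
      _ ≤ Real.exp (-(μ * T.card)) * Real.exp ((1 + η) * (μ * T.card) / p) :=
          mul_le_mul_of_nonneg_left hlast (Real.exp_pos _).le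
      _ = Real.exp (-(lam * ((1 - (1 + η) / (p : ℝ)) * Q) * T.card)) := by
          rw [← Real.exp_add]
          congr 1
          rw [hμ]
          field_simp
          ring

end Pool.Agent.Helper18.Sd
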