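import Pool.Agent.Helper18.Sd.Mert
import Pool.Agent.Helper40.DB.Fund

/-!
SD-F. Small primes: arbitrary classes leave at least `(1 - ε) k V(0, y)` elements, `y ≤ k^a`.

`Helper40.DB.fund 1` (file `Pool/Agent/Helper40/DB/Fund.lean`; check the namespace) with `P = ps 0 y`, `E = Nat.log 2 y`, `Z q = {(q - r q % q) % q}` (one class),
`M = k`: the count is `≥ k V - C (1/4)^b k V - (2E+3) 2^(20 E (b+2))`. Choose `b` with `C (1/4)^b ≤ ε/2`, `a = 1/(40 (b+2))`: `2^(20 E (b+2)) ≤ y^(20(b+2)) ≤ √k`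
(`y ≥ 1`), `E ≤ 2 log k`; `V 0 y ≥ c / log y ≥ c / log k` (`V_lower`; `V = 1` for `y ≤ 1`), and `(4 log k + 3) √k ≤ (ε/2) c k / log k` for large `k`.
-/

set_option autoImplicit false

namespace Pool.Agent.Helper18.Sd

open Finset

theorem small_surv (ε : ℝ) (hε : 0 < ε) : ∃ a : ℝ, 0 < a ∧ a ≤ 1 ∧ ∃ k₀ : ℕ, ∀ k : ℕ, k₀ ≤ k →
    ∀ y : ℕ, (y : ℝ) ≤ (k : ℝ) ^ a → ∀ r : ℕ → ℕ,
      (1 - ε) * (k * V 0 y) ≤
        (((Icc 1 k).filter (fun i => ∀ p ∈ pl 0 y, ¬ p ∣ r p + i)).card : ℝ) := by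
  classical
  obtain ⟨C, hC0, hC⟩ := Helper40.DB.fund 1
  obtain ⟨c, hc0, hc⟩ := V_lower
  -- choice of `b`
  obtain ⟨b0, hb0⟩ : ∃ b : ℕ, C * (1 / 4 : ℝ) ^ b ≤ ε / 2 := by
    obtain ⟨n, hn⟩ := exists_pow_lt_of_lt_one (show (0 : ℝ) < ε / 2 / (C + 1) by positivity)
      (show (1 / 4 : ℝ) < 1 by norm_num)
    refine ⟨n, ?_⟩
    have h1 : (0 : ℝ) ≤ (1 / 4) ^ n := by positivity
    rw [lt_div_iff₀ (by linarith)] at hn
    nlinarith
  set b : ℕ := b0 + 1 with hb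
  have hbC : C * (1 / 4 : ℝ) ^ b ≤ ε / 2 := by
    have h1 : (0 : ℝ) ≤ C * (1 / 4) ^ b0 := by positivity
    rw [hb, pow_succ]
    nlinarith
  have hb2 : (3 : ℝ) ≤ (b : ℝ) + 2 := by
    rw [hb]
    push_cast
    have : (0 : ℝ) ≤ b0 := Nat.cast_nonneg _
    linarith
  set a : ℝ := 1 / (40 * ((b : ℝ) + 2)) with ha
  have ha0 : 0 < a := by positivity
  have ha4 : a ≤ 1 / 4 := by
    rw [ha]
    apply one_div_le_one_div_of_le (by norm_num)
    linarith
  refine ⟨a, ha0, by linarith, max 3 (max ⌈(80 / (ε * c)) ^ 8⌉₊ ⌈Real.exp c⌉₊), ?_⟩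
  intro k hk y hy r
  have hk3 : 3 ≤ k := (le_max_left _ _).trans hk
  have hk1 : (80 / (ε * c)) ^ 8 ≤ (k : ℝ) := by
    refine (Nat.le_ceil _).trans ?_
    exact_mod_cast (le_max_left _ _).trans ((le_max_right _ _).trans hk)
  have hk2 : Real.exp c ≤ (k : ℝ) := by
    refine (Nat.le_ceil _).trans ?_
    exact_mod_cast (le_max_right _ _).trans ((le_max_right _ _).trans hk)
  set K : ℝ := (k : ℝ) with hK
  have hK3 : (3 : ℝ) ≤ K := by
    rw [hK]
    exact_mod_cast hk3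
  have hK0 : 0 < K := by linarith
  have hK1 : 1 ≤ K := by linarith
  have hL0 : 0 < Real.log K := Real.log_pos (by linarith)
  have hcL : c ≤ Real.log K := by
    rw [Real.le_log_iff_exp_le hK0]
    exact hk2
  have hKa : 1 ≤ K ^ a := Real.one_le_rpow hK1 ha0.le
  -- the lower bound for `V`
  have hV : c / Real.log K ≤ V 0 y := by
    by_cases hy2 : 2 ≤ y
    · have hy2' : (2 : ℝ) ≤ y := by exact_mod_cast hy2
      refine le_trans ?_ (hc y hy2)
      apply div_le_div_of_nonneg_left hc0.le (Real.log_pos (by linarith))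
      apply Real.log_le_log (by linarith)
      refine hy.trans ?_
      calc K ^ a ≤ K ^ (1 : ℝ) := Real.rpow_le_rpow_of_exponent_le hK1 (by linarith)
        _ = K := Real.rpow_one K
    · have h1 : ps 0 y = ∅ := by
        rw [Finset.eq_empty_iff_forall_notMem]
        intro p hp
        rw [ps, mem_filter, mem_Ioc] at hp
        have := hp.2.two_le
        omega
      unfold V
      rw [h1, Finset.prod_empty, div_le_one hL0]
      exact hcL
  -- the sieve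
  have hmem : ∀ q ∈ ps 0 y, q.Prime ∧ q ≤ y := by
    intro q hq
    rw [ps, mem_filter, mem_Ioc] at hq
    exact ⟨hq.2, hq.1.2⟩
  have hfund := hC (ps 0 y) (fun q hq => ⟨(hmem q hq).1, (hmem q hq).1.one_lt⟩) (Nat.log 2 y)
    (fun q hq => Nat.log_mono_right (hmem q hq).2) (fun q => {(q - r q % q) % q})
    (fun q hq => ⟨by
      rw [Finset.singleton_subset_iff, mem_range]
      exact Nat.mod_lt _ (hmem q hq).1.pos, by rw [Finset.card_singleton]⟩) b (by omega) k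
  have hprod : ∏ q ∈ ps 0 y, (1 - ((({(q - r q % q) % q} : Finset ℕ).card : ℕ) : ℝ) / q) = V 0 y := by
    unfold V
    refine Finset.prod_congr rfl fun q _ => ?_
    rw [Finset.card_singleton, Nat.cast_one]
  rw [hprod] at hfund
  set E : ℕ := Nat.log 2 y with hE
  have hsub : ((Icc 1 k).filter (fun m => ∀ q ∈ ps 0 y, m % q ∉ ({(q - r q % q) % q} : Finset ℕ))) ⊆
      ((Icc 1 k).filter (fun i => ∀ p ∈ pl 0 y, ¬ p ∣ r p + i)) := by
    intro m hm
    rw [mem_filter] at hm ⊢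
    refine ⟨hm.1, fun p hp hdvd => ?_⟩
    have hp' : p ∈ ps 0 y := by
      rw [pl, Finset.mem_toList] at hp
      exact hp
    have hp0 : 0 < p := (hmem p hp').1.pos
    refine hm.2 p hp' ?_
    rw [Finset.mem_singleton]
    have h1 : m + r p ≡ (p - r p % p) + r p [MOD p] := by
      have h2 : m + r p ≡ 0 [MOD p] := by
        rw [Nat.modEq_zero_iff_dvd, add_comm]
        exact hdvd
      have h3 : (p - r p % p) + r p ≡ 0 [MOD p] := by
        have h4 : (p - r p % p) + r p ≡ (p - r p % p) + r p % p [MOD p] :=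
          Nat.ModEq.add_left _ (Nat.mod_modEq _ _).symm
        have h5 : (p - r p % p) + r p % p = p := Nat.sub_add_cancel (Nat.mod_lt _ hp0).le
        rw [h5] at h4
        exact h4.trans (Nat.modEq_zero_iff_dvd.2 dvd_rfl)
      exact h2.trans h3.symm
    exact Nat.ModEq.add_right_cancel' _ h1
  have hcard : ((((Icc 1 k).filter
      (fun m => ∀ q ∈ ps 0 y, m % q ∉ ({(q - r q % q) % q} : Finset ℕ))).card : ℕ) : ℝ) ≤
      (((Icc 1 k).filter (fun i => ∀ p ∈ pl 0 y, ¬ p ∣ r p + i)).card : ℝ) := by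
    exact_mod_cast Finset.card_le_card hsub
  -- the error term
  have hE2 : (2 : ℝ) ^ E ≤ K ^ a := by
    rcases Nat.eq_zero_or_pos y with h0 | h0
    · rw [hE, h0, Nat.log_zero_right, pow_zero]
      exact hKa
    · refine le_trans ?_ hy
      exact_mod_cast Nat.pow_log_le_self 2 h0.ne'
  have hK4 : K ^ a ≤ K ^ (1 / 4 : ℝ) := Real.rpow_le_rpow_of_exponent_le hK1 ha4
  have hE1 : (E : ℝ) ≤ K ^ (1 / 4 : ℝ) := by
    have h1 : (E : ℝ) ≤ (2 : ℝ) ^ E := by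
      exact_mod_cast (Nat.lt_two_pow_self (n := E)).le
    linarith
  have hR1 : (2 * (E : ℝ) + 3) ≤ 5 * K ^ (1 / 4 : ℝ) := by linarith
  have hR2 : (2 : ℝ) ^ (20 * E * (b + 2)) ≤ K ^ (1 / 2 : ℝ) := by
    have e1 : (2 : ℝ) ^ (20 * E * (b + 2)) = ((2 : ℝ) ^ E) ^ (20 * (b + 2)) := by
      rw [← pow_mul]
      congr 1
      ring
    rw [e1]
    calc ((2 : ℝ) ^ E) ^ (20 * (b + 2)) ≤ (K ^ a) ^ (20 * (b + 2)) :=
          pow_le_pow_left₀ (by positivity) hE2 _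
      _ = K ^ (1 / 2 : ℝ) := by
          rw [← Real.rpow_natCast, ← Real.rpow_mul hK0.le]
          congr 1
          rw [ha]
          push_cast
          field_simp
          ring
  have hlog : Real.log K ≤ 8 * K ^ (1 / 8 : ℝ) := by
    have h1 := Real.log_le_rpow_div hK0.le (show (0 : ℝ) < 1 / 8 by norm_num)
    linarith
  have hP1 : 0 ≤ K ^ (1 / 4 : ℝ) := by positivity
  have hP2 : 0 ≤ K ^ (1 / 2 : ℝ) := by positivity
  have hP3 : 0 ≤ K ^ (1 / 8 : ℝ) := by positivity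
  have hR : (2 * (E : ℝ) + 3) * 2 ^ (20 * E * (b + 2)) * Real.log K ≤ 40 * K ^ (7 / 8 : ℝ) := by
    have h1 : (2 * (E : ℝ) + 3) * 2 ^ (20 * E * (b + 2)) ≤ (5 * K ^ (1 / 4 : ℝ)) * K ^ (1 / 2 : ℝ) :=
      mul_le_mul hR1 hR2 (by positivity) (by positivity)
    have h2 : (2 * (E : ℝ) + 3) * 2 ^ (20 * E * (b + 2)) * Real.log K ≤
        ((5 * K ^ (1 / 4 : ℝ)) * K ^ (1 / 2 : ℝ)) * (8 * K ^ (1 / 8 : ℝ)) :=
      mul_le_mul h1 hlog hL0.le (by positivity)
    have h3 : ((5 * K ^ (1 / 4 : ℝ)) * K ^ (1 / 2 : ℝ)) * (8 * K ^ (1 / 8 : ℝ)) =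
        40 * K ^ (7 / 8 : ℝ) := by
      have h4 : K ^ (7 / 8 : ℝ) = K ^ (1 / 4 : ℝ) * K ^ (1 / 2 : ℝ) * K ^ (1 / 8 : ℝ) := by
        rw [← Real.rpow_add hK0, ← Real.rpow_add hK0]
        norm_num
      rw [h4]
      ring
    rw [h3] at h2
    exact h2
  have hbig : 40 * K ^ (7 / 8 : ℝ) ≤ ε / 2 * (c * K) := by
    have h1 : 80 / (ε * c) ≤ K ^ (1 / 8 : ℝ) := by
      have h2 : ((80 / (ε * c)) ^ 8) ^ (1 / 8 : ℝ) ≤ K ^ (1 / 8 : ℝ) :=
        Real.rpow_le_rpow (by positivity) hk1 (by norm_num)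
      have h3 : ((80 / (ε * c)) ^ 8) ^ (1 / 8 : ℝ) = 80 / (ε * c) := by
        rw [← Real.rpow_natCast, ← Real.rpow_mul (by positivity)]
        norm_num
      rwa [h3] at h2
    have h4 : K = K ^ (7 / 8 : ℝ) * K ^ (1 / 8 : ℝ) := by
      rw [← Real.rpow_add hK0]
      norm_num
    have h5 : 0 ≤ K ^ (7 / 8 : ℝ) := by positivity
    rw [div_le_iff₀ (by positivity)] at h1
    calc 40 * K ^ (7 / 8 : ℝ) = (1 / 2) * K ^ (7 / 8 : ℝ) * 80 := by ring
      _ ≤ (1 / 2) * K ^ (7 / 8 : ℝ) * (K ^ (1 / 8 : ℝ) * (ε * c)) :=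
          mul_le_mul_of_nonneg_left h1 (by positivity)
      _ = ε / 2 * (c * (K ^ (7 / 8 : ℝ) * K ^ (1 / 8 : ℝ))) := by ring
      _ = ε / 2 * (c * K) := by rw [← h4]
  have hRV : (2 * (E : ℝ) + 3) * 2 ^ (20 * E * (b + 2)) ≤ ε / 2 * (K * V 0 y) := by
    have h1 : (2 * (E : ℝ) + 3) * 2 ^ (20 * E * (b + 2)) ≤ ε / 2 * (c * K) / Real.log K := by
      rw [le_div_iff₀ hL0]
      exact hR.trans hbig
    refine h1.trans ?_
    calc ε / 2 * (c * K) / Real.log K = ε / 2 * (K * (c / Real.log K)) := by ring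
      _ ≤ ε / 2 * (K * V 0 y) := by
          apply mul_le_mul_of_nonneg_left _ (by positivity)
          exact mul_le_mul_of_nonneg_left hV hK0.le
  have hVn : 0 ≤ K * V 0 y := mul_nonneg hK0.le (V_pos 0 y).le
  have hCb : C * (1 / 4) ^ b * (K * V 0 y) ≤ ε / 2 * (K * V 0 y) :=
    mul_le_mul_of_nonneg_right hbC hVn
  have h1 := (abs_le.1 hfund).1
  have h2 : (1 - ε) * (K * V 0 y) = K * V 0 y - ε / 2 * (K * V 0 y) - ε / 2 * (K * V 0 y) := by ring
  rw [h2]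
  refine le_trans ?_ hcard
  linarith

end Pool.Agent.Helper18.Sd
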