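import Pool.Agent.Helper18.Sd.Death
import Pool.Agent.Helper18.Sd.Medium
import Pool.Agent.Helper18.Sd.Small

/-!
SD-I. The upper bound for the density.

`a` from `small_surv (ε/4)`; `y = ⌊k^a⌋`, `w = k^3`, `q = V w x`. Constants: `V_lower`, `V_upper`: `R = V y w = V 0 w / V 0 y ≥ (c / (3 log k)) log y ≥ c a / 6 =: κ`.
Choose `η ∈ (0, 1]` with `κ^(3η) ≥ 1 - ε/4`; then `∏_(ps y w) (1 - (1+η)/p) ≥ R^(1+3η) ≥ (1 - ε/4) R` (`V_pow`, `y ≥ 4/η`).
`q = V 0 x / V 0 w ≤ 3 log k / (c log x)`, so `q (k/y + 1) ≤ η` as soon as `log x ≥ k^(1-c')`, `c' < a`, `k` large.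
`ex (pl w x) emp T ≤ exp(-q #T)` (`ex_emp_upper`), `ex (pl y w)` of this `≤ exp(-q (1-ε/4) R #T)` (`ex_medium`, monotonicity), and `ex (pl 0 y)` of
this `≤ exp(-q (1-ε/4) R (1-ε/4) k V 0 y)` (`ex_le_of_forall`, `small_surv`); `q R V 0 y = V 0 x` (`V_mul`); `(1-ε/4)^2 ≥ 1 - ε`.
For `ε ≥ 1`... the statement is weaker; one may assume `ε ≤ 1` (`min ε 1`).
-/

set_option autoImplicit false

namespace Pool.Agent.Helper18.Sd

open Finset

private theorem upper_ev_log (r M : ℝ) (hr : 0 < r) :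
    ∀ᶠ k : ℕ in Filter.atTop, M * Real.log k ≤ (k : ℝ) ^ r := by
  have h1 := (isLittleO_log_rpow_atTop hr).bound (show (0 : ℝ) < 1 / (|M| + 1) by positivity)
  have h2 := tendsto_natCast_atTop_atTop (R := ℝ) |>.eventually h1
  filter_upwards [h2] with k hk
  have h3 : (0 : ℝ) < |M| + 1 := by positivity
  have h4 : 0 ≤ (k : ℝ) ^ r := Real.rpow_nonneg (Nat.cast_nonneg k) r
  rw [Real.norm_of_nonneg h4, Real.norm_eq_abs] at hk
  have h5 : (|M| + 1) * |Real.log k| ≤ (k : ℝ) ^ r := by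
    have := mul_le_mul_of_nonneg_left hk h3.le
    refine this.trans (le_of_eq ?_)
    field_simp
  have h6 : M * Real.log k ≤ |M| * |Real.log k| := by
    rw [← abs_mul]
    exact le_abs_self _
  nlinarith [abs_nonneg (Real.log k)]

private theorem upper_ev_pow (r M : ℝ) (hr : 0 < r) :
    ∀ᶠ k : ℕ in Filter.atTop, M ≤ (k : ℝ) ^ r :=
  ((tendsto_rpow_atTop hr).comp (tendsto_natCast_atTop_atTop (R := ℝ))).eventually_ge_atTop M

/-- the deterministic part: everything once `y`, `q`, `R` are controlled -/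
private theorem upper_core (δ η : ℝ) (hδ1 : δ ≤ 1) (hη0 : 0 ≤ η) (hη1 : η ≤ 1)
    (k y x : ℕ) (hy : 1 ≤ y) (hyw : y ≤ k ^ 3) (hwx : k ^ 3 ≤ x)
    (hM : V (k ^ 3) x * ((k : ℝ) / y + 1) ≤ η)
    (hprod : (1 - δ) * V y (k ^ 3) ≤ ∏ p ∈ ps y (k ^ 3), (1 - (1 + η) / (p : ℝ)))
    (hs : ∀ r : ℕ → ℕ, (1 - δ) * (k * V 0 y) ≤
        (((Icc 1 k).filter (fun i => ∀ p ∈ pl 0 y, ¬ p ∣ r p + i)).card : ℝ)) :
    ex (pl 0 y ++ (pl y (k ^ 3) ++ pl (k ^ 3) x)) emp (Icc 1 k) ≤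
        Real.exp (-((1 - δ) ^ 2 * (k * V 0 x))) := by
  have hq : 0 < V (k ^ 3) x := V_pos _ _
  have hR : 0 < V y (k ^ 3) := V_pos _ _
  have hk3 : k ≤ k ^ 3 := Nat.le_self_pow (by norm_num) k
  set q := V (k ^ 3) x with hqdef
  set R := V y (k ^ 3) with hRdef
  have h2 : ∀ T ⊆ Icc 1 k, ex (pl y (k ^ 3) ++ pl (k ^ 3) x) emp T ≤
      Real.exp (-(q * ((1 - δ) * R) * T.card)) := by
    intro T hT
    rw [ex_append]
    have h3 : ex (pl y (k ^ 3)) (ex (pl (k ^ 3) x) emp) T ≤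
        ex (pl y (k ^ 3)) (fun T => Real.exp (-(q * T.card))) T :=
      ex_mono _ _ _ _ fun T' hT' => ex_emp_upper k (k ^ 3) x hk3 T' (hT'.trans hT)
    have h4 := ex_medium k y η q hη0 hη1 hq.le hy hM (pl y (k ^ 3))
      (fun p hp => ((mem_pl _ _ p).1 hp).1.1) T hT
    have h5 : ((pl y (k ^ 3)).map (fun p : ℕ => 1 - (1 + η) / (p : ℝ))).prod =
        ∏ p ∈ ps y (k ^ 3), (1 - (1 + η) / (p : ℝ)) := Finset.prod_map_toList _ _
    rw [h5] at h4
    refine h3.trans (h4.trans (Real.exp_le_exp.2 (neg_le_neg ?_)))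
    exact mul_le_mul_of_nonneg_right (mul_le_mul_of_nonneg_left hprod hq.le) (Nat.cast_nonneg _)
  rw [ex_append]
  have h6 : ex (pl 0 y) (ex (pl y (k ^ 3) ++ pl (k ^ 3) x) emp) (Icc 1 k) ≤
      ex (pl 0 y) (fun T => Real.exp (-(q * ((1 - δ) * R) * T.card))) (Icc 1 k) :=
    ex_mono _ _ _ _ h2
  refine h6.trans ?_
  apply ex_le_of_forall
  · intro p hp
    exact ((mem_pl _ _ p).1 hp).1.1
  · exact nodup_pl _ _
  · intro r
    apply Real.exp_le_exp.2
    apply neg_le_neg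
    have h7 := hs r
    have h8 : V 0 x = V 0 y * R * q := by
      rw [hRdef, hqdef, V_mul 0 y (k ^ 3) (Nat.zero_le _) hyw, V_mul 0 (k ^ 3) x (Nat.zero_le _) hwx]
    have h9 : 0 ≤ q * ((1 - δ) * R) := mul_nonneg hq.le (mul_nonneg (by linarith) hR.le)
    have h10 := mul_le_mul_of_nonneg_left h7 h9
    refine le_trans (le_of_eq ?_) h10
    rw [h8]
    ring

private theorem upper_aux (ε : ℝ) (hε : 0 < ε) (hε1 : ε ≤ 1) : ∃ c : ℝ, 0 < c ∧ ∃ k₀ : ℕ, ∀ k : ℕ, k₀ ≤ k →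
    ∀ x : ℕ, (k : ℝ) ^ (1 - c) ≤ Real.log x → ∃ y : ℕ, y ≤ k ^ 3 ∧ k ^ 3 ≤ x ∧
      ex (pl 0 y ++ (pl y (k ^ 3) ++ pl (k ^ 3) x)) emp (Icc 1 k) ≤
        Real.exp (-((1 - ε) * (k * V 0 x))) := by
  obtain ⟨δ, hδ⟩ : ∃ δ : ℝ, δ = ε / 4 := ⟨_, rfl⟩
  have hδ0 : 0 < δ := by rw [hδ]; positivity
  have hδ1 : δ ≤ 1 / 4 := by rw [hδ]; linarith
  obtain ⟨a, ha0, ha1, k₁, hsm⟩ := small_surv δ hδ0
  obtain ⟨c₀, hc₀, hVl⟩ := V_lower
  obtain ⟨κ, hκ⟩ : ∃ κ : ℝ, κ = min (c₀ * a / 6) (1 / 2) := ⟨_, rfl⟩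
  have hκ0 : 0 < κ := by rw [hκ]; exact lt_min (by positivity) (by norm_num)
  have hκ1 : κ < 1 := by rw [hκ]; exact (min_le_right _ _).trans_lt (by norm_num)
  have hlκ : Real.log κ < 0 := Real.log_neg hκ0 hκ1
  have hlδ : Real.log (1 - δ) < 0 := Real.log_neg (by linarith) (by linarith)
  obtain ⟨η, hη⟩ : ∃ η : ℝ, η = min 1 (Real.log (1 - δ) / (3 * Real.log κ)) := ⟨_, rfl⟩
  have hη0 : 0 < η := by
    rw [hη]
    exact lt_min one_pos (div_pos_of_neg_of_neg hlδ (by linarith))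
  have hη1 : η ≤ 1 := by rw [hη]; exact min_le_left _ _
  have hη2 : 1 - δ ≤ κ ^ (3 * η) := by
    have h1 : η ≤ Real.log (1 - δ) / (3 * Real.log κ) := by rw [hη]; exact min_le_right _ _
    have h2 : Real.log (1 - δ) ≤ Real.log κ * (3 * η) := by
      have h3 : η * (3 * Real.log κ) ≥ Real.log (1 - δ) / (3 * Real.log κ) * (3 * Real.log κ) :=
        mul_le_mul_of_nonpos_right h1 (by linarith)
      rw [div_mul_cancel₀ _ (by linarith : (3 * Real.log κ) ≠ 0)] at h3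
      linarith
    rw [Real.rpow_def_of_pos hκ0]
    calc 1 - δ = Real.exp (Real.log (1 - δ)) := (Real.exp_log (by linarith)).symm
      _ ≤ _ := Real.exp_le_exp.2 h2
  refine ⟨a / 2, by positivity, ?_⟩
  have e1 := upper_ev_pow a 4 ha0
  have e2 := upper_ev_pow a (4 / η + 1) ha0
  have e3 := upper_ev_log (a / 2) (9 / (c₀ * η)) (by positivity)
  have e4 := upper_ev_log (1 / 2) 3 (by norm_num)
  obtain ⟨k₀, hk₀⟩ := Filter.eventually_atTop.1 (((e1.and e2).and (e3.and e4)).and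
    ((Filter.eventually_ge_atTop k₁).and (Filter.eventually_ge_atTop 2)))
  refine ⟨k₀, fun k hk x hx => ?_⟩
  obtain ⟨⟨⟨h1, h2⟩, h3, h4⟩, h5, h6⟩ := hk₀ k hk
  have hk1 : (1 : ℝ) ≤ k := by exact_mod_cast (by omega : 1 ≤ k)
  have hk2 : (2 : ℝ) ≤ k := by exact_mod_cast h6
  have hk0 : (0 : ℝ) < k := by linarith
  have hLk : 0 < Real.log k := Real.log_pos (by linarith)
  obtain ⟨t, ht⟩ : ∃ t : ℝ, t = (k : ℝ) ^ a := ⟨_, rfl⟩
  obtain ⟨s, hs⟩ : ∃ s : ℝ, s = (k : ℝ) ^ (a / 2) := ⟨_, rfl⟩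
  have hs0 : 0 < s := by rw [hs]; exact Real.rpow_pos_of_pos hk0 _
  have hts : t = s * s := by
    rw [ht, hs, ← Real.rpow_add hk0]
    congr 1
    ring
  have htk : t ≤ k := by
    rw [ht]
    calc (k : ℝ) ^ a ≤ (k : ℝ) ^ (1 : ℝ) := Real.rpow_le_rpow_of_exponent_le hk1 ha1
      _ = k := Real.rpow_one _
  rw [← ht] at h1 h2
  rw [← hs] at h3
  have ht0 : 0 < t := by linarith
  obtain ⟨y, hy⟩ : ∃ y : ℕ, y = ⌊t⌋₊ := ⟨_, rfl⟩
  have hyt : (y : ℝ) ≤ t := by rw [hy]; exact Nat.floor_le ht0.le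
  have hyt' : t < y + 1 := by rw [hy]; exact Nat.lt_floor_add_one t
  have hyr : t / 2 ≤ y := by linarith
  have hy2r : (2 : ℝ) < y := by linarith
  have hy2 : 2 < y := by exact_mod_cast hy2r
  have hyw : y ≤ k ^ 3 := by
    have h7 : (y : ℝ) ≤ k := hyt.trans htk
    have h8 : y ≤ k := by exact_mod_cast h7
    exact h8.trans (Nat.le_self_pow (by norm_num) k)
  have hw2 : 2 ≤ k ^ 3 := by omega
  have hlogw : Real.log ((k ^ 3 : ℕ) : ℝ) = 3 * Real.log k := by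
    push_cast
    rw [Real.log_pow]
    norm_num
  -- the size of `x`
  have hxk : (k : ℝ) / s ≤ Real.log x := by
    refine le_trans (le_of_eq ?_) hx
    rw [Real.rpow_sub hk0, Real.rpow_one, hs]
  have hLx : 3 * Real.log k ≤ Real.log x := by
    refine h4.trans (le_trans ?_ hx)
    exact Real.rpow_le_rpow_of_exponent_le hk1 (by linarith)
  have hLx0 : 0 < Real.log x := by linarith
  have hx0 : 0 < x := by
    rcases Nat.eq_zero_or_pos x with h | h
    · rw [h] at hLx0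
      simp at hLx0
    · exact h
  have hwx : k ^ 3 ≤ x := by
    have h7 : Real.log ((k ^ 3 : ℕ) : ℝ) ≤ Real.log (x : ℝ) := by rw [hlogw]; exact hLx
    have h8 : ((k ^ 3 : ℕ) : ℝ) ≤ x :=
      (Real.log_le_log_iff (by exact_mod_cast (by omega : 0 < k ^ 3)) (by exact_mod_cast hx0)).1 h7
    exact_mod_cast h8
  have hx2 : 2 ≤ x := hw2.trans hwx
  -- Mertens
  have hLy : a / 2 * Real.log k ≤ Real.log y := by
    have h7 : Real.log (t / 2) ≤ Real.log y := Real.log_le_log (by positivity) hyr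
    have h8 : Real.log t = a * Real.log k := by rw [ht, Real.log_rpow hk0]
    have h9 : Real.log 4 ≤ Real.log t := Real.log_le_log (by norm_num) h1
    have h10 : Real.log 4 = 2 * Real.log 2 := by
      rw [show (4 : ℝ) = 2 ^ 2 by norm_num, Real.log_pow]
      norm_num
    have h11 : Real.log (t / 2) = Real.log t - Real.log 2 := Real.log_div ht0.ne' (by norm_num)
    linarith
  have hLy0 : 0 < Real.log y := lt_of_lt_of_le (by positivity) hLy
  have hV0y := V_upper y (by omega)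
  have hV0w := hVl (k ^ 3) hw2
  rw [hlogw] at hV0w
  have hV0x := V_upper x hx2
  have m1 := V_mul 0 y (k ^ 3) (Nat.zero_le _) hyw
  have m2 := V_mul 0 (k ^ 3) x (Nat.zero_le _) hwx
  have hR : κ ≤ V y (k ^ 3) := by
    have h7 : V 0 y * Real.log y ≤ 1 := by
      calc V 0 y * Real.log y ≤ 1 / Real.log y * Real.log y :=
            mul_le_mul_of_nonneg_right hV0y hLy0.le
        _ = 1 := by field_simp
    have h8 : c₀ * a / 6 ≤ V 0 (k ^ 3) * Real.log y := by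
      calc c₀ * a / 6 = c₀ / (3 * Real.log k) * (a / 2 * Real.log k) := by
            field_simp
            ring
        _ ≤ V 0 (k ^ 3) * Real.log y := mul_le_mul hV0w hLy (by positivity) (V_pos _ _).le
    have h9 : V 0 (k ^ 3) * Real.log y ≤ V y (k ^ 3) := by
      rw [← m1]
      have h10 := mul_le_mul_of_nonneg_left h7 (V_pos y (k ^ 3)).le
      linarith
    rw [hκ]
    exact (min_le_left _ _).trans (h8.trans h9)
  have hq : V (k ^ 3) x ≤ 3 * Real.log k * s / (c₀ * k) := by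
    have h7 : V (k ^ 3) x * (c₀ / (3 * Real.log k)) ≤ s / k := by
      calc V (k ^ 3) x * (c₀ / (3 * Real.log k)) ≤ V (k ^ 3) x * V 0 (k ^ 3) :=
            mul_le_mul_of_nonneg_left hV0w (V_pos _ _).le
        _ = V 0 x := by rw [mul_comm, m2]
        _ ≤ 1 / Real.log x := hV0x
        _ ≤ 1 / (k / s) := one_div_le_one_div_of_le (by positivity) hxk
        _ = s / k := by field_simp
    have h8 : V (k ^ 3) x = V (k ^ 3) x * (c₀ / (3 * Real.log k)) * (3 * Real.log k / c₀) := by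
      field_simp
    rw [h8]
    refine (mul_le_mul_of_nonneg_right h7 (by positivity)).trans (le_of_eq ?_)
    field_simp
  have hM : V (k ^ 3) x * ((k : ℝ) / y + 1) ≤ η := by
    have h7 : (k : ℝ) / y + 1 ≤ 3 * k / t := by
      have h8 : (k : ℝ) / y ≤ k / (t / 2) := div_le_div_of_nonneg_left hk0.le (by positivity) hyr
      have h9 : (1 : ℝ) ≤ k / t := by rw [le_div_iff₀ ht0]; linarith
      have h10 : (k : ℝ) / (t / 2) = 2 * (k / t) := by field_simp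
      have h11 : 3 * (k : ℝ) / t = 3 * (k / t) := by ring
      rw [h11]
      linarith
    calc V (k ^ 3) x * ((k : ℝ) / y + 1) ≤ (3 * Real.log k * s / (c₀ * k)) * (3 * k / t) :=
          mul_le_mul hq h7 (by positivity) (by positivity)
      _ = 9 / (c₀ * η) * Real.log k * (η / s) := by
          rw [hts]
          field_simp
          ring
      _ ≤ s * (η / s) := mul_le_mul_of_nonneg_right h3 (by positivity)
      _ = η := by field_simp
  have hprod : (1 - δ) * V y (k ^ 3) ≤ ∏ p ∈ ps y (k ^ 3), (1 - (1 + η) / (p : ℝ)) := by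
    have h7 := V_pow η hη0 hη1 y (k ^ 3) (by linarith)
    refine le_trans ?_ h7
    rw [Real.rpow_add (V_pos _ _), Real.rpow_one, mul_comm]
    apply mul_le_mul_of_nonneg_left _ (V_pos _ _).le
    exact hη2.trans (Real.rpow_le_rpow hκ0.le hR (by positivity))
  have hfin := upper_core δ η (by linarith) hη0.le hη1 k y x (by omega) hyw hwx hM hprod
    (hsm k h5 y (by rw [← ht]; exact hyt))
  refine ⟨y, hyw, hwx, hfin.trans (Real.exp_le_exp.2 (neg_le_neg ?_))⟩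
  apply mul_le_mul_of_nonneg_right _ (mul_nonneg hk0.le (V_pos _ _).le)
  have : ε = 4 * δ := by rw [hδ]; ring
  rw [this]
  nlinarith

theorem upper (ε : ℝ) (hε : 0 < ε) : ∃ c : ℝ, 0 < c ∧ ∃ k₀ : ℕ, ∀ k : ℕ, k₀ ≤ k → ∀ x : ℕ,
    (k : ℝ) ^ (1 - c) ≤ Real.log x → ∃ y : ℕ, y ≤ k ^ 3 ∧ k ^ 3 ≤ x ∧
      ex (pl 0 y ++ (pl y (k ^ 3) ++ pl (k ^ 3) x)) emp (Icc 1 k) ≤
        Real.exp (-((1 - ε) * (k * V 0 x))) := by
  obtain ⟨c, hc, k₀, h⟩ := upper_aux (min ε 1) (lt_min hε one_pos) (min_le_right _ _)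
  refine ⟨c, hc, k₀, fun k hk x hx => ?_⟩
  obtain ⟨y, h1, h2, h3⟩ := h k hk x hx
  refine ⟨y, h1, h2, h3.trans (Real.exp_le_exp.2 (neg_le_neg ?_))⟩
  apply mul_le_mul_of_nonneg_right _ (mul_nonneg (Nat.cast_nonneg k) (V_pos _ _).le)
  have := min_le_left ε 1
  linarith

end Pool.Agent.Helper18.Sd
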