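import Pool.Agent.Helper18.Sd.Crt
import Pool.Agent.Helper18.Sd.Lower
import Pool.Agent.Helper18.Sd.Upper

/-! SD-J. The density of `A(x,k)`. -/

set_option autoImplicit false

namespace Pool.Agent.Helper18.Sd

open Finset Filter Topology

theorem pl_append (y z x : ℕ) (h1 : y ≤ z) (h2 : z ≤ x) : (pl y z ++ pl z x).Perm (pl y x) := by
  have hnd : (pl y z ++ pl z x).Nodup := by
    rw [List.nodup_append]
    refine ⟨nodup_pl y z, nodup_pl z x, ?_⟩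
    intro a ha b hb hab
    rw [mem_pl] at ha hb
    omega
  rw [List.perm_ext_iff_of_nodup hnd (nodup_pl y x)]
  intro a
  rw [List.mem_append, mem_pl, mem_pl, mem_pl]
  constructor
  · rintro (⟨⟨h3, h4⟩, h5⟩ | ⟨⟨h3, h4⟩, h5⟩)
    · exact ⟨⟨h3, by omega⟩, h5⟩
    · exact ⟨⟨by omega, h4⟩, h5⟩
  · rintro ⟨⟨h3, h4⟩, h5⟩
    by_cases h6 : a ≤ z
    · left; exact ⟨⟨h3, h6⟩, h5⟩
    · right; exact ⟨⟨by omega, h4⟩, h5⟩

theorem ev_pow_log (C : ℝ) : ∃ k₀ : ℕ, ∀ k : ℕ, k₀ ≤ k → C * Real.log k ≤ (k : ℝ) ^ (1 / 2 : ℝ) := by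
  have h := (isLittleO_log_rpow_atTop (r := 1 / 2) (by norm_num)).bound
    (c := 1 / (|C| + 1)) (by positivity)
  have h1 := tendsto_natCast_atTop_atTop.eventually h
  obtain ⟨k₀, hk₀⟩ := eventually_atTop.mp h1
  refine ⟨max k₀ 1, fun k hk => ?_⟩
  have h2 := hk₀ k ((le_max_left _ _).trans hk)
  have hk1 : 1 ≤ k := (le_max_right _ _).trans hk
  have hk1' : (1 : ℝ) ≤ k := by exact_mod_cast hk1
  have hl : 0 ≤ Real.log k := Real.log_nonneg hk1'
  rw [Real.norm_of_nonneg hl, Real.norm_of_nonneg (by positivity), div_mul_eq_mul_div, one_mul,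
    le_div_iff₀ (by positivity)] at h2
  calc C * Real.log k ≤ (|C| + 1) * Real.log k :=
        mul_le_mul_of_nonneg_right (by linarith [le_abs_self C]) hl
    _ = Real.log k * (|C| + 1) := by ring
    _ ≤ _ := h2

theorem density_main (ε : ℝ) (hε : 0 < ε) : ∃ c : ℝ, 0 < c ∧ ∃ k₀ : ℕ, ∀ k : ℕ, k₀ ≤ k → ∀ x : ℕ,
    (k : ℝ) ^ (1 - c) ≤ Real.log x →
      Real.exp (-((1 + ε) * (k * V 0 x))) ≤ ex (pl 0 x) emp (Icc 1 k) ∧
      ex (pl 0 x) emp (Icc 1 k) ≤ Real.exp (-((1 - ε) * (k * V 0 x))) := by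
  obtain ⟨C, hC3, kL, hL⟩ := lower ε hε
  obtain ⟨cU, hcU, kU, hU⟩ := upper ε hε
  obtain ⟨kP, hP⟩ := ev_pow_log C
  refine ⟨min cU (1 / 2), lt_min hcU (by norm_num), max (max kL kU) (max kP 1), ?_⟩
  intro k hk x hx
  have hkL : kL ≤ k := ((le_max_left _ _).trans (le_max_left _ _)).trans hk
  have hkU : kU ≤ k := ((le_max_right _ _).trans (le_max_left _ _)).trans hk
  have hkP : kP ≤ k := ((le_max_left _ _).trans (le_max_right _ _)).trans hk
  have hk1 : 1 ≤ k := ((le_max_right _ _).trans (le_max_right _ _)).trans hk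
  have hk1' : (1 : ℝ) ≤ k := by exact_mod_cast hk1
  have h1 : (k : ℝ) ^ (1 - cU) ≤ Real.log x :=
    (Real.rpow_le_rpow_of_exponent_le hk1' (by linarith [min_le_left cU (1 / 2)])).trans hx
  have h2 : C * Real.log k ≤ Real.log x := by
    refine (hP k hkP).trans (le_trans ?_ hx)
    exact Real.rpow_le_rpow_of_exponent_le hk1' (by linarith [min_le_right cU (1 / 2)])
  obtain ⟨hw, h3⟩ := hL k hkL x h2
  obtain ⟨y, hy, _, h4⟩ := hU k hkU x h1
  have hpr : ∀ a b : ℕ, ∀ p ∈ pl a b, p.Prime := fun a b p hp => ((mem_pl a b p).mp hp).2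
  have p1 := pl_append 0 (k ^ 3) x (Nat.zero_le _) hw
  have p2 : (pl 0 y ++ (pl y (k ^ 3) ++ pl (k ^ 3) x)).Perm (pl 0 x) :=
    ((pl_append y (k ^ 3) x hy hw).append_left (pl 0 y)).trans (pl_append 0 y x (Nat.zero_le _) (hy.trans hw))
  have e1 := ex_perm _ _ p1.symm (hpr 0 x) (nodup_pl 0 x) (Icc 1 k)
  have e2 := ex_perm _ _ p2.symm (hpr 0 x) (nodup_pl 0 x) (Icc 1 k)
  refine ⟨?_, ?_⟩
  · rw [e1]; exact h3
  · rw [e2]; exact h4

end Pool.Agent.Helper18.Sd
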