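import Mathlib

/-!
Counting lemma for SE-1: the `i ∈ [1, k]` with `q ∣ n + i` and `n + i` coprime to `10` (`q` coprime to `10`).
-/

set_option autoImplicit false

namespace Pool.Agent.Helper18.Sd

open Finset

/-- number of the `m < N` coprime to `10` -/
def cph (N : ℕ) : ℕ := Nat.count (fun m => m.Coprime 10) N

theorem cph_add (N : ℕ) : cph (10 + N) = 4 + cph N := by
  unfold cph
  rw [Nat.count_add]
  have h1 : Nat.count (fun m : ℕ => m.Coprime 10) 10 = 4 := by decide +kernel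
  rw [h1]
  congr 1
  have h2 : (fun m : ℕ => (10 + m).Coprime 10) = fun m : ℕ => m.Coprime 10 := by
    funext m
    simp
  simp only [h2]

theorem cph_bd (N : ℕ) : 5 * cph N ≤ 2 * N + 2 ∧ 2 * N ≤ 5 * cph N + 4 := by
  induction N using Nat.strong_induction_on with
  | _ N ih =>
    rcases Nat.lt_or_ge N 10 with h | h
    · have : ∀ M < 10, 5 * cph M ≤ 2 * M + 2 ∧ 2 * M ≤ 5 * cph M + 4 := by
        unfold cph
        decide +kernel
      exact this N h
    · obtain ⟨M, rfl⟩ := Nat.exists_eq_add_of_le h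
      have h1 := ih M (by omega)
      rw [cph_add]
      omega

theorem cph_Ioc (a b : ℕ) (h : a ≤ b) :
    ((Ioc a b).filter (fun m => m.Coprime 10)).card + cph (a + 1) = cph (b + 1) := by
  unfold cph
  rw [Nat.count_eq_card_filter_range, Nat.count_eq_card_filter_range, ← Finset.card_union_of_disjoint]
  · congr 1
    ext m
    simp only [mem_union, mem_filter, mem_Ioc, mem_range]
    constructor
    · rintro (⟨h1, h2⟩ | ⟨h1, h2⟩)
      · exact ⟨by omega, h2⟩
      · exact ⟨by omega, h2⟩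
    · rintro ⟨h1, h2⟩
      rcases Nat.lt_or_ge a m with h3 | h3
      · exact Or.inl ⟨by omega, h2⟩
      · exact Or.inr ⟨by omega, h2⟩
  · rw [Finset.disjoint_left]
    intro m h1 h2
    rw [mem_filter, mem_Ioc] at h1
    rw [mem_filter, mem_range] at h2
    omega

theorem cop_bij (n k q : ℕ) (hq : 0 < q) (hc : q.Coprime 10) :
    (((Icc 1 k).filter (fun i => (n + i).Coprime 10)).filter (fun i => q ∣ n + i)).card =
      ((Ioc (n / q) ((n + k) / q)).filter (fun m => m.Coprime 10)).card := by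
  refine Finset.card_nbij' (fun i => (n + i) / q) (fun m => q * m - n) ?_ ?_ ?_ ?_
  · intro i hi
    rw [mem_coe, mem_filter, mem_filter, mem_Icc] at hi
    obtain ⟨⟨⟨h1, h2⟩, h3⟩, m, hm⟩ := hi
    rw [mem_coe, mem_filter, mem_Ioc]
    simp only
    rw [hm, Nat.mul_div_cancel_left m hq]
    refine ⟨⟨?_, ?_⟩, ?_⟩
    · rw [Nat.div_lt_iff_lt_mul hq, mul_comm]
      omega
    · rw [Nat.le_div_iff_mul_le hq, mul_comm]
      omega
    · rw [hm] at h3
      exact Nat.Coprime.coprime_mul_left h3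
  · intro m hm
    rw [mem_coe, mem_filter, mem_Ioc, Nat.div_lt_iff_lt_mul hq, Nat.le_div_iff_mul_le hq,
      mul_comm m q] at hm
    obtain ⟨⟨h1, h2⟩, h3⟩ := hm
    rw [mem_coe, mem_filter, mem_filter, mem_Icc]
    have h4 : n + (q * m - n) = q * m := by omega
    simp only
    rw [h4]
    exact ⟨⟨⟨by omega, by omega⟩, Nat.Coprime.mul_left hc h3⟩, dvd_mul_right q m⟩
  · intro i hi
    rw [mem_coe, mem_filter, mem_filter, mem_Icc] at hi
    obtain ⟨⟨⟨h1, h2⟩, h3⟩, m, hm⟩ := hi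
    simp only
    rw [hm, Nat.mul_div_cancel_left m hq]
    omega
  · intro m hm
    rw [mem_coe, mem_filter, mem_Ioc, Nat.div_lt_iff_lt_mul hq, Nat.le_div_iff_mul_le hq,
      mul_comm m q] at hm
    obtain ⟨⟨h1, h2⟩, h3⟩ := hm
    have h4 : n + (q * m - n) = q * m := by omega
    simp only
    rw [h4, Nat.mul_div_cancel_left m hq]

theorem cop_count (n k q : ℕ) (hq : 0 < q) (hc : q.Coprime 10) :
    |((((Icc 1 k).filter (fun i => (n + i).Coprime 10)).filter (fun i => q ∣ n + i)).card : ℝ) -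
      (2 / 5 * (k : ℝ)) / q| ≤ 4 := by
  rw [cop_bij n k q hq hc]
  have hab : n / q ≤ (n + k) / q := Nat.div_le_div_right (by omega)
  have h1 := cph_Ioc (n / q) ((n + k) / q) hab
  have h2 := cph_bd (n / q + 1)
  have h3 := cph_bd ((n + k) / q + 1)
  set N := ((Ioc (n / q) ((n + k) / q)).filter (fun m => m.Coprime 10)).card with hN
  have e1 : q * (n / q) ≤ n := Nat.mul_div_le n q
  have e2 : n < q * (n / q + 1) := Nat.lt_mul_div_succ n hq
  have e3 : q * ((n + k) / q) ≤ n + k := Nat.mul_div_le (n + k) q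
  have e4 : n + k < q * ((n + k) / q + 1) := Nat.lt_mul_div_succ (n + k) hq
  generalize n / q = a at *
  generalize (n + k) / q = b at *
  have hqR : (0 : ℝ) < q := by exact_mod_cast hq
  have f1 : (q : ℝ) * a ≤ n := by exact_mod_cast e1
  have f2 : (n : ℝ) < q * (a + 1) := by exact_mod_cast e2
  have f3 : (q : ℝ) * b ≤ n + k := by exact_mod_cast e3
  have f4 : (n : ℝ) + k < q * (b + 1) := by exact_mod_cast e4
  have g1 : 5 * N ≤ 2 * (b + 1) + 2 + 4 - 2 * (a + 1) := by omega
  have g2 : 2 * (b + 1) ≤ 5 * N + 2 * (a + 1) + 6 := by omega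
  have g1' : 5 * N + 2 * (a + 1) ≤ 2 * (b + 1) + 6 := by omega
  have g3 : 5 * (N : ℝ) + 2 * (a + 1) ≤ 2 * (b + 1) + 6 := by exact_mod_cast g1'
  have g4 : 2 * ((b : ℝ) + 1) ≤ 5 * N + 2 * (a + 1) + 6 := by exact_mod_cast g2
  have k1 : (k : ℝ) / q < b - a + 1 := by
    rw [div_lt_iff₀ hqR]
    nlinarith
  have k2 : (b : ℝ) - a - 1 < k / q := by
    rw [lt_div_iff₀ hqR]
    nlinarith
  rw [mul_div_assoc, abs_le]
  constructor <;> linarith

end Pool.Agent.Helper18.Sd
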