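import Pool.Agent.Helper18.Sd.Mert
import Pool.Agent.Helper10.EN.S10
import Pool.Agent.Helper18.Sd.HalfX

/-!
SE-1. Arbitrary classes modulo all primes up to `k^0.491` leave at least `c k / log k` elements of `[1, k]`.

Let `n` be a solution of `n ≡ r p (mod p)` for all primes `p ≤ y` (CRT; `pl 0 y`, `mem_pl`), so `p ∣ r p + i ↔ p ∣ n + i`. Apply the linear sieve tables
`Pool.Agent.Helper10.EN.tabs` (second half, `k = 254`: `LoH (qn B5 254 / SC) (254/125)`, `qn B5 254 = 605041`, `SC = 40000000`, both by `decide +kernel`;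
`LoH` is defined in `Helper10/EN/S1.lean`, see `LoH_iff`; `sift`, `PP`, `zf`: `sift E F z` = the `e ∈ E` with `p ∤ F e` for the primes `p < z`, `p ∤ 10`; `zf x = ⌊exp x⌋₊ + 1`) with
`E = {i ∈ Icc 1 k : n + i coprime to 10}`, `F i = n + i`, `X = (2/5) k`, `r q = 4` (for `q` coprime to `10` the `i ≤ k` with `q ∣ n + i` and `n + i` coprime to `10` lie in 4 classes
modulo `10 q`, so their number is `4 k / (10 q)` up to `4`), `lam = 0.999 log k` (so `exp (lam / s) = k^(0.999/2.032) ≥ k^0.491`), `ε = 0.01`: the number of the `i` is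
`≥ (2/5) k / ((2/5) lam) · 0.005 - lam^j · errK j r ⌊2 exp lam⌋₊`, and `errK j 4 Q ≤ 4 Q ∑_(q ≤ Q) tau(q)^j / q ≤ 4 Q (1 + log Q)^(2^j)` (`hsum_le` of `Helper10/DivBound.lean`), which is
`≤ 8 k^0.999 (log k + 2)^(j + 2^j) = o(k / log k)`. The elements found have no prime factor `≤ y` at all (`2`, `5` included).
-/

set_option autoImplicit false

namespace Pool.Agent.Helper18.Sd

open Finset

private theorem sh_asym (N : ℕ) (L : ℝ)
    (hL : 4000 * 2 ^ N * (Nat.factorial (N + 1) : ℝ) * 1000 ^ (N + 1) ≤ L) :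
    4000 * (2 * L) ^ N ≤ Real.exp (0.001 * L) := by
  have hL0 : 0 ≤ L := le_trans (by positivity) hL
  have h1 := Real.pow_div_factorial_le_exp (0.001 * L) (by positivity) (N + 1)
  refine le_trans ?_ h1
  rw [le_div_iff₀ (by positivity)]
  have h2 : (0.001 * L) ^ (N + 1) * 1000 ^ (N + 1) = L ^ N * L := by
    rw [← mul_pow, show 0.001 * L * 1000 = L by ring, pow_succ]
  have h3 : 4000 * (2 * L) ^ N * (Nat.factorial (N + 1) : ℝ) * 1000 ^ (N + 1) ≤
      (0.001 * L) ^ (N + 1) * 1000 ^ (N + 1) := by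
    rw [h2]
    calc 4000 * (2 * L) ^ N * (Nat.factorial (N + 1) : ℝ) * 1000 ^ (N + 1)
        = L ^ N * (4000 * 2 ^ N * (Nat.factorial (N + 1) : ℝ) * 1000 ^ (N + 1)) := by
          rw [mul_pow]; ring
      _ ≤ L ^ N * L := mul_le_mul_of_nonneg_left hL (by positivity)
  exact le_of_mul_le_mul_right h3 (by positivity)

private theorem sh_err (j : ℕ) (Q : ℕ) (hQ : 1 ≤ Q) :
    Pool.Agent.Helper10.EN.errK j (fun _ => 4) Q ≤
      4 * Q * (1 + Real.log Q) ^ (2 ^ j) := by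
  unfold Pool.Agent.Helper10.EN.errK
  have h1 : ∑ q ∈ (Icc 1 Q).filter (fun q => q.Coprime 10),
      ((Pool.Agent.Helper10.tau q : ℝ)) ^ j * 4 ≤
      ∑ q ∈ Icc 1 Q, ((Pool.Agent.Helper10.tau q : ℝ)) ^ j * 4 := by
    apply Finset.sum_le_sum_of_subset_of_nonneg (Finset.filter_subset _ _)
    intro q _ _
    positivity
  refine h1.trans ?_
  have h2 : ∑ q ∈ Icc 1 Q, ((Pool.Agent.Helper10.tau q : ℝ)) ^ j * 4 ≤
      4 * Q * Pool.Agent.Helper10.hsum j Q := by
    unfold Pool.Agent.Helper10.hsum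
    rw [Finset.mul_sum]
    apply Finset.sum_le_sum
    intro q hq
    rw [mem_Icc] at hq
    have hq0 : (0 : ℝ) < q := by exact_mod_cast (by omega : 0 < q)
    have hqQ : (q : ℝ) ≤ Q := by exact_mod_cast hq.2
    rw [mul_div_assoc', le_div_iff₀ hq0]
    have h3 : (0 : ℝ) ≤ (Pool.Agent.Helper10.tau q : ℝ) ^ j := by positivity
    nlinarith [mul_le_mul_of_nonneg_left hqQ h3]
  exact h2.trans (mul_le_mul_of_nonneg_left (Pool.Agent.Helper10.hsum_le j Q hQ) (by positivity))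

private theorem sh_LoH : Pool.Agent.Helper10.EN.LoH 0.015 (254 / 125) := by
  have h1 := Pool.Agent.Helper10.EN.tabs.2 254 (by norm_num) (by norm_num)
  have h2 : (((254 : ℕ) : ℝ) / ((125 : ℕ) : ℝ)) = 254 / 125 := by norm_num
  rw [h2] at h1
  refine Pool.Agent.Helper10.EN.LoH_weaken _ _ _ ?_ h1
  have h3 : Pool.Agent.Helper10.EN.TB.qn Pool.Agent.Helper10.EN.TB.B5 254 = 605041 := by
    decide +kernel
  rw [h3]
  unfold Pool.Agent.Helper10.EN.TB.SC
  norm_num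

theorem small_half : ∃ c : ℝ, 0 < c ∧ ∃ k₀ : ℕ, ∀ k : ℕ, k₀ ≤ k →
    ∀ y : ℕ, (y : ℝ) ≤ (k : ℝ) ^ (0.491 : ℝ) → ∀ r : ℕ → ℕ,
      c * (k / Real.log k) ≤
        (((Icc 1 k).filter (fun i => ∀ p ∈ ps 0 y, ¬ p ∣ r p + i)).card : ℝ) := by
  obtain ⟨j, Λ, hΛ⟩ := sh_LoH 0.01 (by norm_num)
  obtain ⟨N, hN⟩ : ∃ N : ℕ, N = j + 1 + 2 ^ j := ⟨_, rfl⟩
  obtain ⟨T, hT⟩ : ∃ T : ℝ, T = 4000 * 2 ^ N * (Nat.factorial (N + 1) : ℝ) * 1000 ^ (N + 1) +
      |Λ| * 2 + 10 := ⟨_, rfl⟩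
  refine ⟨0.001, by norm_num, ⌈Real.exp T⌉₊, ?_⟩
  intro k hk y hy r
  have hkT : Real.exp T ≤ k := (Nat.le_ceil _).trans (by exact_mod_cast hk)
  have hk0 : (0 : ℝ) < k := (Real.exp_pos T).trans_le hkT
  obtain ⟨L, hL⟩ : ∃ L : ℝ, L = Real.log k := ⟨_, rfl⟩
  have hkL : (k : ℝ) = Real.exp L := by rw [hL, Real.exp_log hk0]
  have hTL : T ≤ L := by
    rw [hL]
    exact (Real.le_log_iff_exp_le hk0).2 hkT
  have hpos : (0 : ℝ) ≤ 4000 * 2 ^ N * (Nat.factorial (N + 1) : ℝ) * 1000 ^ (N + 1) := by positivity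
  have habs : Λ ≤ |Λ| := le_abs_self Λ
  have habs0 : 0 ≤ |Λ| := abs_nonneg Λ
  have hL10 : 10 ≤ L := by linarith
  have hLΛ : Λ ≤ 0.999 * L := by linarith
  have hLN : 4000 * 2 ^ N * (Nat.factorial (N + 1) : ℝ) * 1000 ^ (N + 1) ≤ L := by linarith
  -- CRT
  obtain ⟨n, hn⟩ : ∃ n : ℕ, ∀ p ∈ ps 0 y, n ≡ r p [MOD p] := by
    have hp : ∀ p ∈ ps 0 y, p.Prime := by
      intro p hp
      unfold ps at hp
      exact (mem_filter.1 hp).2
    have hc := Nat.chineseRemainderOfFinset r (fun p => p) (ps 0 y)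
      (fun p h => (hp p h).ne_zero) (by
        intro p h q h' hpq
        exact (Nat.coprime_primes (hp p h) (hp q h')).2 hpq)
    exact ⟨hc.1, hc.2⟩
  have hdvd : ∀ p ∈ ps 0 y, ∀ i, (p ∣ r p + i ↔ p ∣ n + i) := by
    intro p hp i
    have h1 : n + i ≡ r p + i [MOD p] := Nat.ModEq.add_right i (hn p hp)
    exact (Nat.ModEq.dvd_iff h1 dvd_rfl).symm
  -- the sieve
  have hS : Pool.Agent.Helper10.EN.SX ((Icc 1 k).filter (fun i => (n + i).Coprime 10))
      (fun i => n + i) (2 / 5 * (k : ℝ)) (fun _ => 4) :=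
    { X0 := by positivity
      r0 := fun _ => by norm_num
      hr := fun q hq hc => cop_count n k q hq hc }
  have h1 := hΛ (0.999 * L) hLΛ ℕ _ _ _ _ hS
  have h2 : (((Pool.Agent.Helper10.P5.sift ((Icc 1 k).filter (fun i => (n + i).Coprime 10))
      (fun i => n + i) (Pool.Agent.Helper10.P3.zf (0.999 * L / (254 / 125)))).card : ℕ) : ℝ) ≤
      (((Icc 1 k).filter (fun i => ∀ p ∈ ps 0 y, ¬ p ∣ r p + i)).card : ℝ) := by
    have : (Pool.Agent.Helper10.P5.sift ((Icc 1 k).filter (fun i => (n + i).Coprime 10))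
      (fun i => n + i) (Pool.Agent.Helper10.P3.zf (0.999 * L / (254 / 125)))) ⊆
      (Icc 1 k).filter (fun i => ∀ p ∈ ps 0 y, ¬ p ∣ r p + i) := by
      intro i hi
      unfold Pool.Agent.Helper10.P5.sift at hi
      rw [mem_filter, mem_filter] at hi
      obtain ⟨⟨hi1, hi2⟩, hi3⟩ := hi
      rw [mem_filter]
      refine ⟨hi1, fun p hp hdv => ?_⟩
      rw [hdvd p hp] at hdv
      have hp' := hp
      unfold ps at hp'
      rw [mem_filter, mem_Ioc] at hp'
      obtain ⟨⟨hp0, hpy⟩, hpp⟩ := hp'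
      by_cases hc : p.Coprime 10
      · apply hi3 p _ hdv
        rw [Pool.Agent.Helper10.mem_PP]
        refine ⟨?_, hpp, hc⟩
        unfold Pool.Agent.Helper10.P3.zf
        rw [Nat.lt_succ_iff]
        apply Nat.le_floor
        have h3 : (p : ℝ) ≤ (k : ℝ) ^ (0.491 : ℝ) := le_trans (by exact_mod_cast hpy) hy
        refine h3.trans ?_
        rw [hkL, ← Real.exp_mul]
        apply Real.exp_le_exp.2
        linarith
      · rw [Nat.Prime.coprime_iff_not_dvd hpp, not_not] at hc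
        have h3 : p ∣ Nat.gcd (n + i) 10 := Nat.dvd_gcd hdv hc
        rw [Nat.Coprime] at hi2
        rw [hi2] at h3
        exact hpp.one_lt.ne' (Nat.dvd_one.1 h3)
    exact_mod_cast Finset.card_le_card this
  refine le_trans ?_ (h1.trans h2)
  -- the error
  obtain ⟨Q, hQ⟩ : ∃ Q : ℕ, Q = ⌊2 * Real.exp (0.999 * L)⌋₊ := ⟨_, rfl⟩
  rw [← hQ]
  have hexp1 : (1 : ℝ) ≤ Real.exp (0.999 * L) := Real.one_le_exp (by linarith)
  have hQ1 : 1 ≤ Q := by
    rw [hQ]
    apply Nat.le_floor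
    push_cast
    linarith
  have hQle : (Q : ℝ) ≤ 2 * Real.exp (0.999 * L) := by
    rw [hQ]
    exact Nat.floor_le (by positivity)
  have hQ0 : (0 : ℝ) < Q := by exact_mod_cast hQ1
  have hlogQ : Real.log Q ≤ L + 1 := by
    have h3 : Real.log Q ≤ Real.log (2 * Real.exp (0.999 * L)) := Real.log_le_log hQ0 hQle
    rw [Real.log_mul (by norm_num) (Real.exp_pos _).ne', Real.log_exp] at h3
    have h4 := Real.log_two_lt_d9
    linarith
  have hlogQ0 : 0 ≤ Real.log Q := Real.log_natCast_nonneg Q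
  have hE : Pool.Agent.Helper10.EN.errK j (fun _ => 4) Q ≤
      8 * Real.exp (0.999 * L) * (2 * L) ^ (2 ^ j) := by
    refine (sh_err j Q hQ1).trans ?_
    have h3 : (1 + Real.log Q) ^ (2 ^ j) ≤ (2 * L) ^ (2 ^ j) :=
      pow_le_pow_left₀ (by linarith) (by linarith) _
    have h4 : 4 * (Q : ℝ) ≤ 8 * Real.exp (0.999 * L) := by linarith
    exact mul_le_mul h4 h3 (by positivity) (by positivity)
  have hE2 : (0.999 * L) ^ j * Pool.Agent.Helper10.EN.errK j (fun _ => 4) Q ≤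
      0.001 * (k / L) := by
    have hLpos : 0 < L := by linarith
    have h3 : (0.999 * L) ^ j ≤ (2 * L) ^ j := pow_le_pow_left₀ (by linarith) (by linarith) _
    have h4 : (0.999 * L) ^ j * Pool.Agent.Helper10.EN.errK j (fun _ => 4) Q ≤
        (2 * L) ^ j * (8 * Real.exp (0.999 * L) * (2 * L) ^ (2 ^ j)) :=
      mul_le_mul h3 hE (Pool.Agent.Helper10.EN.errK_nonneg j _ (fun _ => by norm_num) Q)
        (by positivity)
    have h5 := sh_asym N L hLN
    have h6 : (k : ℝ) = Real.exp (0.999 * L) * Real.exp (0.001 * L) := by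
      rw [← Real.exp_add, hkL]
      congr 1
      ring
    refine h4.trans ?_
    rw [mul_div_assoc', le_div_iff₀ hLpos, h6]
    have h7 : (2 * L) ^ j * (8 * Real.exp (0.999 * L) * (2 * L) ^ (2 ^ j)) * L =
        0.001 * (Real.exp (0.999 * L) * (4000 * (2 * L) ^ N)) := by
      rw [hN, pow_add, pow_add, pow_one]
      ring
    rw [h7]
    apply mul_le_mul_of_nonneg_left _ (by norm_num)
    exact mul_le_mul_of_nonneg_left h5 (Real.exp_pos _).le
  have hM : 0.005 * ((k : ℝ) / L) ≤ 2 / 5 * (k : ℝ) / (2 / 5 * (0.999 * L)) * (0.015 - 0.01) := by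
    have hLpos : 0 < L := by linarith
    have h3 : (k : ℝ) / L ≤ 2 / 5 * (k : ℝ) / (2 / 5 * (0.999 * L)) := by
      rw [div_le_div_iff₀ hLpos (by positivity)]
      nlinarith
    have h4 : (0 : ℝ) ≤ (k : ℝ) / L := by positivity
    linarith
  have h4 : (0 : ℝ) ≤ (k : ℝ) / L := by
    have hLpos : 0 < L := by linarith
    positivity
  rw [← hL]
  linarith

end Pool.Agent.Helper18.Sd
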