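import Pool.Agent.Helper18.Sd.Maier

/-!
MA-8. The exact range of the law `density of A(x,k) = exp(-(1 + o(1)) e^(-γ) k / log x)`.
-/

set_option autoImplicit false

namespace Pool.Agent.Helper18.Sd

open Finset Filter Topology

theorem V_lim : Tendsto (fun x : ℕ => V 0 x * Real.log x) atTop
    (𝓝 (Real.exp (-Real.eulerMascheroniConstant))) := by
  refine Helper32.M3.mertens_three.congr ?_
  intro n
  congr 1

theorem law_V (x : ℕ → ℕ) (hx : Tendsto (fun k : ℕ => Real.log (x k) / Real.log k) atTop atTop) :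
    Tendsto (fun k : ℕ => Real.log (ex (pl 0 (x k)) emp (Icc 1 k)) / (k * V 0 (x k))) atTop (𝓝 (-1)) ↔
      ∀ b : ℝ, 0 < b → ∀ᶠ k : ℕ in atTop, (k : ℝ) ^ (1 - b) ≤ Real.log (x k) := by
  have hkV : ∀ k : ℕ, 1 ≤ k → 0 < (k : ℝ) * V 0 (x k) := fun k hk =>
    mul_pos (by exact_mod_cast (by omega : 0 < k)) (V_pos _ _)
  constructor
  · intro h b hb
    obtain ⟨δ, hδ, C, k₀, hM⟩ := maier b hb
    have h1 : ∀ᶠ k : ℕ in atTop,
        Real.log (ex (pl 0 (x k)) emp (Icc 1 k)) / (k * V 0 (x k)) < -1 + δ :=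
      h.eventually_lt_const (by linarith)
    filter_upwards [h1, hx.eventually_ge_atTop C, eventually_ge_atTop k₀, eventually_ge_atTop 2]
      with k h2 h3 h4 h5
    by_contra hcon
    push Not at hcon
    have hk2 : (2 : ℝ) ≤ k := by exact_mod_cast h5
    have hLk : 0 < Real.log k := Real.log_pos (by linarith)
    rw [le_div_iff₀ hLk] at h3
    have h6 := hM k h4 (x k) h3 hcon.le
    have h7 : -((1 - δ) * (k * V 0 (x k))) ≤ Real.log (ex (pl 0 (x k)) emp (Icc 1 k)) := by
      have h8 := Real.log_le_log (Real.exp_pos _) h6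
      rwa [Real.log_exp] at h8
    have h9 := hkV k (by omega)
    rw [div_lt_iff₀ h9] at h2
    linarith
  · intro h
    rw [Metric.tendsto_atTop]
    intro ε hε
    obtain ⟨c, hc, k₀, hD⟩ := density_main (ε / 2) (by positivity)
    obtain ⟨k₁, hk₁⟩ := Filter.eventually_atTop.1 ((h c hc).and
      ((eventually_ge_atTop k₀).and (eventually_ge_atTop 1)))
    refine ⟨k₁, fun k hk => ?_⟩
    obtain ⟨h1, h2, h3⟩ := hk₁ k hk
    obtain ⟨h4, h5⟩ := hD k h2 (x k) h1
    have h9 := hkV k h3
    have h6 : -((1 + ε / 2) * (k * V 0 (x k))) ≤ Real.log (ex (pl 0 (x k)) emp (Icc 1 k)) := by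
      have h8 := Real.log_le_log (Real.exp_pos _) h4
      rwa [Real.log_exp] at h8
    have h7 : Real.log (ex (pl 0 (x k)) emp (Icc 1 k)) ≤ -((1 - ε / 2) * (k * V 0 (x k))) := by
      have h8 := Real.log_le_log ((Real.exp_pos _).trans_le h4) h5
      rwa [Real.log_exp] at h8
    rw [Real.dist_eq, abs_lt]
    have h10 : -(1 + ε / 2) ≤ Real.log (ex (pl 0 (x k)) emp (Icc 1 k)) / (k * V 0 (x k)) := by
      rw [le_div_iff₀ h9]
      linarith
    have h11 : Real.log (ex (pl 0 (x k)) emp (Icc 1 k)) / (k * V 0 (x k)) ≤ -(1 - ε / 2) := by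
      rw [div_le_iff₀ h9]
      linarith
    constructor <;> linarith

theorem law (x : ℕ → ℕ) (hx : Tendsto (fun k : ℕ => Real.log (x k) / Real.log k) atTop atTop) :
    Tendsto (fun k : ℕ => Real.log (ex (pl 0 (x k)) emp (Icc 1 k)) * Real.log (x k) / k) atTop
        (𝓝 (-Real.exp (-Real.eulerMascheroniConstant))) ↔
      ∀ b : ℝ, 0 < b → ∀ᶠ k : ℕ in atTop, (k : ℝ) ^ (1 - b) ≤ Real.log (x k) := by
  rw [← law_V x hx]
  -- x k → ∞
  have hxt : Tendsto x atTop atTop := by
    rw [tendsto_atTop_atTop]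
    intro n
    obtain ⟨k₁, hk₁⟩ := Filter.eventually_atTop.1 ((hx.eventually_ge_atTop (Real.log (n + 1))).and
      (eventually_ge_atTop 3))
    refine ⟨k₁, fun k hk => ?_⟩
    obtain ⟨h1, h2⟩ := hk₁ k hk
    have hk3 : (3 : ℝ) ≤ k := by exact_mod_cast h2
    have hLk : 1 ≤ Real.log k := by
      rw [← Real.log_exp 1]
      apply Real.log_le_log (Real.exp_pos _)
      have := Real.exp_one_lt_d9
      linarith
    rw [le_div_iff₀ (by linarith)] at h1
    have hn : 0 ≤ Real.log (n + 1) := Real.log_nonneg (by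
      have : (0 : ℝ) ≤ n := Nat.cast_nonneg n
      linarith)
    have h3 : Real.log (n + 1) ≤ Real.log (x k) := le_trans (by nlinarith) h1
    by_contra hcon
    push Not at hcon
    rcases Nat.eq_zero_or_pos (x k) with h0 | h0
    · rw [h0] at h3 h1
      simp only [Nat.cast_zero, Real.log_zero] at h3 h1
      have h4 : Real.log ((n : ℝ) + 1) = 0 := le_antisymm h3 hn
      have h5 : Real.log ((1 : ℝ) + 1) ≤ Real.log ((n : ℝ) + 1) := by
        apply Real.log_le_log (by norm_num)
        have : 1 ≤ n := by omega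
        have : (1 : ℝ) ≤ n := by exact_mod_cast this
        linarith
      have h6 : 0 < Real.log ((1 : ℝ) + 1) := Real.log_pos (by norm_num)
      linarith
    · have h4 : ((n : ℝ) + 1) ≤ x k :=
        (Real.log_le_log_iff (by positivity) (by exact_mod_cast h0)).1 h3
      have h5 : n + 1 ≤ x k := by exact_mod_cast h4
      omega
  have hVl := V_lim.comp hxt
  have hg : 0 < Real.exp (-Real.eulerMascheroniConstant) := Real.exp_pos _
  constructor
  · intro h
    have h1 := h.div hVl hg.ne'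
    rw [neg_div, div_self hg.ne'] at h1
    refine h1.congr' ?_
    filter_upwards [hxt.eventually_ge_atTop 2, eventually_ge_atTop 1] with k hk2 hk1
    have hl : Real.log (x k) ≠ 0 := (Real.log_pos (by exact_mod_cast (by omega : 1 < x k))).ne'
    have hk0 : (k : ℝ) ≠ 0 := by exact_mod_cast (by omega : k ≠ 0)
    have hV : V 0 (x k) ≠ 0 := (V_pos _ _).ne'
    try simp only [Function.comp, Pi.div_apply]
    field_simp
  · intro h
    have h1 := h.mul hVl
    rw [neg_one_mul] at h1
    refine h1.congr' ?_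
    filter_upwards [hxt.eventually_ge_atTop 2, eventually_ge_atTop 1] with k hk2 hk1
    have hk0 : (k : ℝ) ≠ 0 := by exact_mod_cast (by omega : k ≠ 0)
    have hV : V 0 (x k) ≠ 0 := (V_pos _ _).ne'
    try simp only [Function.comp, Pi.mul_apply]
    field_simp

end Pool.Agent.Helper18.Sd
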