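import Pool.Agent.Helper18.Sd.Death
import Pool.Agent.Helper18.Sd.Seq
import Pool.Agent.Helper18.Sd.Mert

/-! MA-6. The lower bound of `Lower.lean` for an arbitrary start set and an arbitrary list of small primes. -/

set_option autoImplicit false

namespace Pool.Agent.Helper18.Sd

open Finset

private theorem teleT (t w : ℕ) (hw : t + 1 ≤ w) (x : ℕ) (h : w ≤ x) :
    ∑ n ∈ Ioc w x, 1 / (((n : ℝ) - t) * ((n : ℝ) - t - 1)) =
      1 / ((w : ℝ) - t) - 1 / ((x : ℝ) - t) := by
  induction x, h using Nat.le_induction with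
  | base => simp
  | succ n hn ih =>
    rw [Finset.sum_Ioc_succ_top hn, ih]
    have h1 : (t : ℝ) + 1 ≤ n := by exact_mod_cast le_trans hw hn
    have h2 : (n : ℝ) - t ≠ 0 := by
      have : (0 : ℝ) < (n : ℝ) - t := by linarith
      exact this.ne'
    have h3 : ((n + 1 : ℕ) : ℝ) - t ≠ 0 := by
      have : (0 : ℝ) < ((n + 1 : ℕ) : ℝ) - t := by push_cast; linarith
      exact this.ne'
    have h4 : ((n + 1 : ℕ) : ℝ) - t - 1 = (n : ℝ) - t := by push_cast; ring
    rw [h4]
    have h5 : 1 / ((((n + 1 : ℕ) : ℝ) - t) * ((n : ℝ) - t)) =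
        1 / ((n : ℝ) - t) - 1 / (((n + 1 : ℕ) : ℝ) - t) := by
      rw [div_sub_div _ _ h2 h3]
      congr 1
      · push_cast; ring
      · ring
    rw [h5]
    ring

private theorem innerT (ε δ : ℝ) (hε : 0 < ε) (hδ0 : 0 < δ) (hδ1 : (1 + δ) * (1 + (1 + ε) * δ) ≤ 1 + ε)
    (k w x : ℕ) (hk : 4 ≤ k) (hkδ : 8 / δ ≤ (k : ℝ)) (hw : w = k ^ 3) (hx : w ≤ x) (hq : V w x ≤ δ)
    (T : Finset ℕ) (hT : T ⊆ Icc 1 k) :
    Real.exp (-(((1 + ε) * V w x) * T.card)) ≤ ex (pl w x) emp T := by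
  have ht : T.card ≤ k := by simpa using card_le_card hT
  have hkr : (4 : ℝ) ≤ k := by exact_mod_cast hk
  have htr : (T.card : ℝ) ≤ k := by exact_mod_cast ht
  have hw1 : k ^ 2 + k ≤ w := by
    rw [hw]
    nlinarith [Nat.pow_le_pow_left hk 2]
  have hw2 : ((k : ℝ) ^ 2 + k ≤ w) := by exact_mod_cast hw1
  rw [ex_emp k (pl w x) (fun p hp => by
    rw [mem_pl] at hp
    have := hp.1.1
    nlinarith [Nat.pow_le_pow_left hk 2]) (nodup_pl w x) T hT]
  have e1 : (pl w x).toFinset = ps w x := by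
    unfold pl
    exact Finset.toList_toFinset _
  rw [e1]
  have hk2 : (0 : ℝ) < (k : ℝ) ^ 2 := by positivity
  have h1 := fs_lower ((k : ℝ) ^ 2) (by nlinarith) T.card (ps w x) (fun p => (p : ℝ))
    (by
      intro p hp
      unfold ps at hp
      rw [mem_filter, mem_Ioc] at hp
      have h2 : (w : ℝ) + 1 ≤ p := by exact_mod_cast hp.1.1
      linarith)
    (by
      have h2 : ∑ p ∈ ps w x, 1 / (((p : ℝ) - T.card) * ((p : ℝ) - T.card - 1)) ≤
          ∑ n ∈ Ioc w x, 1 / (((n : ℝ) - T.card) * ((n : ℝ) - T.card - 1)) := by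
        unfold ps
        apply sum_le_sum_of_subset_of_nonneg (filter_subset _ _)
        intro n hn _
        rw [mem_Ioc] at hn
        have h3 : (w : ℝ) + 1 ≤ n := by exact_mod_cast hn.1
        apply one_div_nonneg.2
        apply mul_nonneg
        · nlinarith
        · nlinarith
      refine le_trans h2 ?_
      rw [teleT T.card w (by nlinarith) x hx]
      have h3 : (0 : ℝ) ≤ 1 / ((x : ℝ) - T.card) := by
        have h4 : (w : ℝ) ≤ x := by exact_mod_cast hx
        apply one_div_nonneg.2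
        nlinarith
      have h5 : 1 / ((w : ℝ) - T.card) ≤ 1 / (k : ℝ) ^ 2 := by
        apply one_div_le_one_div_of_le hk2
        linarith
      linarith)
  refine le_trans ?_ h1
  have hV : ∏ p ∈ ps w x, (1 - 1 / (p : ℝ)) = V w x := rfl
  rw [hV]
  have hq0 : 0 < V w x := V_pos w x
  generalize hqq : V w x = q at *
  -- the factor A
  have hA0 : 0 ≤ (1 + 4 / (k : ℝ) ^ 2) ^ T.card := by positivity
  have hA : (1 + 4 / (k : ℝ) ^ 2) ^ T.card ≤ 1 + δ := by
    have h2 : (1 + 4 / (k : ℝ) ^ 2) ^ T.card ≤ Real.exp (4 / (k : ℝ)) := by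
      have h3 : 1 + 4 / (k : ℝ) ^ 2 ≤ Real.exp (4 / (k : ℝ) ^ 2) := by
        have := Real.add_one_le_exp (4 / (k : ℝ) ^ 2)
        linarith
      calc (1 + 4 / (k : ℝ) ^ 2) ^ T.card ≤ (Real.exp (4 / (k : ℝ) ^ 2)) ^ T.card :=
            pow_le_pow_left₀ (by positivity) h3 _
        _ = Real.exp (T.card * (4 / (k : ℝ) ^ 2)) := by rw [Real.exp_nat_mul]
        _ ≤ Real.exp (4 / (k : ℝ)) := by
            apply Real.exp_le_exp.2
            have h4 : (T.card : ℝ) * (4 / (k : ℝ) ^ 2) ≤ k * (4 / (k : ℝ) ^ 2) :=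
              mul_le_mul_of_nonneg_right htr (by positivity)
            refine le_trans h4 (le_of_eq ?_)
            have h5 : (k : ℝ) ≠ 0 := by positivity
            field_simp
    have h6 : |4 / (k : ℝ)| ≤ 1 := by
      rw [abs_of_nonneg (by positivity), div_le_one (by positivity)]
      exact hkr
    have h7 := (abs_le.1 (Real.abs_exp_sub_one_le h6)).2
    rw [abs_of_nonneg (by positivity)] at h7
    have h8 : 2 * (4 / (k : ℝ)) ≤ δ := by
      have h9 : 8 ≤ δ * k := by
        rw [div_le_iff₀ hδ0] at hkδ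
        linarith
      have h10 : 2 * (4 / (k : ℝ)) = 8 / k := by ring
      rw [h10, div_le_iff₀ (by positivity)]
      exact h9
    linarith
  generalize (1 + 4 / (k : ℝ) ^ 2) ^ T.card = A at *
  have hAq : A * (1 + (1 + ε) * q) ≤ 1 + ε := by
    have h2 : A * (1 + (1 + ε) * q) ≤ (1 + δ) * (1 + (1 + ε) * δ) := by
      apply mul_le_mul hA
      · have : (1 + ε) * q ≤ (1 + ε) * δ := mul_le_mul_of_nonneg_left hq (by linarith)
        linarith
      · positivity
      · linarith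
    linarith
  have hpos : 0 < 1 - A * q := by
    have h2 : A + (1 + ε) * (A * q) ≤ 1 + ε := by nlinarith
    by_contra hcon
    push Not at hcon
    have h3 : 1 ≤ A * q := by linarith
    have h4 : (1 + ε) * 1 ≤ (1 + ε) * (A * q) := mul_le_mul_of_nonneg_left h3 (by linarith)
    have h5 : A ≤ 0 := by linarith
    have h6 : A = 0 := le_antisymm h5 hA0
    rw [h6] at h3
    linarith
  have hstep : Real.exp (-((1 + ε) * q)) ≤ 1 - A * q := by
    have h2 := Real.one_sub_inv_le_log_of_pos hpos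
    have h3 : -((1 + ε) * q) ≤ 1 - (1 - A * q)⁻¹ := by
      have h4 : 1 - (1 - A * q)⁻¹ = -(A * q) / (1 - A * q) := by
        field_simp
        ring
      rw [h4, le_div_iff₀ hpos]
      have h5 : A * q ≤ ((1 + ε) * q) * (1 - A * q) := by
        have h6 : q * (A * (1 + (1 + ε) * q)) ≤ q * (1 + ε) :=
          mul_le_mul_of_nonneg_left hAq hq0.le
        nlinarith
      linarith
    calc Real.exp (-((1 + ε) * q)) ≤ Real.exp (Real.log (1 - A * q)) :=
          Real.exp_le_exp.2 (le_trans h3 h2)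
      _ = 1 - A * q := Real.exp_log hpos
  calc Real.exp (-(((1 + ε) * q) * T.card)) = (Real.exp (-((1 + ε) * q))) ^ T.card := by
        rw [← Real.exp_nat_mul]
        congr 1
        ring
    _ ≤ (max 0 (1 - A * q)) ^ T.card :=
        pow_le_pow_left₀ (Real.exp_pos _).le (le_trans hstep (le_max_right _ _)) _

/-- the lower bound with an arbitrary list `l` in place of the primes `≤ k^3` and an arbitrary `T ⊆ [1, k]` -/
theorem lower_T (ε : ℝ) (hε : 0 < ε) : ∃ C : ℝ, 3 ≤ C ∧ ∃ k₀ : ℕ, ∀ k : ℕ, k₀ ≤ k → ∀ x : ℕ,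
    C * Real.log k ≤ Real.log x → k ^ 3 ≤ x ∧ ∀ l : List ℕ, (∀ p ∈ l, 0 < p) → ∀ T ⊆ Icc 1 k,
      Real.exp (-((1 + ε) * (V (k ^ 3) x * (pr l * T.card)))) ≤ ex (l ++ pl (k ^ 3) x) emp T := by
  obtain ⟨c, hc, hVl⟩ := V_lower
  obtain ⟨δ, hδ0, hδ1⟩ : ∃ δ : ℝ, 0 < δ ∧ (1 + δ) * (1 + (1 + ε) * δ) ≤ 1 + ε := by
    refine ⟨ε / (4 * (1 + ε)), by positivity, ?_⟩
    have h1 : (1 + ε) * (ε / (4 * (1 + ε))) = ε / 4 := by
      field_simp
    rw [h1]
    have h2 : ε / (4 * (1 + ε)) ≤ ε / 4 := by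
      apply div_le_div_of_nonneg_left hε.le (by norm_num)
      linarith
    have h3 : ε / (4 * (1 + ε)) ≤ 1 / 4 := by
      rw [div_le_div_iff₀ (by positivity) (by norm_num)]
      linarith
    nlinarith
  refine ⟨max 3 (3 / (c * δ)), le_max_left _ _, max 4 (Nat.ceil (8 / δ)), fun k hk x hx => ?_⟩
  have hk4 : 4 ≤ k := le_trans (le_max_left _ _) hk
  have hkδ : 8 / δ ≤ (k : ℝ) := le_trans (Nat.le_ceil _) (by exact_mod_cast le_trans (le_max_right _ _) hk)
  have hkr : (4 : ℝ) ≤ k := by exact_mod_cast hk4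
  have hlk : 0 < Real.log k := Real.log_pos (by linarith)
  have hx3 : 3 * Real.log k ≤ Real.log x :=
    le_trans (mul_le_mul_of_nonneg_right (le_max_left _ _) hlk.le) hx
  have hlx : 0 < Real.log x := by linarith
  have hx0 : 0 < x := by
    rcases Nat.eq_zero_or_pos x with h | h
    · rw [h] at hlx
      simp at hlx
    · exact h
  have hxr : (0 : ℝ) < x := by exact_mod_cast hx0
  have hkx : k ^ 3 ≤ x := by
    have h1 : Real.log ((k : ℝ) ^ 3) ≤ Real.log x := by
      rw [Real.log_pow]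
      push_cast
      exact hx3
    have h2 : (k : ℝ) ^ 3 ≤ x := (Real.log_le_log_iff (by positivity) hxr).1 h1
    exact_mod_cast h2
  refine ⟨hkx, ?_⟩
  have hk3 : 2 ≤ k ^ 3 := by nlinarith [Nat.pow_le_pow_left hk4 3]
  have hV0 : 0 < V 0 (k ^ 3) := V_pos _ _
  have hmul := V_mul 0 (k ^ 3) x (Nat.zero_le _) hkx
  have hq : V (k ^ 3) x ≤ δ := by
    have h1 : V 0 x ≤ 1 / Real.log x := V_upper x (le_trans hk3 hkx)
    have h2 : c / (3 * Real.log k) ≤ V 0 (k ^ 3) := by
      have h3 := hVl (k ^ 3) hk3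
      have h4 : Real.log ((k ^ 3 : ℕ) : ℝ) = 3 * Real.log k := by
        push_cast
        rw [Real.log_pow]
        push_cast
        ring
      rw [h4] at h3
      exact h3
    have h5 : c / (3 * Real.log k) * V (k ^ 3) x ≤ 1 / Real.log x := by
      calc c / (3 * Real.log k) * V (k ^ 3) x ≤ V 0 (k ^ 3) * V (k ^ 3) x :=
            mul_le_mul_of_nonneg_right h2 (V_pos _ _).le
        _ = V 0 x := hmul
        _ ≤ 1 / Real.log x := h1
    have h6 : 3 / (c * δ) * Real.log k ≤ Real.log x :=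
      le_trans (mul_le_mul_of_nonneg_right (le_max_right _ _) hlk.le) hx
    have h7 : 3 * Real.log k ≤ Real.log x * (c * δ) := by
      have h8 : 3 / (c * δ) * Real.log k = (3 * Real.log k) / (c * δ) := by ring
      rw [h8, div_le_iff₀ (by positivity)] at h6
      exact h6
    have h9 : c * V (k ^ 3) x * Real.log x ≤ 3 * Real.log k := by
      have h10 : c / (3 * Real.log k) * V (k ^ 3) x = (c * V (k ^ 3) x) / (3 * Real.log k) := by ring
      rw [h10, div_le_div_iff₀ (by positivity) hlx] at h5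
      linarith
    have h11 : (c * Real.log x) * V (k ^ 3) x ≤ (c * Real.log x) * δ := by nlinarith
    exact le_of_mul_le_mul_left h11 (by positivity)
  intro l hl0 T₀ hT₀
  rw [ex_append]
  refine le_trans ?_ (ex_mono l
    (fun T => Real.exp (-(((1 + ε) * V (k ^ 3) x) * T.card))) _ _ fun T hT =>
      innerT ε δ hε hδ0 hδ1 k (k ^ 3) x hk4 hkδ rfl hkx hq T (hT.trans hT₀))
  refine le_trans (le_of_eq ?_) (ex_exp_ge l hl0 ((1 + ε) * V (k ^ 3) x) T₀)
  congr 1
  ring

end Pool.Agent.Helper18.Sd
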