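import Pool.Agent.Helper18.Sd.Bonf
import Pool.Agent.Helper18.Sd.Mert
import Pool.Agent.Helper32.M3.Integral

/-!
MA-2. The elementary symmetric functions of the `1/q` over the primes `k^θ₁ < q ≤ k^θ₂` are bounded below.

`window_one`: `V y z → θ₁/θ₂ < 1` for `y = ⌊k^θ₁⌋`, `z = ⌊k^θ₂⌋` (`Helper32.M3.mertens_three`, `V_mul`; `PL n` of `Helper32` = the primes `≤ n`) and
`∑_(q ∈ ps y z) 1/q ≥ 1 - V y z` (`∏ (1 - x) ≥ 1 - ∑ x`, e.g. `Finset.one_sub_sum_le_prod_one_sub` or induction).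
`es_window`: induction on `n` (generalising `θ₁ < θ₂`): with `θ' = (θ₁+θ₂)/2`, `ps y z = ps y u ∪ ps u z` (`u = ⌊k^θ'⌋`, disjoint), `es_block`
gives `e_(n+1)(θ₁, θ₂) ≥ e_n(θ₁, θ') e_1(θ', θ₂)`; for `n = 0`: `es_zero`.
-/

set_option autoImplicit false

namespace Pool.Agent.Helper18.Sd

open Finset

private theorem mem_ps_w {y z p : ℕ} : p ∈ ps y z ↔ (y < p ∧ p ≤ z) ∧ p.Prime := by
  rw [ps, mem_filter, mem_Ioc]

private theorem ps_zero (n : ℕ) : ps 0 n = Helper16.UB.PL n := by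
  ext p
  rw [mem_ps_w, Helper16.UB.mem_PL]
  constructor
  · rintro ⟨⟨_, h1⟩, h2⟩
    exact ⟨h1, h2⟩
  · rintro ⟨h1, h2⟩
    exact ⟨⟨h2.pos, h1⟩, h2⟩

private theorem one_sub_sum_le (S : Finset ℕ) (x : ℕ → ℝ) (hx : ∀ q ∈ S, 0 ≤ x q ∧ x q ≤ 1) :
    1 - ∑ q ∈ S, x q ≤ ∏ q ∈ S, (1 - x q) := by
  induction S using Finset.induction_on with
  | empty => simp
  | insert y Q hy ih =>
    have hQ : ∀ q ∈ Q, 0 ≤ x q ∧ x q ≤ 1 := fun q hq => hx q (mem_insert_of_mem hq)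
    have hy1 := hx y (mem_insert_self _ _)
    have ih' := ih hQ
    rw [prod_insert hy, sum_insert hy]
    have h1 : (1 - x y) * (1 - ∑ q ∈ Q, x q) ≤ (1 - x y) * ∏ q ∈ Q, (1 - x q) :=
      mul_le_mul_of_nonneg_left ih' (by linarith)
    have h2 : 0 ≤ x y * ∑ q ∈ Q, x q := mul_nonneg hy1.1 (sum_nonneg fun q hq => (hQ q hq).1)
    nlinarith

private theorem sum_ge (y z : ℕ) : 1 - V y z ≤ ∑ q ∈ ps y z, 1 / (q : ℝ) := by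
  have h := one_sub_sum_le (ps y z) (fun q : ℕ => 1 / (q : ℝ)) (by
    intro q hq
    have h2 : (2 : ℝ) ≤ q := by exact_mod_cast (mem_ps_w.1 hq).2.two_le
    refine ⟨by positivity, ?_⟩
    rw [div_le_one (by linarith)]
    linarith)
  unfold V
  linarith

open Filter Topology in
private theorem floor_pow_atTop (θ : ℝ) (h : 0 < θ) :
    Tendsto (fun k : ℕ => ⌊(k : ℝ) ^ θ⌋₊) atTop atTop :=
  tendsto_nat_floor_atTop.comp ((tendsto_rpow_atTop h).comp tendsto_natCast_atTop_atTop)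

open Filter Topology in
private theorem log_floor_div (θ : ℝ) (h : 0 < θ) :
    Tendsto (fun k : ℕ => Real.log (⌊(k : ℝ) ^ θ⌋₊ : ℝ) / Real.log k) atTop (𝓝 θ) := by
  have h1 : Tendsto (fun k : ℕ => (k : ℝ) ^ θ) atTop atTop :=
    (tendsto_rpow_atTop h).comp tendsto_natCast_atTop_atTop
  have h2 : Tendsto (fun k : ℕ => (⌊(k : ℝ) ^ θ⌋₊ : ℝ) / (k : ℝ) ^ θ) atTop (𝓝 1) :=
    tendsto_nat_floor_div_atTop.comp h1
  have h3 : Tendsto (fun k : ℕ => Real.log ((⌊(k : ℝ) ^ θ⌋₊ : ℝ) / (k : ℝ) ^ θ)) atTop (𝓝 0) := by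
    have := (Real.continuousAt_log (by norm_num : (1 : ℝ) ≠ 0)).tendsto.comp h2
    rwa [Real.log_one] at this
  have hl : Tendsto (fun k : ℕ => Real.log (k : ℝ)) atTop atTop :=
    Real.tendsto_log_atTop.comp tendsto_natCast_atTop_atTop
  have h4 : Tendsto (fun k : ℕ => θ + Real.log ((⌊(k : ℝ) ^ θ⌋₊ : ℝ) / (k : ℝ) ^ θ) / Real.log k) atTop
      (𝓝 (θ + 0)) := tendsto_const_nhds.add (h3.div_atTop hl)
  rw [add_zero] at h4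
  refine h4.congr' ?_
  filter_upwards [eventually_ge_atTop 2, h1.eventually_ge_atTop 1] with k hk hk1
  have hk' : (2 : ℝ) ≤ k := by exact_mod_cast hk
  have hlk : 0 < Real.log k := Real.log_pos (by linarith)
  have hf : (0 : ℝ) < (⌊(k : ℝ) ^ θ⌋₊ : ℝ) := by
    exact_mod_cast Nat.floor_pos.2 hk1
  rw [Real.log_div hf.ne' (by positivity), Real.log_rpow (by linarith)]
  field_simp
  ring

open Filter Topology in
private theorem V_lim (θ₁ θ₂ : ℝ) (h0 : 0 < θ₁) (h : θ₁ < θ₂) :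
    Tendsto (fun k : ℕ => V ⌊(k : ℝ) ^ θ₁⌋₊ ⌊(k : ℝ) ^ θ₂⌋₊) atTop (𝓝 (θ₁ / θ₂)) := by
  have h2 : 0 < θ₂ := h0.trans h
  have hm : ∀ θ : ℝ, 0 < θ → Tendsto (fun k : ℕ => V 0 ⌊(k : ℝ) ^ θ⌋₊ * Real.log (⌊(k : ℝ) ^ θ⌋₊ : ℝ)) atTop
      (𝓝 (Real.exp (-Real.eulerMascheroniConstant))) := by
    intro θ hθ
    have h3 := Helper32.M3.mertens_three.comp (floor_pow_atTop θ hθ)
    refine h3.congr fun k => ?_
    simp only [Function.comp]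
    unfold V
    rw [ps_zero]
  have h5 := (hm θ₂ h2).div (hm θ₁ h0) (Real.exp_pos _).ne'
  have h6 := (log_floor_div θ₁ h0).div (log_floor_div θ₂ h2) h2.ne'
  have h7 := h5.mul h6
  rw [div_self (Real.exp_pos _).ne', one_mul] at h7
  refine h7.congr' ?_
  filter_upwards [eventually_ge_atTop 2, (floor_pow_atTop θ₁ h0).eventually_ge_atTop 2,
    (floor_pow_atTop θ₂ h2).eventually_ge_atTop 2] with k hk hk1 hk2
  have hk' : (2 : ℝ) ≤ k := by exact_mod_cast hk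
  have hlk : 0 < Real.log k := Real.log_pos (by linarith)
  have hk1' : (2 : ℝ) ≤ (⌊(k : ℝ) ^ θ₁⌋₊ : ℝ) := by exact_mod_cast hk1
  have hk2' : (2 : ℝ) ≤ (⌊(k : ℝ) ^ θ₂⌋₊ : ℝ) := by exact_mod_cast hk2
  have hl1 : 0 < Real.log (⌊(k : ℝ) ^ θ₁⌋₊ : ℝ) := Real.log_pos (by linarith)
  have hl2 : 0 < Real.log (⌊(k : ℝ) ^ θ₂⌋₊ : ℝ) := Real.log_pos (by linarith)
  have hle : ⌊(k : ℝ) ^ θ₁⌋₊ ≤ ⌊(k : ℝ) ^ θ₂⌋₊ :=
    Nat.floor_le_floor (Real.rpow_le_rpow_of_exponent_le (by linarith) h.le)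
  have hV := V_mul 0 ⌊(k : ℝ) ^ θ₁⌋₊ ⌊(k : ℝ) ^ θ₂⌋₊ (Nat.zero_le _) hle
  have hV0 := V_pos 0 ⌊(k : ℝ) ^ θ₁⌋₊
  simp only [Pi.div_apply]
  rw [← hV]
  field_simp

theorem window_one (θ₁ θ₂ : ℝ) (h0 : 0 < θ₁) (h : θ₁ < θ₂) : ∃ c : ℝ, 0 < c ∧ ∃ k₀ : ℕ, ∀ k : ℕ, k₀ ≤ k →
    c ≤ ∑ q ∈ ps ⌊(k : ℝ) ^ θ₁⌋₊ ⌊(k : ℝ) ^ θ₂⌋₊, 1 / (q : ℝ) := by
  have h2 : 0 < θ₂ := h0.trans h
  have hr : θ₁ / θ₂ < 1 := (div_lt_one h2).2 h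
  have hlim := V_lim θ₁ θ₂ h0 h
  have hev := hlim.eventually (eventually_le_nhds (show θ₁ / θ₂ < (1 + θ₁ / θ₂) / 2 by linarith))
  obtain ⟨k₀, hk₀⟩ := Filter.eventually_atTop.1 hev
  refine ⟨(1 - θ₁ / θ₂) / 2, by linarith, k₀, fun k hk => ?_⟩
  have h3 := hk₀ k hk
  have h4 := sum_ge ⌊(k : ℝ) ^ θ₁⌋₊ ⌊(k : ℝ) ^ θ₂⌋₊
  linarith

theorem es_window (n : ℕ) (θ₁ θ₂ : ℝ) (h0 : 0 < θ₁) (h : θ₁ < θ₂) : ∃ c : ℝ, 0 < c ∧ ∃ k₀ : ℕ, ∀ k : ℕ, k₀ ≤ k →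
    c ≤ es n (ps ⌊(k : ℝ) ^ θ₁⌋₊ ⌊(k : ℝ) ^ θ₂⌋₊) (fun q : ℕ => 1 / (q : ℝ)) := by
  induction n generalizing θ₁ θ₂ with
  | zero =>
    refine ⟨1, one_pos, 0, fun k _ => ?_⟩
    rw [es_zero]
  | succ n ih =>
    obtain ⟨c₁, hc₁, k₁, hk₁⟩ := ih θ₁ ((θ₁ + θ₂) / 2) h0 (by linarith)
    obtain ⟨c₂, hc₂, k₂, hk₂⟩ := window_one ((θ₁ + θ₂) / 2) θ₂ (by linarith) (by linarith)
    refine ⟨c₁ * c₂, mul_pos hc₁ hc₂, max (max k₁ k₂) 1, fun k hk => ?_⟩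
    have e1 := hk₁ k ((le_max_left _ _).trans ((le_max_left _ _).trans hk))
    have e2 := hk₂ k ((le_max_right _ _).trans ((le_max_left _ _).trans hk))
    have hk1 : (1 : ℝ) ≤ k := by exact_mod_cast (le_max_right _ _).trans hk
    have hle1 : ⌊(k : ℝ) ^ θ₁⌋₊ ≤ ⌊(k : ℝ) ^ ((θ₁ + θ₂) / 2)⌋₊ :=
      Nat.floor_le_floor (Real.rpow_le_rpow_of_exponent_le hk1 (by linarith))
    have hle2 : ⌊(k : ℝ) ^ ((θ₁ + θ₂) / 2)⌋₊ ≤ ⌊(k : ℝ) ^ θ₂⌋₊ :=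
      Nat.floor_le_floor (Real.rpow_le_rpow_of_exponent_le hk1 (by linarith))
    set y := ⌊(k : ℝ) ^ θ₁⌋₊
    set u := ⌊(k : ℝ) ^ ((θ₁ + θ₂) / 2)⌋₊
    set z := ⌊(k : ℝ) ^ θ₂⌋₊
    have e : ps y z = ps y u ∪ ps u z := by
      ext p
      rw [mem_union, mem_ps_w, mem_ps_w, mem_ps_w]
      constructor
      · rintro ⟨⟨h3, h4⟩, h5⟩
        rcases le_or_gt p u with h | h
        · exact Or.inl ⟨⟨h3, h⟩, h5⟩
        · exact Or.inr ⟨⟨h, h4⟩, h5⟩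
      · rintro (⟨⟨h3, h4⟩, h5⟩ | ⟨⟨h3, h4⟩, h5⟩)
        · exact ⟨⟨h3, h4.trans hle2⟩, h5⟩
        · exact ⟨⟨lt_of_le_of_lt hle1 h3, h4⟩, h5⟩
    have hd : Disjoint (ps y u) (ps u z) := by
      rw [Finset.disjoint_left]
      intro p hp hp'
      have h3 := (mem_ps_w.1 hp).1.2
      have h4 := (mem_ps_w.1 hp').1.1
      omega
    rw [e]
    refine le_trans ?_ (es_block n (ps y u) (ps u z) hd _ fun q _ => by positivity)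
    exact mul_le_mul e1 e2 hc₂.le (hc₁.le.trans e1)

end Pool.Agent.Helper18.Sd
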