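import Pool.Agent.Helper18.Sd.LowerT
import Pool.Agent.Helper18.Sd.Final
import Pool.Agent.Helper18.Sd.Window
import Pool.Agent.Helper18.Sd.Count
import Pool.Agent.Helper18.Sd.Cond

/-!
MA-7. The Maier phenomenon: for `log x ≤ k^(1-b)` the density of `A(x,k)` is at least `exp(-(1-δ) k V(x))`.

`J` odd, `1/J < b`, `1/(J+1) < θ₁ < θ₂ < 1/J`, `n ≡ 0` modulo the primes of `(k^θ₁, k^θ₂]`.
-/

set_option autoImplicit false

namespace Pool.Agent.Helper18.Sd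

open Finset Filter Topology

private theorem ma_ev_pow (r M : ℝ) (hr : 0 < r) :
    ∀ᶠ k : ℕ in Filter.atTop, M ≤ (k : ℝ) ^ r :=
  ((tendsto_rpow_atTop hr).comp (tendsto_natCast_atTop_atTop (R := ℝ))).eventually_ge_atTop M

theorem pr_append (l l' : List ℕ) : pr (l ++ l') = pr l * pr l' := by
  unfold pr
  rw [List.map_append, List.prod_append]

/-- the deterministic part -/
private theorem maier_core (ε c : ℝ) (hε : 0 ≤ ε) (k x y z J : ℕ) (hJ : Odd J) (hyz : y ≤ z) (hzk : z ≤ k) (hk : 1 ≤ k)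
    (hJk : k < (y + 1) ^ (J + 1)) (hkx : k ^ 3 ≤ x)
    (hes : c ≤ es (J + 1) (ps y z) (fun q : ℕ => 1 / (q : ℝ)))
    (hbig : (J + 1) * ((z : ℝ) + 1) ^ J ≤ c / 2 * (k * V y z))
    (hlow : ∀ l : List ℕ, (∀ p ∈ l, 0 < p) → ∀ T ⊆ Icc 1 k,
      Real.exp (-((1 + ε) * (V (k ^ 3) x * (pr l * T.card)))) ≤ ex (l ++ pl (k ^ 3) x) emp T) :
    Real.exp (-(z * Real.log 4 + (1 + ε) * ((1 - c / 2) * (k * V 0 x)))) ≤ ex (pl 0 x) emp (Icc 1 k) := by
  have hk3 : k ≤ k ^ 3 := Nat.le_self_pow (by norm_num) k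
  have hz3 : z ≤ k ^ 3 := hzk.trans hk3
  have hzx : z ≤ x := hz3.trans hkx
  have hpr : ∀ a b : ℕ, ∀ p ∈ pl a b, p.Prime := fun a b p hp => ((mem_pl a b p).mp hp).2
  have hemp : ∀ T, 0 ≤ emp T := by
    intro T
    unfold emp
    split_ifs <;> norm_num
  -- the permutation
  have hperm : (pl y z ++ ((pl 0 y ++ pl z (k ^ 3)) ++ pl (k ^ 3) x)).Perm (pl 0 x) := by
    have h1 : (pl y z ++ ((pl 0 y ++ pl z (k ^ 3)) ++ pl (k ^ 3) x)).Perm
        (pl 0 y ++ (pl y z ++ (pl z (k ^ 3) ++ pl (k ^ 3) x))) := by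
      rw [List.append_assoc]
      rw [← List.append_assoc, ← List.append_assoc (pl 0 y)]
      exact List.Perm.append_right _ List.perm_append_comm
    have h2 : (pl z (k ^ 3) ++ pl (k ^ 3) x).Perm (pl z x) := pl_append z (k ^ 3) x hz3 hkx
    have h3 : (pl y z ++ pl z x).Perm (pl y x) := pl_append y z x hyz hzx
    have h4 : (pl 0 y ++ pl y x).Perm (pl 0 x) := pl_append 0 y x (Nat.zero_le _) (hyz.trans hzx)
    exact h1.trans (((h2.append_left (pl y z)).trans h3).append_left (pl 0 y) |>.trans h4)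
  rw [ex_perm _ _ hperm.symm (hpr 0 x) (nodup_pl 0 x) (Icc 1 k)]
  have hpos : ∀ a b : ℕ, ∀ p ∈ pl a b, 0 < p := fun a b p hp => (hpr a b p hp).pos
  refine le_trans ?_ (ex_cond (pl y z) ((pl 0 y ++ pl z (k ^ 3)) ++ pl (k ^ 3) x) (hpos y z) (by
    intro p hp
    rw [List.mem_append, List.mem_append] at hp
    rcases hp with (hp | hp) | hp
    · exact hpos _ _ p hp
    · exact hpos _ _ p hp
    · exact hpos _ _ p hp) emp hemp (Icc 1 k))
  set T₀ := (Icc 1 k).filter (fun i => ∀ q ∈ pl y z, ¬ q ∣ i) with hT₀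
  have h5 := hlow (pl 0 y ++ pl z (k ^ 3)) (by
    intro p hp
    rw [List.mem_append] at hp
    rcases hp with hp | hp
    · exact hpos _ _ p hp
    · exact hpos _ _ p hp) T₀ (filter_subset _ _)
  have h6 := prod_inv_pl y z
  -- the count
  have h7 := count_rough k y z J hJk
  have h8 := bonf_odd (ps y z) (fun q : ℕ => 1 / (q : ℝ)) (by
    intro q hq
    have hq2 : (2 : ℝ) ≤ q := by
      unfold ps at hq
      rw [mem_filter] at hq
      exact_mod_cast hq.2.two_le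
    refine ⟨by positivity, ?_⟩
    rw [div_le_one (by linarith)]
    linarith) J hJ
  have hVyz : ∏ q ∈ ps y z, (1 - (fun q : ℕ => 1 / (q : ℝ)) q) = V y z := rfl
  rw [hVyz] at h8
  have hV0 : 0 < V y z := V_pos y z
  have hk0 : (0 : ℝ) < k := by exact_mod_cast (by omega : 0 < k)
  have hcard : (T₀.card : ℝ) ≤ (1 - c / 2) * (k * V y z) := by
    have e : T₀ = (Icc 1 k).filter (fun i => ∀ q ∈ ps y z, ¬ q ∣ i) := by
      rw [hT₀]
      apply Finset.filter_congr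
      intro i _
      unfold pl
      simp only [Finset.mem_toList]
    rw [e]
    refine h7.trans ?_
    have h9 : (k : ℝ) * (∑ j ∈ range (J + 1), (-1 : ℝ) ^ j * es j (ps y z) (fun q : ℕ => 1 / (q : ℝ))) ≤
        k * (V y z * (1 - c)) := by
      apply mul_le_mul_of_nonneg_left _ hk0.le
      refine h8.trans (mul_le_mul_of_nonneg_left (by linarith) hV0.le)
    have h10 : (k : ℝ) * (V y z * (1 - c)) + c / 2 * (k * V y z) = (1 - c / 2) * (k * V y z) := by ring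
    linarith
  have hVx : V 0 x = V (k ^ 3) x * (pr (pl 0 y ++ pl z (k ^ 3)) * V y z) := by
    rw [pr_append, pr_pl, pr_pl, ← V_mul 0 (k ^ 3) x (Nat.zero_le _) hkx,
      ← V_mul 0 z (k ^ 3) (Nat.zero_le _) hz3, ← V_mul 0 y z (Nat.zero_le _) hyz]
    ring
  have hpr0 : 0 < pr (pl 0 y ++ pl z (k ^ 3)) := by
    rw [pr_append, pr_pl, pr_pl]
    exact mul_pos (V_pos _ _) (V_pos _ _)
  have hexp : (1 + ε) * (V (k ^ 3) x * (pr (pl 0 y ++ pl z (k ^ 3)) * T₀.card)) ≤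
      (1 + ε) * ((1 - c / 2) * (k * V 0 x)) := by
    apply mul_le_mul_of_nonneg_left _ (by linarith)
    have h11 : V (k ^ 3) x * (pr (pl 0 y ++ pl z (k ^ 3)) * T₀.card) ≤
        V (k ^ 3) x * (pr (pl 0 y ++ pl z (k ^ 3)) * ((1 - c / 2) * (k * V y z))) :=
      mul_le_mul_of_nonneg_left (mul_le_mul_of_nonneg_left hcard hpr0.le) (V_pos _ _).le
    refine h11.trans (le_of_eq ?_)
    rw [hVx]
    ring
  calc Real.exp (-(z * Real.log 4 + (1 + ε) * ((1 - c / 2) * (k * V 0 x))))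
      = Real.exp (-(z * Real.log 4)) * Real.exp (-((1 + ε) * ((1 - c / 2) * (k * V 0 x)))) := by
        rw [← Real.exp_add]
        congr 1
        ring
    _ ≤ Real.exp (-(z * Real.log 4)) *
        Real.exp (-((1 + ε) * (V (k ^ 3) x * (pr (pl 0 y ++ pl z (k ^ 3)) * T₀.card)))) :=
        mul_le_mul_of_nonneg_left (Real.exp_le_exp.2 (neg_le_neg hexp)) (Real.exp_pos _).le
    _ ≤ ((pl y z).map (fun q : ℕ => 1 / (q : ℝ))).prod *
        ex ((pl 0 y ++ pl z (k ^ 3)) ++ pl (k ^ 3) x) emp T₀ :=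
        mul_le_mul h6 h5 (Real.exp_pos _).le ((Real.exp_pos _).le.trans h6)

theorem maier (b : ℝ) (hb : 0 < b) : ∃ δ : ℝ, 0 < δ ∧ ∃ C : ℝ, ∃ k₀ : ℕ, ∀ k : ℕ, k₀ ≤ k → ∀ x : ℕ,
    C * Real.log k ≤ Real.log x → Real.log x ≤ (k : ℝ) ^ (1 - b) →
      Real.exp (-((1 - δ) * (k * V 0 x))) ≤ ex (pl 0 x) emp (Icc 1 k) := by
  obtain ⟨m, hm⟩ := exists_nat_gt (1 / b)
  obtain ⟨J, hJd⟩ : ∃ J : ℕ, J = 2 * m + 1 := ⟨_, rfl⟩
  have hJo : Odd J := ⟨m, hJd⟩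
  have hJ1 : 1 ≤ J := by omega
  have hJr : (1 : ℝ) ≤ J := by exact_mod_cast hJ1
  have hJb : 1 / (J : ℝ) < b := by
    have h1 : (m : ℝ) ≤ J := by exact_mod_cast (by omega : m ≤ J)
    rw [div_lt_iff₀ (by linarith)]
    rw [div_lt_iff₀ hb] at hm
    nlinarith
  obtain ⟨g, hg⟩ : ∃ g : ℝ, g = (1 / (J : ℝ) - 1 / ((J : ℝ) + 1)) / 3 := ⟨_, rfl⟩
  have hg0 : 0 < g := by
    rw [hg]
    have : 1 / ((J : ℝ) + 1) < 1 / (J : ℝ) := one_div_lt_one_div_of_lt (by linarith) (by linarith)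
    linarith
  obtain ⟨θ₁, hθ₁⟩ : ∃ θ₁ : ℝ, θ₁ = 1 / ((J : ℝ) + 1) + g := ⟨_, rfl⟩
  obtain ⟨θ₂, hθ₂⟩ : ∃ θ₂ : ℝ, θ₂ = 1 / ((J : ℝ) + 1) + 2 * g := ⟨_, rfl⟩
  have hθ₂' : θ₂ = 1 / (J : ℝ) - g := by rw [hθ₂, hg]; ring
  have h1J : 0 < 1 / ((J : ℝ) + 1) := by positivity
  have hθ10 : 0 < θ₁ := by rw [hθ₁]; positivity
  have hθ12 : θ₁ < θ₂ := by rw [hθ₁, hθ₂]; linarith
  have hθ20 : 0 < θ₂ := hθ10.trans hθ12
  have hθ2J : θ₂ * J < 1 := by
    rw [hθ₂', sub_mul, one_div, inv_mul_cancel₀ (by linarith : (J : ℝ) ≠ 0)]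
    nlinarith
  have hθ1J : 1 < θ₁ * (J + 1) := by
    rw [hθ₁, add_mul, one_div, inv_mul_cancel₀ (by linarith : (J : ℝ) + 1 ≠ 0)]
    nlinarith
  have hθ2b : θ₂ < b := by rw [hθ₂']; linarith
  have hθ21 : θ₂ ≤ 1 := by nlinarith
  obtain ⟨c₁, hc₁, kW, hW⟩ := es_window (J + 1) θ₁ θ₂ hθ10 hθ12
  obtain ⟨c, hc⟩ : ∃ c : ℝ, c = min c₁ 1 := ⟨_, rfl⟩
  have hc0 : 0 < c := by rw [hc]; exact lt_min hc₁ one_pos
  have hc1 : c ≤ 1 := by rw [hc]; exact min_le_right _ _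
  obtain ⟨c₀, hc₀, hVl⟩ := V_lower
  obtain ⟨C, hC3, kL, hL⟩ := lower_T (c / 4) (by positivity)
  -- V y z ≥ κ
  obtain ⟨κ, hκ⟩ : ∃ κ : ℝ, κ = c₀ * θ₁ / 2 := ⟨_, rfl⟩
  have hκ0 : 0 < κ := by rw [hκ]; positivity
  refine ⟨c / 8, by positivity, C, ?_⟩
  have e1 := ma_ev_pow θ₁ 4 hθ10
  have e2 := ma_ev_pow (1 - θ₂ * J) ((J + 1) * 2 ^ J * (2 / (c * κ))) (by linarith)
  have e3 := ma_ev_pow (b - θ₂) (Real.log 4 * (8 / (c * c₀))) (by linarith)
  obtain ⟨k₀, hk₀⟩ := Filter.eventually_atTop.1 (((e1.and e2).and (e3.and (eventually_ge_atTop kL))).and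
    ((eventually_ge_atTop kW).and (eventually_ge_atTop 2)))
  refine ⟨k₀, fun k hk x hx hx' => ?_⟩
  obtain ⟨⟨⟨h1, h2⟩, h3, h4⟩, h5, h6⟩ := hk₀ k hk
  obtain ⟨hkx, hlow⟩ := hL k h4 x hx
  have hk2 : (2 : ℝ) ≤ k := by exact_mod_cast h6
  have hk0 : (0 : ℝ) < k := by linarith
  have hk1 : (1 : ℝ) ≤ k := by linarith
  have hLk : 0 < Real.log k := Real.log_pos (by linarith)
  obtain ⟨y, hy⟩ : ∃ y : ℕ, y = ⌊(k : ℝ) ^ θ₁⌋₊ := ⟨_, rfl⟩
  obtain ⟨z, hz⟩ : ∃ z : ℕ, z = ⌊(k : ℝ) ^ θ₂⌋₊ := ⟨_, rfl⟩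
  have hp1 : 0 < (k : ℝ) ^ θ₁ := Real.rpow_pos_of_pos hk0 _
  have hp2 : 0 < (k : ℝ) ^ θ₂ := Real.rpow_pos_of_pos hk0 _
  have hpp : (k : ℝ) ^ θ₁ ≤ (k : ℝ) ^ θ₂ := Real.rpow_le_rpow_of_exponent_le hk1 hθ12.le
  have hyr : (y : ℝ) ≤ (k : ℝ) ^ θ₁ := by rw [hy]; exact Nat.floor_le hp1.le
  have hyr' : (k : ℝ) ^ θ₁ < y + 1 := by rw [hy]; exact Nat.lt_floor_add_one _
  have hzr : (z : ℝ) ≤ (k : ℝ) ^ θ₂ := by rw [hz]; exact Nat.floor_le hp2.le
  have hyz : y ≤ z := by rw [hy, hz]; exact Nat.floor_mono hpp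
  have hzk : z ≤ k := by
    have : (z : ℝ) ≤ k := hzr.trans (by
      calc (k : ℝ) ^ θ₂ ≤ (k : ℝ) ^ (1 : ℝ) := Real.rpow_le_rpow_of_exponent_le hk1 hθ21
        _ = k := Real.rpow_one _)
    exact_mod_cast this
  have hJk : k < (y + 1) ^ (J + 1) := by
    have h7 : (k : ℝ) < ((y : ℝ) + 1) ^ (J + 1) := by
      calc (k : ℝ) = (k : ℝ) ^ (1 : ℝ) := (Real.rpow_one _).symm
        _ < (k : ℝ) ^ (θ₁ * (J + 1)) := Real.rpow_lt_rpow_of_exponent_lt (by linarith) hθ1J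
        _ = ((k : ℝ) ^ θ₁) ^ (J + 1) := by
            rw [Real.rpow_mul hk0.le, ← Real.rpow_natCast]
            push_cast
            rfl
        _ ≤ ((y : ℝ) + 1) ^ (J + 1) := pow_le_pow_left₀ hp1.le hyr'.le _
    exact_mod_cast h7
  have hy2 : 2 ≤ y := by
    have h7 : (2 : ℝ) < y := by linarith
    exact_mod_cast h7.le
  have hz2 : 2 ≤ z := hy2.trans hyz
  have hVyz : κ ≤ V y z := by
    have hLy : θ₁ / 2 * Real.log k ≤ Real.log y := by
      have h7 : Real.log ((k : ℝ) ^ θ₁ / 2) ≤ Real.log y :=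
        Real.log_le_log (by positivity) (by linarith)
      have h8 : Real.log ((k : ℝ) ^ θ₁) = θ₁ * Real.log k := Real.log_rpow hk0 _
      have h9 : Real.log 4 ≤ Real.log ((k : ℝ) ^ θ₁) := Real.log_le_log (by norm_num) h1
      have h10 : Real.log 4 = 2 * Real.log 2 := by
        rw [show (4 : ℝ) = 2 ^ 2 by norm_num, Real.log_pow]
        norm_num
      have h11 : Real.log ((k : ℝ) ^ θ₁ / 2) = Real.log ((k : ℝ) ^ θ₁) - Real.log 2 :=
        Real.log_div hp1.ne' (by norm_num)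
      linarith
    have hLy0 : 0 < Real.log y := lt_of_lt_of_le (by positivity) hLy
    have hLz : Real.log z ≤ Real.log k := Real.log_le_log (by exact_mod_cast (by omega : 0 < z)) (by exact_mod_cast hzk)
    have hLz0 : 0 < Real.log z := Real.log_pos (by exact_mod_cast (by omega : 1 < z))
    have h12 : V 0 y * Real.log y ≤ 1 := by
      calc V 0 y * Real.log y ≤ 1 / Real.log y * Real.log y :=
            mul_le_mul_of_nonneg_right (V_upper y hy2) hLy0.le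
        _ = 1 := by field_simp
    have h13 : κ ≤ V 0 z * Real.log y := by
      calc κ = c₀ / Real.log k * (θ₁ / 2 * Real.log k) := by
            rw [hκ]
            field_simp
        _ ≤ V 0 z * Real.log y := by
            apply mul_le_mul _ hLy (by positivity) (V_pos _ _).le
            refine le_trans ?_ (hVl z hz2)
            exact div_le_div_of_nonneg_left hc₀.le hLz0 hLz
    have h14 : V 0 z * Real.log y ≤ V y z := by
      rw [← V_mul 0 y z (Nat.zero_le _) hyz]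
      have h15 := mul_le_mul_of_nonneg_left h12 (V_pos y z).le
      linarith
    exact h13.trans h14
  have hes : c ≤ es (J + 1) (ps y z) (fun q : ℕ => 1 / (q : ℝ)) := by
    have := hW k h5
    rw [← hy, ← hz] at this
    exact (by rw [hc]; exact min_le_left _ _ : c ≤ c₁).trans this
  have hbig : (J + 1) * ((z : ℝ) + 1) ^ J ≤ c / 2 * (k * V y z) := by
    have h7 : (z : ℝ) + 1 ≤ 2 * (k : ℝ) ^ θ₂ := by
      have : 1 ≤ (k : ℝ) ^ θ₂ := Real.one_le_rpow hk1 hθ20.le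
      linarith
    have h8 : ((z : ℝ) + 1) ^ J ≤ 2 ^ J * (k : ℝ) ^ (θ₂ * J) := by
      calc ((z : ℝ) + 1) ^ J ≤ (2 * (k : ℝ) ^ θ₂) ^ J := pow_le_pow_left₀ (by positivity) h7 _
        _ = 2 ^ J * (k : ℝ) ^ (θ₂ * J) := by
            rw [mul_pow, Real.rpow_mul hk0.le, Real.rpow_natCast]
    have h9 : (k : ℝ) = (k : ℝ) ^ (1 - θ₂ * J) * (k : ℝ) ^ (θ₂ * J) := by
      rw [← Real.rpow_add hk0]
      simp
    have hpJ : 0 < (k : ℝ) ^ (θ₂ * J) := Real.rpow_pos_of_pos hk0 _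
    calc (J + 1) * ((z : ℝ) + 1) ^ J ≤ (J + 1) * (2 ^ J * (k : ℝ) ^ (θ₂ * J)) :=
          mul_le_mul_of_nonneg_left h8 (by positivity)
      _ = ((J + 1) * 2 ^ J * (2 / (c * κ))) * (c * κ / 2 * (k : ℝ) ^ (θ₂ * J)) := by
          field_simp
      _ ≤ (k : ℝ) ^ (1 - θ₂ * J) * (c * κ / 2 * (k : ℝ) ^ (θ₂ * J)) :=
          mul_le_mul_of_nonneg_right h2 (by positivity)
      _ = c / 2 * (k * κ) := by
          rw [h9]
          have h10 : ((k : ℝ) ^ (1 - θ₂ * J) * (k : ℝ) ^ (θ₂ * J)) = k := h9.symm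
          rw [h10]
          calc (k : ℝ) ^ (1 - θ₂ * J) * (c * κ / 2 * (k : ℝ) ^ (θ₂ * J)) =
                c / 2 * (((k : ℝ) ^ (1 - θ₂ * J) * (k : ℝ) ^ (θ₂ * J)) * κ) := by ring
            _ = _ := by rw [h10]
      _ ≤ c / 2 * (k * V y z) := by
          apply mul_le_mul_of_nonneg_left _ (by positivity)
          exact mul_le_mul_of_nonneg_left hVyz hk0.le
  have hfin := maier_core (c / 4) c (by positivity) k x y z J hJo hyz hzk (by omega) hJk hkx hes hbig hlow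
  refine le_trans (Real.exp_le_exp.2 (neg_le_neg ?_)) hfin
  -- the exponent
  have hx2 : 2 ≤ x := by
    have : k ≤ k ^ 3 := Nat.le_self_pow (by norm_num) k
    omega
  have hLx0 : 0 < Real.log x := Real.log_pos (by exact_mod_cast (by omega : 1 < x))
  have hkV : c₀ * (k : ℝ) ^ b ≤ k * V 0 x := by
    have h7 : c₀ / (k : ℝ) ^ (1 - b) ≤ V 0 x :=
      (div_le_div_of_nonneg_left hc₀.le hLx0 hx').trans (hVl x hx2)
    have h8 : (k : ℝ) * (c₀ / (k : ℝ) ^ (1 - b)) = c₀ * (k : ℝ) ^ b := by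
      have h9 : (k : ℝ) ^ (1 - b) ≠ 0 := (Real.rpow_pos_of_pos hk0 _).ne'
      have h10 : (k : ℝ) = (k : ℝ) ^ b * (k : ℝ) ^ (1 - b) := by
        rw [← Real.rpow_add hk0]
        simp
      rw [mul_div_assoc', div_eq_iff h9]
      calc (k : ℝ) * c₀ = c₀ * k := by ring
        _ = c₀ * ((k : ℝ) ^ b * (k : ℝ) ^ (1 - b)) := by rw [← h10]
        _ = _ := by ring
    rw [← h8]
    exact mul_le_mul_of_nonneg_left h7 hk0.le
  have hzlog : z * Real.log 4 ≤ c / 8 * (k * V 0 x) := by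
    have h7 : 0 ≤ Real.log 4 := Real.log_nonneg (by norm_num)
    calc z * Real.log 4 ≤ (k : ℝ) ^ θ₂ * Real.log 4 := mul_le_mul_of_nonneg_right hzr h7
      _ = (Real.log 4 * (8 / (c * c₀))) * (c * c₀ / 8 * (k : ℝ) ^ θ₂) := by field_simp
      _ ≤ (k : ℝ) ^ (b - θ₂) * (c * c₀ / 8 * (k : ℝ) ^ θ₂) :=
          mul_le_mul_of_nonneg_right h3 (by positivity)
      _ = c / 8 * (c₀ * ((k : ℝ) ^ (b - θ₂) * (k : ℝ) ^ θ₂)) := by ring
      _ = c / 8 * (c₀ * (k : ℝ) ^ b) := by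
          rw [← Real.rpow_add hk0]
          simp
      _ ≤ c / 8 * (k * V 0 x) := mul_le_mul_of_nonneg_left hkV (by positivity)
  have hkV0 : 0 ≤ k * V 0 x := mul_nonneg hk0.le (V_pos _ _).le
  have h7 : (1 + c / 4) * (1 - c / 2) ≤ 1 - c / 4 := by nlinarith
  have h8 : (1 + c / 4) * ((1 - c / 2) * (k * V 0 x)) ≤ (1 - c / 4) * (k * V 0 x) := by
    rw [← mul_assoc]
    exact mul_le_mul_of_nonneg_right h7 hkV0
  linarith

end Pool.Agent.Helper18.Sd
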