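import Pool.Agent.Helper18.Sd.Defs

/-!
SD-D, helper file: the two identities for `fs` and the numerical estimates.
-/

set_option autoImplicit false

namespace Pool.Agent.Helper18.Sd

open Finset

/-- the probability that the elements of `Q` are the steps which kill the first element -/
noncomputable def wt (S : Finset ℕ) (m : ℕ → ℝ) (Q : Finset ℕ) : ℝ :=
  (∏ p ∈ Q, 1 / m p) * ∏ p ∈ S \ Q, (1 - 1 / m p)

theorem wt_nonneg {S : Finset ℕ} {m : ℕ → ℝ} (hm : ∀ p ∈ S, 1 < m p) {Q : Finset ℕ} (hQ : Q ⊆ S) :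
    0 ≤ wt S m Q := by
  refine mul_nonneg (prod_nonneg fun p hp => ?_) (prod_nonneg fun p hp => ?_)
  · have := hm p (hQ hp)
    positivity
  · have := hm p (mem_sdiff.1 hp).1
    rw [sub_nonneg, div_le_one (by linarith)]
    linarith

theorem sum_wt (S : Finset ℕ) (m : ℕ → ℝ) : ∑ Q ∈ S.powerset, wt S m Q = 1 := by
  unfold wt
  rw [← Finset.prod_add]
  exact prod_eq_one fun p _ => by ring

theorem sum_wt_mul {S : Finset ℕ} {m : ℕ → ℝ} (hm : ∀ p ∈ S, 1 < m p) (j : ℝ) :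
    ∑ Q ∈ S.powerset, wt S m Q * ∏ p ∈ S \ Q, (1 - j / (m p - 1)) = ∏ p ∈ S, (1 - j / m p) := by
  have h : ∀ p ∈ S, 1 - j / m p = 1 / m p + (1 - 1 / m p) * (1 - j / (m p - 1)) := by
    intro p hp
    have h1 := hm p hp
    have h2 : m p ≠ 0 := by linarith
    have h3 : m p - 1 ≠ 0 := by linarith
    field_simp
    ring
  rw [prod_congr rfl h, Finset.prod_add]
  refine sum_congr rfl fun Q _ => ?_
  unfold wt
  rw [prod_mul_distrib, mul_assoc]

theorem fs_one {S : Finset ℕ} {m : ℕ → ℝ} (hm : ∀ p ∈ S, 1 < m p) (t : ℕ) :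
    fs t S m = ∑ Q ∈ S.powerset, wt S m Q * fs t (S \ Q) (fun p => m p - 1) := by
  unfold fs
  simp_rw [mul_sum]
  rw [sum_comm]
  refine sum_congr rfl fun j _ => ?_
  rw [← sum_wt_mul hm (j : ℝ), mul_sum]
  exact sum_congr rfl fun Q _ => by ring

theorem wt_empty (S : Finset ℕ) (m : ℕ → ℝ) : wt S m ∅ = ∏ p ∈ S, (1 - 1 / m p) := by
  unfold wt
  rw [prod_empty, one_mul, sdiff_empty]

theorem fs_succ {S : Finset ℕ} {m : ℕ → ℝ} (hm : ∀ p ∈ S, 1 < m p) (t : ℕ) :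
    fs (t + 1) S m = fs t S m - wt S m ∅ * fs t S (fun p => m p - 1) := by
  have h1 : wt S m ∅ * fs t S (fun p => m p - 1) =
      ∑ j ∈ range (t + 1), (-1 : ℝ) ^ j * (t.choose j : ℝ) * ∏ p ∈ S, (1 - ((j + 1 : ℕ) : ℝ) / m p) := by
    unfold fs
    rw [wt_empty, mul_sum]
    refine sum_congr rfl fun j _ => ?_
    have h2 : ∏ p ∈ S, (1 - ((j + 1 : ℕ) : ℝ) / m p) =
        (∏ p ∈ S, (1 - 1 / m p)) * ∏ p ∈ S, (1 - (j : ℝ) / (m p - 1)) := by
      rw [← prod_mul_distrib]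
      refine prod_congr rfl fun p hp => ?_
      have h1 := hm p hp
      have h2 : m p ≠ 0 := by linarith
      have h3 : m p - 1 ≠ 0 := by linarith
      push_cast
      field_simp
      ring
    rw [h2]
    ring
  rw [h1]
  have h3 : fs (t + 1) S m = ∑ j ∈ range (t + 1), ((-1 : ℝ) ^ (j + 1) * ((t + 1).choose (j + 1) : ℝ) *
      ∏ p ∈ S, (1 - ((j + 1 : ℕ) : ℝ) / m p)) + ∏ p ∈ S, (1 - ((0 : ℕ) : ℝ) / m p) := by
    unfold fs
    rw [sum_range_succ']
    simp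
  have h4 : fs t S m = ∑ j ∈ range (t + 1), ((-1 : ℝ) ^ (j + 1) * (t.choose (j + 1) : ℝ) *
      ∏ p ∈ S, (1 - ((j + 1 : ℕ) : ℝ) / m p)) + ∏ p ∈ S, (1 - ((0 : ℕ) : ℝ) / m p) := by
    have h5 : fs t S m = ∑ j ∈ range (t + 1 + 1), (-1 : ℝ) ^ j * (t.choose j : ℝ) *
        ∏ p ∈ S, (1 - (j : ℝ) / m p) := by
      unfold fs
      rw [sum_range_succ _ (t + 1), Nat.choose_succ_self]
      simp
    rw [h5, sum_range_succ']
    simp
  rw [h3, h4]
  have h6 : ∀ a b c : ℝ, a = b - c → a + ∏ p ∈ S, (1 - ((0 : ℕ) : ℝ) / m p) =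
      b + ∏ p ∈ S, (1 - ((0 : ℕ) : ℝ) / m p) - c := fun a b c h => by rw [h]; ring
  apply h6
  rw [← sum_sub_distrib]
  refine sum_congr rfl fun j _ => ?_
  rw [Nat.choose_succ_succ]
  push_cast
  ring

theorem fs_rec {S : Finset ℕ} {m : ℕ → ℝ} (hm : ∀ p ∈ S, 1 < m p) (t : ℕ) :
    fs (t + 1) S m = ∑ Q ∈ S.powerset.erase ∅, wt S m Q * fs t (S \ Q) (fun p => m p - 1) := by
  rw [fs_succ hm, fs_one hm, ← Finset.add_sum_erase _ _ (empty_mem_powerset S), sdiff_empty]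
  ring

/-- the mean of `∏_Q (1 - 1/m)⁻¹` -/
theorem sum_wt_inv {S : Finset ℕ} {m : ℕ → ℝ} (hm : ∀ p ∈ S, 1 < m p) :
    ∑ Q ∈ S.powerset, wt S m Q * ∏ p ∈ Q, (1 - 1 / m p)⁻¹ = ∏ p ∈ S, (1 + 1 / (m p * (m p - 1))) := by
  have h : ∀ p ∈ S, 1 + 1 / (m p * (m p - 1)) = 1 / m p * (1 - 1 / m p)⁻¹ + (1 - 1 / m p) := by
    intro p hp
    have h1 := hm p hp
    have h2 : m p ≠ 0 := by linarith
    have h3 : m p - 1 ≠ 0 := by linarith
    have h4 : 1 - 1 / m p = (m p - 1) / m p := by field_simp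
    rw [h4, inv_div]
    field_simp
    ring
  rw [prod_congr rfl h, Finset.prod_add]
  refine sum_congr rfl fun Q _ => ?_
  unfold wt
  rw [prod_mul_distrib]
  ring

theorem convex_g (t : ℕ) : ConvexOn ℝ Set.univ (fun v : ℝ => (max 0 (1 - v)) ^ t) := by
  apply ConvexOn.pow
  · apply ConvexOn.sup (convexOn_const 0 convex_univ)
    exact (convexOn_const (1 : ℝ) convex_univ).sub (concaveOn_id convex_univ)
  · intro x _
    exact le_max_left _ _

theorem anti_g (t : ℕ) {v w : ℝ} (h : v ≤ w) : (max 0 (1 - w)) ^ t ≤ (max 0 (1 - v)) ^ t :=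
  pow_le_pow_left₀ (le_max_left _ _) (max_le_max le_rfl (by linarith)) t

/-- `1 - exp (-s)` -/
theorem one_sub_exp {s : ℝ} (hs : 0 ≤ s) : s / 2 ≤ 1 - Real.exp (-s) ∨
    6 / 10 ≤ 1 - Real.exp (-s) := by
  rcases le_total s 1 with h | h
  · left
    have h1 := Real.add_one_le_exp s
    have h2 : Real.exp (-s) ≤ 1 / (1 + s) := by
      rw [Real.exp_neg, ← one_div]
      exact one_div_le_one_div_of_le (by linarith) (by linarith)
    have h3 : 1 / (1 + s) ≤ 1 - s / 2 := by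
      rw [div_le_iff₀ (by linarith)]
      nlinarith
    linarith
  · right
    have h1 : Real.exp (-s) ≤ Real.exp (-1) := Real.exp_le_exp.2 (by linarith)
    have h2 : Real.exp (-1) ≤ 4 / 10 := by
      rw [Real.exp_neg]
      have h3 := Real.exp_one_gt_d9
      rw [inv_le_comm₀ (Real.exp_pos 1) (by norm_num)]
      linarith
    linarith

end Pool.Agent.Helper18.Sd
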