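import Pool.Agent.Helper18.Sd.Final
import Pool.Agent.Helper18.Sd.Half

/-!
SE-2. The upper bound `exp(-c min(k V(x), k^0.49))` for the density of `A(x,k)`.
-/

set_option autoImplicit false

namespace Pool.Agent.Helper18.Sd

open Finset Filter Topology

private theorem uh_ev_log (r M : ℝ) (hr : 0 < r) :
    ∀ᶠ k : ℕ in Filter.atTop, M * Real.log k ≤ (k : ℝ) ^ r := by
  have h1 := (isLittleO_log_rpow_atTop hr).bound (show (0 : ℝ) < 1 / (|M| + 1) by positivity)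
  have h2 := tendsto_natCast_atTop_atTop (R := ℝ) |>.eventually h1
  filter_upwards [h2] with k hk
  have h3 : (0 : ℝ) < |M| + 1 := by positivity
  have h4 : 0 ≤ (k : ℝ) ^ r := Real.rpow_nonneg (Nat.cast_nonneg k) r
  rw [Real.norm_of_nonneg h4, Real.norm_eq_abs] at hk
  have h5 : (|M| + 1) * |Real.log k| ≤ (k : ℝ) ^ r := by
    have := mul_le_mul_of_nonneg_left hk h3.le
    refine this.trans (le_of_eq ?_)
    field_simp
  have h6 : M * Real.log k ≤ |M| * |Real.log k| := by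
    rw [← abs_mul]
    exact le_abs_self _
  nlinarith [abs_nonneg (Real.log k)]

private theorem uh_ev_pow (r M : ℝ) (hr : 0 < r) :
    ∀ᶠ k : ℕ in Filter.atTop, M ≤ (k : ℝ) ^ r :=
  ((tendsto_rpow_atTop hr).comp (tendsto_natCast_atTop_atTop (R := ℝ))).eventually_ge_atTop M

/-- the deterministic part -/
private theorem uh_core (k y x : ℕ) (hy : 4 ≤ y) (hyk : y ≤ k) (κ B : ℝ) (hκ0 : 0 ≤ κ)
    (hκ : κ ≤ V y (k ^ 3))
    (hs : ∀ r : ℕ → ℕ, B ≤
        (((Icc 1 k).filter (fun i => ∀ p ∈ ps 0 y, ¬ p ∣ r p + i)).card : ℝ)) :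
    ex (pl 0 y ++ (pl y (k ^ 3) ++ pl (k ^ 3) x)) emp (Icc 1 k) ≤
        Real.exp (-(min (V (k ^ 3) x) ((y : ℝ) / (2 * k)) * κ ^ 4 * B)) := by
  have hq : 0 < V (k ^ 3) x := V_pos _ _
  have hk3 : k ≤ k ^ 3 := Nat.le_self_pow (by norm_num) k
  have hk0 : (0 : ℝ) < k := by exact_mod_cast (by omega : 0 < k)
  have hy0 : (0 : ℝ) < y := by exact_mod_cast (by omega : 0 < y)
  have hyk' : (y : ℝ) ≤ k := by exact_mod_cast hyk
  set lam := min (V (k ^ 3) x) ((y : ℝ) / (2 * k)) with hlam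
  have hlam0 : 0 ≤ lam := le_min hq.le (by positivity)
  have hlq : lam ≤ V (k ^ 3) x := min_le_left _ _
  have hly : lam ≤ (y : ℝ) / (2 * k) := min_le_right _ _
  have hM : lam * ((k : ℝ) / y + 1) ≤ 1 := by
    have h1 : (k : ℝ) / y + 1 ≤ 2 * k / y := by
      have h2 : (1 : ℝ) ≤ k / y := by rw [le_div_iff₀ hy0]; linarith
      have h3 : 2 * (k : ℝ) / y = 2 * (k / y) := by ring
      rw [h3]
      linarith
    calc lam * ((k : ℝ) / y + 1) ≤ (y : ℝ) / (2 * k) * (2 * k / y) :=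
          mul_le_mul hly h1 (by positivity) (by positivity)
      _ = 1 := by field_simp
  have hprod : κ ^ 4 ≤ ∏ p ∈ ps y (k ^ 3), (1 - (1 + 1) / (p : ℝ)) := by
    have h7 := V_pow 1 one_pos le_rfl y (k ^ 3) (by
      have : (4 : ℝ) ≤ y := by exact_mod_cast hy
      linarith)
    refine le_trans ?_ h7
    have h8 : V y (k ^ 3) ^ ((1 : ℝ) + 3 * 1) = V y (k ^ 3) ^ (4 : ℕ) := by
      rw [← Real.rpow_natCast]
      norm_num
    rw [h8]
    exact pow_le_pow_left₀ hκ0 hκ 4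
  have h2 : ∀ T ⊆ Icc 1 k, ex (pl y (k ^ 3) ++ pl (k ^ 3) x) emp T ≤
      Real.exp (-(lam * κ ^ 4 * T.card)) := by
    intro T hT
    rw [ex_append]
    have h3 : ex (pl y (k ^ 3)) (ex (pl (k ^ 3) x) emp) T ≤
        ex (pl y (k ^ 3)) (fun T => Real.exp (-(lam * T.card))) T := by
      apply ex_mono
      intro T' hT'
      refine (ex_emp_upper k (k ^ 3) x hk3 T' (hT'.trans hT)).trans (Real.exp_le_exp.2 (neg_le_neg ?_))
      exact mul_le_mul_of_nonneg_right hlq (Nat.cast_nonneg _)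
    have h4 := ex_medium k y 1 lam zero_le_one le_rfl hlam0 (by omega) hM (pl y (k ^ 3))
      (fun p hp => ((mem_pl _ _ p).1 hp).1.1) T hT
    have h5 : ((pl y (k ^ 3)).map (fun p : ℕ => 1 - (1 + 1) / (p : ℝ))).prod =
        ∏ p ∈ ps y (k ^ 3), (1 - (1 + 1) / (p : ℝ)) := Finset.prod_map_toList _ _
    rw [h5] at h4
    refine h3.trans (h4.trans (Real.exp_le_exp.2 (neg_le_neg ?_)))
    exact mul_le_mul_of_nonneg_right (mul_le_mul_of_nonneg_left hprod hlam0) (Nat.cast_nonneg _)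
  rw [ex_append]
  have h6 : ex (pl 0 y) (ex (pl y (k ^ 3) ++ pl (k ^ 3) x) emp) (Icc 1 k) ≤
      ex (pl 0 y) (fun T => Real.exp (-(lam * κ ^ 4 * T.card))) (Icc 1 k) :=
    ex_mono _ _ _ _ h2
  refine h6.trans ?_
  apply ex_le_of_forall
  · intro p hp
    exact ((mem_pl _ _ p).1 hp).1.1
  · exact nodup_pl _ _
  · intro r
    apply Real.exp_le_exp.2
    apply neg_le_neg
    have h7 := hs r
    have h8 : ((Icc 1 k).filter (fun i => ∀ p ∈ pl 0 y, ¬ p ∣ r p + i)) =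
        ((Icc 1 k).filter (fun i => ∀ p ∈ ps 0 y, ¬ p ∣ r p + i)) := by
      apply Finset.filter_congr
      intro i _
      unfold pl
      simp only [Finset.mem_toList]
    rw [h8]
    exact mul_le_mul_of_nonneg_left h7 (mul_nonneg hlam0 (pow_nonneg hκ0 4))

/-- the upper bound for `x ≥ k^3` -/
theorem upper_half : ∃ c : ℝ, 0 < c ∧ ∃ k₀ : ℕ, ∀ k : ℕ, k₀ ≤ k → ∀ x : ℕ, k ^ 3 ≤ x →
    ∃ y : ℕ, y ≤ k ^ 3 ∧
      ex (pl 0 y ++ (pl y (k ^ 3) ++ pl (k ^ 3) x)) emp (Icc 1 k) ≤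
        Real.exp (-(c * min (k * V 0 x) ((k : ℝ) ^ (0.49 : ℝ)))) := by
  obtain ⟨ch, hch, k₁, hsm⟩ := small_half
  obtain ⟨c₀, hc₀, hVl⟩ := V_lower
  obtain ⟨κ, hκ⟩ : ∃ κ : ℝ, κ = c₀ * 0.08 := ⟨_, rfl⟩
  have hκ0 : 0 < κ := by rw [hκ]; positivity
  have e1 := uh_ev_pow 0.491 16 (by norm_num)
  have e2 := uh_ev_log 0.001 4 (by norm_num)
  obtain ⟨k₀, hk₀⟩ := Filter.eventually_atTop.1 ((e1.and e2).and
    ((Filter.eventually_ge_atTop k₁).and (Filter.eventually_ge_atTop 2)))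
  refine ⟨κ ^ 4 * ch, by positivity, k₀, fun k hk x hwx => ?_⟩
  obtain ⟨⟨h1, h2⟩, h5, h6⟩ := hk₀ k hk
  have hk1 : (1 : ℝ) ≤ k := by exact_mod_cast (by omega : 1 ≤ k)
  have hk2 : (2 : ℝ) ≤ k := by exact_mod_cast h6
  have hk0 : (0 : ℝ) < k := by linarith
  have hLk : 0 < Real.log k := Real.log_pos (by linarith)
  obtain ⟨t, ht⟩ : ∃ t : ℝ, t = (k : ℝ) ^ (0.491 : ℝ) := ⟨_, rfl⟩
  have htk : t ≤ k := by
    rw [ht]
    calc (k : ℝ) ^ (0.491 : ℝ) ≤ (k : ℝ) ^ (1 : ℝ) :=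
          Real.rpow_le_rpow_of_exponent_le hk1 (by norm_num)
      _ = k := Real.rpow_one _
  rw [← ht] at h1
  have ht0 : 0 < t := by linarith
  obtain ⟨y, hy⟩ : ∃ y : ℕ, y = ⌊t⌋₊ := ⟨_, rfl⟩
  have hyt : (y : ℝ) ≤ t := by rw [hy]; exact Nat.floor_le ht0.le
  have hyt' : t < y + 1 := by rw [hy]; exact Nat.lt_floor_add_one t
  have hyr : t / 2 ≤ y := by linarith
  have hy4r : (4 : ℝ) < y := by linarith
  have hy4 : 4 < y := by exact_mod_cast hy4r
  have hyk : y ≤ k := by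
    have h7 : (y : ℝ) ≤ k := hyt.trans htk
    exact_mod_cast h7
  have hyw : y ≤ k ^ 3 := hyk.trans (Nat.le_self_pow (by norm_num) k)
  have hw2 : 2 ≤ k ^ 3 := by omega
  have hlogw : Real.log ((k ^ 3 : ℕ) : ℝ) = 3 * Real.log k := by
    push_cast
    rw [Real.log_pow]
    norm_num
  have hLy : 0.24 * Real.log k ≤ Real.log y := by
    have h7 : Real.log (t / 2) ≤ Real.log y := Real.log_le_log (by positivity) hyr
    have h8 : Real.log t = 0.491 * Real.log k := by rw [ht, Real.log_rpow hk0]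
    have h9 : Real.log 16 ≤ Real.log t := Real.log_le_log (by norm_num) h1
    have h10 : Real.log 16 = 4 * Real.log 2 := by
      rw [show (16 : ℝ) = 2 ^ 4 by norm_num, Real.log_pow]
      norm_num
    have h11 : Real.log (t / 2) = Real.log t - Real.log 2 := Real.log_div ht0.ne' (by norm_num)
    linarith
  have hLy0 : 0 < Real.log y := lt_of_lt_of_le (by positivity) hLy
  have hV0y := V_upper y (by omega)
  have hV0w := hVl (k ^ 3) hw2
  rw [hlogw] at hV0w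
  have hV0w' := V_upper (k ^ 3) hw2
  rw [hlogw] at hV0w'
  have m1 := V_mul 0 y (k ^ 3) (Nat.zero_le _) hyw
  have m2 := V_mul 0 (k ^ 3) x (Nat.zero_le _) hwx
  have hR : κ ≤ V y (k ^ 3) := by
    have h7 : V 0 y * Real.log y ≤ 1 := by
      calc V 0 y * Real.log y ≤ 1 / Real.log y * Real.log y :=
            mul_le_mul_of_nonneg_right hV0y hLy0.le
        _ = 1 := by field_simp
    have h8 : κ ≤ V 0 (k ^ 3) * Real.log y := by
      calc κ = c₀ / (3 * Real.log k) * (0.24 * Real.log k) := by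
            rw [hκ]
            field_simp
            ring
        _ ≤ V 0 (k ^ 3) * Real.log y := mul_le_mul hV0w hLy (by positivity) (V_pos _ _).le
    have h9 : V 0 (k ^ 3) * Real.log y ≤ V y (k ^ 3) := by
      rw [← m1]
      have h10 := mul_le_mul_of_nonneg_left h7 (V_pos y (k ^ 3)).le
      linarith
    exact h8.trans h9
  have hfin := uh_core k y x (by omega) hyk κ (ch * (k / Real.log k)) hκ0.le hR
    (hsm k h5 y (by rw [← ht]; exact hyt))
  refine ⟨y, hyw, hfin.trans (Real.exp_le_exp.2 (neg_le_neg ?_))⟩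
  have hmain : min (k * V 0 x) ((k : ℝ) ^ (0.49 : ℝ)) ≤
      min (V (k ^ 3) x) ((y : ℝ) / (2 * k)) * (k / Real.log k) := by
    rcases le_total (V (k ^ 3) x) ((y : ℝ) / (2 * k)) with h7 | h7
    · rw [min_eq_left h7]
      refine (min_le_left _ _).trans ?_
      rw [← m2]
      have h8 : V 0 (k ^ 3) ≤ 1 / Real.log k := by
        refine hV0w'.trans (one_div_le_one_div_of_le hLk (by linarith))
      calc (k : ℝ) * (V 0 (k ^ 3) * V (k ^ 3) x) ≤ k * (1 / Real.log k * V (k ^ 3) x) :=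
            mul_le_mul_of_nonneg_left (mul_le_mul_of_nonneg_right h8 (V_pos _ _).le) hk0.le
        _ = V (k ^ 3) x * (k / Real.log k) := by ring
    · rw [min_eq_right h7]
      refine (min_le_right _ _).trans ?_
      have h8 : (y : ℝ) / (2 * k) * (k / Real.log k) = y / (2 * Real.log k) := by
        field_simp
      rw [h8, le_div_iff₀ (by positivity)]
      have h9 : t = (k : ℝ) ^ (0.49 : ℝ) * (k : ℝ) ^ (0.001 : ℝ) := by
        rw [ht, ← Real.rpow_add hk0]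
        norm_num
      have h10 : (k : ℝ) ^ (0.49 : ℝ) * (4 * Real.log k) ≤ t := by
        rw [h9]
        exact mul_le_mul_of_nonneg_left h2 (Real.rpow_nonneg hk0.le _)
      linarith
  calc κ ^ 4 * ch * min (k * V 0 x) ((k : ℝ) ^ (0.49 : ℝ))
      ≤ κ ^ 4 * ch * (min (V (k ^ 3) x) ((y : ℝ) / (2 * k)) * (k / Real.log k)) :=
        mul_le_mul_of_nonneg_left hmain (by positivity)
    _ = min (V (k ^ 3) x) ((y : ℝ) / (2 * k)) * κ ^ 4 * (ch * (k / Real.log k)) := by ring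

/-- the density grows with `x` -/
theorem ex_mono_x (k x x' : ℕ) (h : x ≤ x') :
    ex (pl 0 x) emp (Icc 1 k) ≤ ex (pl 0 x') emp (Icc 1 k) := by
  have hpr : ∀ b : ℕ, ∀ p ∈ pl 0 b, p.Prime := fun b p hp => ((mem_pl 0 b p).mp hp).2
  have h1 := dens_ex (pl 0 x) (hpr x) (nodup_pl 0 x) (Icc 1 k)
  have h2 := dens_ex (pl 0 x') (hpr x') (nodup_pl 0 x') (Icc 1 k)
  refine le_of_tendsto_of_tendsto' h1 h2 ?_
  intro N
  apply div_le_div_of_nonneg_right _ (Nat.cast_nonneg _)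
  exact_mod_cast Finset.card_le_card (by
    intro n hn
    rw [mem_filter] at hn ⊢
    refine ⟨hn.1, fun i hi => ?_⟩
    obtain ⟨p, hp, hd⟩ := hn.2 i hi
    rw [mem_pl] at hp
    exact ⟨p, (mem_pl 0 x' p).mpr ⟨⟨hp.1.1, hp.1.2.trans h⟩, hp.2⟩, hd⟩)

/-- the upper bound for all `x` -/
theorem density_upper : ∃ c : ℝ, 0 < c ∧ ∃ k₀ : ℕ, ∀ k : ℕ, k₀ ≤ k → ∀ x : ℕ,
    ex (pl 0 x) emp (Icc 1 k) ≤ Real.exp (-(c * min (k * V 0 x) ((k : ℝ) ^ (0.49 : ℝ)))) := by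
  obtain ⟨c, hc, kU, hU⟩ := upper_half
  obtain ⟨c₀, hc₀, hVl⟩ := V_lower
  have e1 := uh_ev_log 0.51 (3 / c₀) (by norm_num)
  obtain ⟨k₀, hk₀⟩ := Filter.eventually_atTop.1 (e1.and
    ((Filter.eventually_ge_atTop kU).and (Filter.eventually_ge_atTop 2)))
  have hpr : ∀ a b : ℕ, ∀ p ∈ pl a b, p.Prime := fun a b p hp => ((mem_pl a b p).mp hp).2
  have hbig : ∀ k : ℕ, k₀ ≤ k → ∀ x : ℕ, k ^ 3 ≤ x →
      ex (pl 0 x) emp (Icc 1 k) ≤ Real.exp (-(c * min (k * V 0 x) ((k : ℝ) ^ (0.49 : ℝ)))) := by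
    intro k hk x hw
    obtain ⟨_, h2, _⟩ := hk₀ k hk
    obtain ⟨y, hy, h4⟩ := hU k h2 x hw
    have p2 : (pl 0 y ++ (pl y (k ^ 3) ++ pl (k ^ 3) x)).Perm (pl 0 x) :=
      ((pl_append y (k ^ 3) x hy hw).append_left (pl 0 y)).trans
        (pl_append 0 y x (Nat.zero_le _) (hy.trans hw))
    have e2 := ex_perm _ _ p2.symm (hpr 0 x) (nodup_pl 0 x) (Icc 1 k)
    rw [e2]
    exact h4
  refine ⟨c, hc, k₀, fun k hk x => ?_⟩
  rcases le_total (k ^ 3) x with hw | hw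
  · exact hbig k hk x hw
  · obtain ⟨h1, _, h3⟩ := hk₀ k hk
    refine (ex_mono_x k x (k ^ 3) hw).trans ((hbig k hk (k ^ 3) le_rfl).trans
      (Real.exp_le_exp.2 (neg_le_neg (mul_le_mul_of_nonneg_left ?_ hc.le))))
    have hk1 : (1 : ℝ) ≤ k := by exact_mod_cast (by omega : 1 ≤ k)
    have hk2 : (2 : ℝ) ≤ k := by exact_mod_cast h3
    have hk0 : (0 : ℝ) < k := by linarith
    have hLk : 0 < Real.log k := Real.log_pos (by linarith)
    have hw2 : 2 ≤ k ^ 3 := by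
      have := Nat.le_self_pow (n := 3) (by norm_num) k
      omega
    have hlogw : Real.log ((k ^ 3 : ℕ) : ℝ) = 3 * Real.log k := by
      push_cast
      rw [Real.log_pow]
      norm_num
    have hV0w := hVl (k ^ 3) hw2
    rw [hlogw] at hV0w
    refine (min_le_right _ _).trans (le_min ?_ le_rfl)
    have h4 : (k : ℝ) ^ (0.49 : ℝ) * (3 / c₀ * Real.log k) ≤ k := by
      calc (k : ℝ) ^ (0.49 : ℝ) * (3 / c₀ * Real.log k) ≤
            (k : ℝ) ^ (0.49 : ℝ) * (k : ℝ) ^ (0.51 : ℝ) :=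
            mul_le_mul_of_nonneg_left h1 (Real.rpow_nonneg hk0.le _)
        _ = k := by
            rw [← Real.rpow_add hk0]
            norm_num
    have h5 : (k : ℝ) ^ (0.49 : ℝ) ≤ k * (c₀ / (3 * Real.log k)) := by
      have h6 : (k : ℝ) * (c₀ / (3 * Real.log k)) = k / (3 / c₀ * Real.log k) := by
        field_simp
      rw [h6, le_div_iff₀ (by positivity)]
      exact h4
    exact h5.trans (mul_le_mul_of_nonneg_left hV0w hk0.le)

/-- the lower bound for `log x ≥ k^0.51` -/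
theorem density_lower : ∃ k₀ : ℕ, ∀ k : ℕ, k₀ ≤ k → ∀ x : ℕ,
    (k : ℝ) ^ (0.51 : ℝ) ≤ Real.log x →
      Real.exp (-(2 * (k * V 0 x))) ≤ ex (pl 0 x) emp (Icc 1 k) := by
  obtain ⟨C, hC3, kL, hL⟩ := lower 1 one_pos
  have e1 := uh_ev_log 0.51 C (by norm_num)
  obtain ⟨k₀, hk₀⟩ := Filter.eventually_atTop.1 (e1.and (Filter.eventually_ge_atTop kL))
  refine ⟨k₀, fun k hk x hx => ?_⟩
  obtain ⟨h1, h2⟩ := hk₀ k hk
  obtain ⟨hw, h3⟩ := hL k h2 x (h1.trans hx)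
  have hpr : ∀ a b : ℕ, ∀ p ∈ pl a b, p.Prime := fun a b p hp => ((mem_pl a b p).mp hp).2
  have p1 := pl_append 0 (k ^ 3) x (Nat.zero_le _) hw
  have e2 := ex_perm _ _ p1.symm (hpr 0 x) (nodup_pl 0 x) (Icc 1 k)
  rw [e2]
  have h4 : (2 : ℝ) * (k * V 0 x) = (1 + 1) * (k * V 0 x) := by norm_num
  rw [h4]
  exact h3

end Pool.Agent.Helper18.Sd
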